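import Pool.Agent.Q42.UT.Stm2

/-!
Job UT-BCX (project UT of helper42): Borel-Cantelli for the pairs of vertices.
-/

set_option autoImplicit false

namespace Pool.Agent.Q42.UT

open MeasureTheory Set Filter Topology
open scoped ENNReal unitInterval
open Pool.Agent.TH968.UST

namespace BCX

lemma mp_slice (V : Type) (j : ℕ) :
    MeasurePreserving (fun (r : V × ℕ → I) (v : V) => r (v, j)) (lu (V × ℕ)) (lu V) := by
  classical
  have hm : Measurable (fun (r : V × ℕ → I) (v : V) => r (v, j)) :=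
    measurable_pi_iff.2 fun v => measurable_pi_apply _
  refine ⟨hm, Measure.eq_infinitePi _ fun s t ht => ?_⟩
  rw [Measure.map_apply hm (MeasurableSet.pi s.countable_toSet fun i _ => ht i)]
  have h1 : (fun (r : V × ℕ → I) (v : V) => r (v, j)) ⁻¹' (Set.pi s t) =
      Set.pi ((s.map ⟨fun v => (v, j), fun a b h => (Prod.mk.inj h).1⟩ : Finset (V × ℕ)) :
        Set (V × ℕ)) (fun p => t p.1) := by
    ext r
    simp [Set.mem_pi] <;> exact Iff.rfl
  rw [h1, Measure.infinitePi_pi _ (fun i _ => ht i.1)]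
  rw [Finset.prod_map]
  rfl

end BCX

theorem t_BCX : S_BCX := by
  intro V Ω _ _ P _ G c hc Ns hb
  let B : ℕ → Set (Ω × (V → I)) := fun j => {q | ∃ x y, c x ≤ j ∧ c y ≤ j ∧ (G q.1).Adj x y ∧
    ¬ ∃ z, Win (nu (G q.1) (Ns j) x) q.2 z ∧ Win (nu (G q.1) (Ns j) y) q.2 z}
  let f : ℕ → Ω × (V × ℕ → I) → Ω × (V → I) := fun j =>
    Prod.map id (fun (r : V × ℕ → I) (v : V) => r (v, j))
  have hf : ∀ j, MeasurePreserving (f j) (P.prod (lu (V × ℕ))) (P.prod (lu V)) := fun j =>
    (MeasurePreserving.id P).prod (BCX.mp_slice V j)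
  have hle : ∀ j, (P.prod (lu (V × ℕ))) (f j ⁻¹' B j) ≤ (2 : ℝ≥0∞)⁻¹ ^ j := by
    intro j
    refine (Measure.le_map_apply (hf j).measurable.aemeasurable (B j)).trans ?_
    rw [(hf j).map_eq]
    exact hb j
  have hsum : ∑' j, (P.prod (lu (V × ℕ))) (f j ⁻¹' B j) ≠ ∞ := by
    refine ne_top_of_le_ne_top ?_ (ENNReal.tsum_le_tsum hle)
    rw [ENNReal.tsum_geometric]
    norm_num
  filter_upwards [ae_eventually_notMem hsum] with q hq
  intro x y hxy
  obtain ⟨n, hn⟩ := eventually_atTop.1 hq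
  refine ⟨max n (max (c x) (c y)), fun j hj => ?_⟩
  by_contra h3
  exact hn j ((le_max_left _ _).trans hj) ⟨x, y,
    ((le_max_left _ _).trans (le_max_right _ _)).trans hj,
    ((le_max_right _ _).trans (le_max_right _ _)).trans hj, hxy, h3⟩

end Pool.Agent.Q42.UT
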