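import Pool.Agent.Q42.UT.Stm

/-! Job CMP of project UT, with elementary lemmas on `ed`, `rs`, `code`. -/

set_option autoImplicit false

namespace Pool.Agent.Q42.UT

open MeasureTheory Set Filter Topology
open scoped ENNReal unitInterval
open Pool.Agent.TH968.UST

namespace CMP

variable {V : Type}

theorem reach_mem {K : SimpleGraph V} {D : Finset V} (hD : Cl K D) {x y : V}
    (h : K.Reachable x y) (hx : x ∈ D) : y ∈ D := by
  obtain ⟨w⟩ := h
  induction w with
  | nil => exact hx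
  | cons h _ ih => exact ih (hD _ hx _ h)

theorem comp_sub {K : SimpleGraph V} {C D : Finset V} (hC : IsComp K C) (hD : Cl K D)
    (h : ∃ x ∈ C, x ∈ D) : C ⊆ D := by
  obtain ⟨x, hx, hxD⟩ := h
  intro y hy
  exact reach_mem hD (hC.2.2 x hx y hy) hxD

theorem Cl.of_le {K K' : SimpleGraph V} (h : K ≤ K') {C : Finset V} (hC : Cl K' C) : Cl K C :=
  fun x hx y hxy => hC x hx y (h hxy)

theorem rk_lt {a : V → I} {C : Finset V} {x y : V} (hx : x ∈ C) (h : a x < a y) :
    rk a C x < rk a C y := by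
  classical
  unfold rk
  apply Finset.card_lt_card
  rw [Finset.ssubset_iff_of_subset]
  · refine ⟨x, ?_, ?_⟩
    · rw [Finset.mem_filter]; exact ⟨hx, h⟩
    · rw [Finset.mem_filter]; exact fun h' => lt_irrefl _ h'.2
  · intro w hw
    rw [Finset.mem_filter] at hw ⊢
    exact ⟨hw.1, hw.2.trans h⟩

theorem rk_inj {a : V → I} (ha : Function.Injective a) {C : Finset V} {x y : V} (hx : x ∈ C)
    (hy : y ∈ C) (h : rk a C x = rk a C y) : x = y := by
  rcases lt_trichotomy (a x) (a y) with h1 | h1 | h1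
  · exact absurd h (rk_lt hx h1).ne
  · exact ha h1
  · exact absurd h (rk_lt hy h1).ne'

theorem exists_first {a : V → I} {C : Finset V} (hC : C.Nonempty) : ∃ v ∈ C, rk a C v = 0 := by
  classical
  obtain ⟨v, hv, h⟩ := C.exists_min_image a hC
  refine ⟨v, hv, ?_⟩
  unfold rk
  rw [Finset.card_eq_zero, Finset.filter_eq_empty_iff]
  intro w hw
  exact not_lt.2 (h w hw)

theorem mem_ed {K : SimpleGraph V} {C : Finset V} {e : Sym2 V} :
    e ∈ ed K C ↔ (∀ v ∈ e, v ∈ C) ∧ e ∈ K.edgeSet := by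
  classical
  unfold ed
  rw [Finset.mem_filter, Finset.mem_sym2_iff]

theorem mem_rs {E : Finset (Sym2 V)} {S : Set (Sym2 V)} {e : Sym2 V} :
    e ∈ rs E S ↔ e ∈ E ∧ e ∈ S := by
  classical
  unfold rs
  rw [Finset.mem_filter]

theorem rs_sub (E : Finset (Sym2 V)) (S : Set (Sym2 V)) : rs E S ⊆ E := fun _ he => (mem_rs.1 he).1

theorem mem_code {a : V → I} {C : Finset V} {S : Finset (Sym2 V)} {e : Sym2 ℕ} :
    e ∈ code a C S ↔ ∃ e₀ ∈ S, Sym2.map (rk a C) e₀ = e := by
  classical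
  unfold code
  rw [Finset.mem_image]

theorem code_mono {a : V → I} {C : Finset V} {S T : Finset (Sym2 V)} (h : S ⊆ T) :
    code a C S ⊆ code a C T := by
  intro e he
  obtain ⟨e₀, h0, h1⟩ := mem_code.1 he
  exact mem_code.2 ⟨e₀, h h0, h1⟩

theorem ed_mono {K K' : SimpleGraph V} (h : K ≤ K') (C : Finset V) : ed K C ⊆ ed K' C := by
  intro e he
  rw [mem_ed] at he ⊢
  exact ⟨he.1, SimpleGraph.edgeSet_mono h he.2⟩

theorem ed_sub {K : SimpleGraph V} {C D : Finset V} (h : C ⊆ D) : ed K C ⊆ ed K D := by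
  intro e he
  rw [mem_ed] at he ⊢
  exact ⟨fun v hv => h (he.1 v hv), he.2⟩

theorem map_inj {i : V → ℕ} {C : Finset V} (hi : ∀ x ∈ C, ∀ y ∈ C, i x = i y → x = y)
    {e e' : Sym2 V} (he : ∀ v ∈ e, v ∈ C) (he' : ∀ v ∈ e', v ∈ C)
    (h : Sym2.map i e = Sym2.map i e') : e = e' := by
  induction e with | _ x y => ?_
  induction e' with | _ x' y' => ?_
  simp only [Sym2.map_mk, Prod.map_apply, Sym2.eq_iff] at h ⊢
  have hx := he x (Sym2.mem_mk_left x y)
  have hy := he y (Sym2.mem_mk_right x y)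
  have hx' := he' x' (Sym2.mem_mk_left x' y')
  have hy' := he' y' (Sym2.mem_mk_right x' y')
  rcases h with h | h
  · exact Or.inl ⟨hi _ hx _ hx' h.1, hi _ hy _ hy' h.2⟩
  · exact Or.inr ⟨hi _ hx _ hy' h.1, hi _ hy _ hx' h.2⟩

/-- the empty set is the tree of the empty set of edges -/
theorem empty_tree : (∅ : Finset (Sym2 V)) ∈ trees (⊥ : Setoid V) ∅ := by
  classical
  have h := Pool.Agent.TH830.UST.trees_nonempty (⊥ : Setoid V) (∅ : Finset (Sym2 V))
  obtain ⟨T, hT⟩ := h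
  have h2 : T ⊆ ∅ := by
    unfold trees at hT
    exact Finset.mem_powerset.1 (Finset.mem_filter.1 hT).1
  rwa [Finset.subset_empty.1 h2] at hT

/-- the complement of a component in a union of components -/
theorem Cl.sdiff [DecidableEq V] {K : SimpleGraph V} {C C₁ : Finset V} (hC : Cl K C)
    (hC₁ : Cl K C₁) : Cl K (C \ C₁) := by
  intro x hx y hxy
  rw [Finset.mem_sdiff] at hx ⊢
  exact ⟨hC x hx.1 y hxy, fun h => hx.2 (hC₁ y h x hxy.symm)⟩

end CMP

open CMP

/-- JOB CMP -/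
theorem t_CMP : S_CMP := by
  intro V K hK
  refine ⟨fun x => ?_, fun C C' x hC hC' hx hx' => ?_, fun C D hC hD h => comp_sub hC hD h,
    fun a ha C hC => ⟨fun x hx y hy h => rk_inj ha hx hy h, ?_⟩⟩
  · refine ⟨(hK x).toFinset, ⟨⟨x, ?_⟩, ?_, ?_⟩, ?_⟩
    · rw [Set.Finite.mem_toFinset]; exact SimpleGraph.Reachable.refl x
    · intro z hz y hzy
      rw [Set.Finite.mem_toFinset] at hz ⊢
      exact SimpleGraph.Reachable.trans hz hzy.reachable
    · intro z hz y hy
      rw [Set.Finite.mem_toFinset] at hz hy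
      exact (SimpleGraph.Reachable.symm hz).trans hy
    · rw [Set.Finite.mem_toFinset]; exact SimpleGraph.Reachable.refl x
  · exact Finset.Subset.antisymm (comp_sub hC hC'.2.1 ⟨x, hx, hx'⟩)
      (comp_sub hC' hC.2.1 ⟨x, hx', hx⟩)
  · obtain ⟨v, hv, h0⟩ := exists_first (a := a) hC
    exact ⟨v, ⟨hv, h0⟩, fun w hw => rk_inj ha hw.1 hv (hw.2.trans h0.symm)⟩

end Pool.Agent.Q42.UT
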