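import Pool.Agent.Q42.UT.Stm

/-!
# Project UT (helper42), MP_688e31_pr: free and wired limits agree
-/

set_option autoImplicit false

namespace Pool.Agent.Q42.UT

open MeasureTheory Set Filter Topology
open scoped ENNReal unitInterval
open Pool.Agent.TH968.UST

namespace CONV

open Pool.Agent.TH830.UST

theorem pr_congr {V : Type} (r : Setoid V) (E : Finset (Sym2 V)) (A A' : Finset (Sym2 V) → Prop)
    (h : ∀ T, T ⊆ E → (A T ↔ A' T)) : pr r E A = pr r E A' := by
  classical
  unfold pr
  congr 3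
  exact Finset.filter_congr fun T hT => h T (mem_trees.1 hT).1

theorem pr_zero {V : Type} (r : Setoid V) (E : Finset (Sym2 V)) (A : Finset (Sym2 V) → Prop)
    (h : ∀ T, T ⊆ E → ¬ A T) : pr r E A = 0 := by
  classical
  unfold pr
  rw [Finset.filter_false_of_mem fun T hT => h T (mem_trees.1 hT).1]
  simp

theorem touch_finite {V : Type} (g : SimpleGraph V) (hg : LF g) (B : Finset V) :
    (touch g B).Finite := by
  have h1 : (⋃ v ∈ B, (fun w => s(v, w)) '' {w | g.Adj v w}).Finite :=
    Set.Finite.biUnion B.finite_toSet fun v _ => (hg v).image _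
  refine h1.subset ?_
  rintro e ⟨he, v, hv, hve⟩
  obtain ⟨w, rfl⟩ := Sym2.mem_iff_exists.1 hve
  rw [Set.mem_iUnion₂]
  exact ⟨v, hv, w, he, rfl⟩

end CONV

open CONV in
theorem t_CONV : S_CONV := by
  classical
  intro hEVD hEDD hNRG hTCH V g hLF hNI hrec E B hE hEg hB hBv S A
  -- the finite edge sets
  obtain ⟨F, hF⟩ : ∃ F : ℕ → Finset (Sym2 V), ∀ n e, e ∈ F n ↔ e ∈ E n ∨ e ∈ touch g (B n) := by
    refine ⟨fun n => E n ∪ (touch_finite g hLF (B n)).toFinset, fun n e => ?_⟩
    rw [Finset.mem_union, Set.Finite.mem_toFinset]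
  have hFg : ∀ n, ∀ e ∈ F n, e ∈ g.edgeSet := by
    intro n e he
    rcases (hF n e).1 he with h | h
    · exact hE n e h
    · exact h.1
  have hFt : ∀ n, ∀ e ∈ touch g (B n), e ∈ F n := fun n e he => (hF n e).2 (Or.inr he)
  have hEF : ∀ n, E n ⊆ F n := fun n e he => (hF n e).2 (Or.inl he)
  have hT : ∀ n, ustProb (wired (B n)) (touch g (B n)) (S : Set (Sym2 V)) (A : Set (Sym2 V)) =
      pr (wired (B n)) (F n) (fun T => (T : Set (Sym2 V)) ∩ S = A) :=
    fun n => hTCH V g (B n) (F n) (hFg n) (hFt n) S A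
  simp only [hT]
  set S' := S.filter (fun e => e ∈ g.edgeSet) with hS'
  by_cases hA : A ⊆ S'
  · -- reformulation of the event
    have hev : ∀ T : Finset (Sym2 V), (∀ e ∈ T, e ∈ g.edgeSet) →
        ((T : Set (Sym2 V)) ∩ S = A ↔ ∀ e ∈ S', (e ∈ T ↔ e ∈ A)) := by
      intro T hTg
      constructor
      · intro h e he
        have heS : e ∈ S := (Finset.mem_filter.1 he).1
        constructor
        · intro heT
          have : e ∈ (T : Set (Sym2 V)) ∩ S := ⟨heT, heS⟩
          rw [h] at this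
          exact this
        · intro heA
          have : e ∈ (A : Set (Sym2 V)) := heA
          rw [← h] at this
          exact this.1
      · intro h
        ext e
        constructor
        · rintro ⟨heT, heS⟩
          exact (h e (Finset.mem_filter.2 ⟨heS, hTg e heT⟩)).1 heT
        · intro heA
          have heS' := hA heA
          exact ⟨(h e heS').2 heA, (Finset.mem_filter.1 heS').1⟩
    have h1 : ∀ n, pr ⊥ (E n) (fun T => (T : Set (Sym2 V)) ∩ S = A) =
        pr ⊥ (E n) (fun T => ∀ e ∈ S', (e ∈ T ↔ e ∈ A)) := fun n =>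
      pr_congr _ _ _ _ fun T hT => hev T fun e he => hE n e (hT he)
    have h2 : ∀ n, pr (wired (B n)) (F n) (fun T => (T : Set (Sym2 V)) ∩ S = A) =
        pr (wired (B n)) (F n) (fun T => ∀ e ∈ S', (e ∈ T ↔ e ∈ A)) := fun n =>
      pr_congr _ _ _ _ fun T hT => hev T fun e he => hFg n e (hT he)
    simp only [h1, h2]
    rw [Metric.tendsto_atTop]
    intro ε hε
    -- the single edges
    have hk : (0 : ℝ) < 2 * S'.card + 1 := by positivity
    have hE0 : ∀ e ∈ S', ∃ (E₀ : Finset (Sym2 V)) (B₀ : Finset V), (∀ f ∈ E₀, f ∈ g.edgeSet) ∧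
        ∀ (E' E₁ : Finset (Sym2 V)) (B' : Finset V), E₀ ⊆ E' → (∀ f ∈ E', f ∈ g.edgeSet) →
          B₀ ⊆ B' → (∀ f, f ∈ E₁ → f ∈ g.edgeSet) → (∀ f ∈ touch g B', f ∈ E₁) →
          pr ⊥ E' (fun T => e ∈ T) - pr (wired B') E₁ (fun T => e ∈ T) ≤
            ε / (2 * S'.card + 1) / 2 := by
      intro e he
      have heg : e ∈ g.edgeSet := (Finset.mem_filter.1 he).2
      induction e using Sym2.ind with
      | _ x y =>
        exact hEDD hNRG hNRG V g hLF hNI hrec x y heg _ (by positivity)
    choose! E₀ B₀ hE₀ hmain using hE0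
    -- large `n`
    have hEv : ∀ K : Finset (Sym2 V), (∀ e ∈ K, e ∈ g.edgeSet) → ∃ n, ∀ m, n ≤ m → K ⊆ E m := by
      intro K
      induction K using Finset.induction_on with
      | empty => exact fun _ => ⟨0, fun m _ => Finset.empty_subset _⟩
      | insert a K _ ih =>
        intro hK
        obtain ⟨n1, hn1⟩ := ih fun e he => hK e (Finset.mem_insert_of_mem he)
        obtain ⟨n2, hn2⟩ := hEg a (hK a (Finset.mem_insert_self a K))
        refine ⟨max n1 n2, fun m hm => ?_⟩
        rw [Finset.insert_subset_iff]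
        exact ⟨hn2 m ((le_max_right _ _).trans hm), hn1 m ((le_max_left _ _).trans hm)⟩
    have hBv' : ∀ K : Finset V, ∃ n, ∀ m, n ≤ m → K ⊆ B m := by
      intro K
      induction K using Finset.induction_on with
      | empty => exact ⟨0, fun m _ => Finset.empty_subset _⟩
      | insert a K _ ih =>
        obtain ⟨n1, hn1⟩ := ih
        obtain ⟨n2, hn2⟩ := hBv a
        refine ⟨max n1 n2, fun m hm => ?_⟩
        rw [Finset.insert_subset_iff]
        exact ⟨hB ((le_max_right _ _).trans hm) hn2, hn1 m ((le_max_left _ _).trans hm)⟩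
    obtain ⟨n1, hn1⟩ := hEv (S' ∪ S'.biUnion E₀) (by
      intro e he
      rcases Finset.mem_union.1 he with h | h
      · exact (Finset.mem_filter.1 h).2
      · obtain ⟨a, ha, hea⟩ := Finset.mem_biUnion.1 h
        exact hE₀ a ha e hea)
    obtain ⟨n2, hn2⟩ := hBv' (S'.biUnion B₀)
    refine ⟨max n1 n2, fun n hn => ?_⟩
    have h3 := hn1 n ((le_max_left _ _).trans hn)
    have h4 := hn2 n ((le_max_right _ _).trans hn)
    have h5 := hEVD V (wired (B n)) ⊥ bot_le (F n) (E n) S' A (hEF n)
      (Finset.union_subset_left h3) hA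
    rw [Real.dist_eq, sub_zero]
    refine lt_of_le_of_lt h5 ?_
    have h6 : ∑ e ∈ S', (pr ⊥ (E n) (fun T => e ∈ T) - pr (wired (B n)) (F n) (fun T => e ∈ T)) ≤
        ∑ _e ∈ S', ε / (2 * S'.card + 1) / 2 := by
      refine Finset.sum_le_sum fun e he => ?_
      refine hmain e he (E n) (F n) (B n) ?_ (hE n) ?_ (hFg n) (hFt n)
      · exact (Finset.subset_biUnion_of_mem E₀ he).trans (Finset.union_subset_right h3)
      · exact (Finset.subset_biUnion_of_mem B₀ he).trans h4
    rw [Finset.sum_const, nsmul_eq_mul] at h6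
    have h7 : 2 * ((S'.card : ℝ) * (ε / (2 * S'.card + 1) / 2)) < ε := by
      have h8 : 2 * ((S'.card : ℝ) * (ε / (2 * S'.card + 1) / 2)) =
          ε * (S'.card / (2 * S'.card + 1)) := by
        field_simp
      rw [h8]
      have h9 : (S'.card : ℝ) / (2 * S'.card + 1) < 1 := by
        rw [div_lt_one hk]
        have : (0 : ℝ) ≤ S'.card := by positivity
        linarith
      nlinarith
    linarith
  · -- impossible events
    have hno : ∀ T : Finset (Sym2 V), (∀ e ∈ T, e ∈ g.edgeSet) → ¬ (T : Set (Sym2 V)) ∩ S = A := by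
      intro T hTg h
      apply hA
      intro e he
      have : e ∈ (A : Set (Sym2 V)) := he
      rw [← h] at this
      exact Finset.mem_filter.2 ⟨this.2, hTg e this.1⟩
    have h1 : ∀ n, pr ⊥ (E n) (fun T => (T : Set (Sym2 V)) ∩ S = A) = 0 := fun n =>
      pr_zero _ _ _ fun T hT => hno T fun e he => hE n e (hT he)
    have h2 : ∀ n, pr (wired (B n)) (F n) (fun T => (T : Set (Sym2 V)) ∩ S = A) = 0 := fun n =>
      pr_zero _ _ _ fun T hT => hno T fun e he => hFg n e (hT he)
    simp only [h1, h2, sub_zero]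
    exact tendsto_const_nhds

end Pool.Agent.Q42.UT
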