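import Pool.Agent.Q42.UT.Stm

/-!
# Project UT (MP_688e31_pr): coupling functions exist
-/

set_option autoImplicit false

namespace Pool.Agent.Q42.UT.CPL

open MeasureTheory Set Filter Topology
open scoped ENNReal unitInterval
open Pool.Agent.TH968.UST

/-- counting in a product with `Fin n` -/
theorem card_prod_filter {β : Type} (A : Finset β) (n : ℕ) (p : β → Prop) [DecidablePred p] :
    ((Finset.univ : Finset (↥A × Fin n)).filter (fun y => p y.1.1)).card =
      (A.filter p).card * n := by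
  rw [Finset.card_filter, Fintype.sum_prod_type, Finset.card_filter]
  have h : ∀ x : ↥A, (∑ y : Fin n, if p (x, y).1.1 then 1 else 0) =
      n * (if p x.1 then 1 else 0) := by
    intro x
    by_cases h : p x.1 <;> simp [h]
  rw [Finset.sum_congr rfl fun x _ => h x,
    Finset.sum_coe_sort A (fun a => n * (if p a then 1 else 0)), ← Finset.mul_sum, mul_comm]

/-- the coupling of the two uniform measures -/
theorem coupl (E E' : Finset (Sym2 ℕ)) (hE : E' ⊆ E) :
    ∃ m : (↥(trees ⊥ E) × Fin (trees ⊥ E').card) ≃ (↥(trees ⊥ E') × Fin (trees ⊥ E).card),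
      ∀ x, x.1.1 ∩ E' ⊆ (m x).1.1 := by
  classical
  set N := (trees (⊥ : Setoid ℕ) E).card with hN
  set N' := (trees (⊥ : Setoid ℕ) E').card with hN'
  let t : (↥(trees (⊥ : Setoid ℕ) E) × Fin N') → Finset (↥(trees (⊥ : Setoid ℕ) E') × Fin N) :=
    fun x => Finset.univ.filter (fun y => x.1.1 ∩ E' ⊆ y.1.1)
  have hall : ∀ s : Finset (↥(trees (⊥ : Setoid ℕ) E) × Fin N'), s.card ≤ (s.biUnion t).card := by
    intro s
    let A : Finset (Sym2 ℕ) → Prop := fun T => ∃ x ∈ s, x.1.1 ∩ E' ⊆ T
    let g : Finset (Sym2 ℕ) → ℝ := fun T => if A T then 1 else 0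
    have hg : ∀ S T, S ⊆ T → g S ≤ g T := by
      intro S T hST
      by_cases h : A S
      · have h2 : A T := by
          obtain ⟨x, hx, hxS⟩ := h
          exact ⟨x, hx, hxS.trans hST⟩
        simp only [g, h, h2, if_true, le_refl]
      · simp only [g, h, if_false]
        split_ifs <;> norm_num
    have hdom := Pool.Agent.TH830.J74.dom
      (fun r r' hr E E' hE e he => Pool.Agent.TH830.J73.RM r r' hr E E' hE e he)
      (⊥ : Setoid ℕ) ⊥ le_rfl E E' hE g hg
    have h1 : s.card ≤ ((trees (⊥ : Setoid ℕ) E).filter (fun T => A (T ∩ E'))).card * N' := by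
      rw [← card_prod_filter]
      apply Finset.card_le_card
      intro x hx
      rw [Finset.mem_filter]
      exact ⟨Finset.mem_univ _, x, hx, Finset.Subset.refl _⟩
    have h2 : ((trees (⊥ : Setoid ℕ) E').filter A).card * N ≤ (s.biUnion t).card := by
      rw [← card_prod_filter]
      apply Finset.card_le_card
      intro y hy
      rw [Finset.mem_filter] at hy
      obtain ⟨x, hx, hxy⟩ := hy.2
      rw [Finset.mem_biUnion]
      exact ⟨x, hx, Finset.mem_filter.2 ⟨Finset.mem_univ _, hxy⟩⟩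
    have e1 : ∑ T ∈ trees (⊥ : Setoid ℕ) E, g (T ∩ E') =
        (((trees (⊥ : Setoid ℕ) E).filter (fun T => A (T ∩ E'))).card : ℝ) := by
      rw [Finset.card_filter]
      push_cast
      rfl
    have e2 : ∑ T ∈ trees (⊥ : Setoid ℕ) E', g T =
        (((trees (⊥ : Setoid ℕ) E').filter A).card : ℝ) := by
      rw [Finset.card_filter]
      push_cast
      rfl
    rw [e1, e2] at hdom
    have h3 : ((trees (⊥ : Setoid ℕ) E).filter (fun T => A (T ∩ E'))).card * N' ≤
        ((trees (⊥ : Setoid ℕ) E').filter A).card * N := by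
      exact_mod_cast hdom
    exact h1.trans (h3.trans h2)
  obtain ⟨f, hf, hft⟩ := (Finset.all_card_le_biUnion_card_iff_exists_injective t).1 hall
  have hcard : Fintype.card (↥(trees (⊥ : Setoid ℕ) E) × Fin N') =
      Fintype.card (↥(trees (⊥ : Setoid ℕ) E') × Fin N) := by
    rw [Fintype.card_prod, Fintype.card_prod, Fintype.card_fin, Fintype.card_fin,
      Fintype.card_coe, Fintype.card_coe, ← hN, ← hN', mul_comm]
  have hbij : Function.Bijective f := (Fintype.bijective_iff_injective_and_card f).2 ⟨hf, hcard⟩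
  refine ⟨Equiv.ofBijective f hbij, fun x => ?_⟩
  have h := hft x
  simp only [t, Finset.mem_filter] at h
  exact h.2

/-- the index of a number -/
noncomputable def idx (N : ℕ) (hN : 0 < N) (t : I) : Fin N :=
  ⟨min ⌊(N : ℝ) * (t : ℝ)⌋₊ (N - 1), by omega⟩

theorem idx_eq (N : ℕ) (hN : 0 < N) (k : Fin N) :
    ∃ s : Set I, {t : I | idx N hN t = k} = s ∧ MeasurableSet s ∧
      volume s = ENNReal.ofReal (1 / N) := by
  have hNr : (0 : ℝ) < N := by exact_mod_cast hN
  have hk0 : (0 : ℝ) ≤ (k : ℕ) / (N : ℝ) := by positivity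
  have hk1 : ((k : ℕ) : ℝ) / (N : ℝ) ≤ 1 := by
    rw [div_le_one hNr]; exact_mod_cast k.2.le
  have hkk0 : (0 : ℝ) ≤ ((k : ℕ) + 1) / (N : ℝ) := by positivity
  have hkk1 : (((k : ℕ) : ℝ) + 1) / (N : ℝ) ≤ 1 := by
    rw [div_le_one hNr]; exact_mod_cast k.2
  by_cases hlast : (k : ℕ) + 1 = N
  · refine ⟨Set.Ici ⟨(k : ℕ) / N, hk0, hk1⟩, ?_, measurableSet_Ici, ?_⟩
    · ext t
      simp only [Set.mem_ofPred_eq, Set.mem_Ici, idx, Fin.ext_iff]
      rw [← Subtype.coe_le_coe]
      simp only
      rw [div_le_iff₀ hNr]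
      have ht0 : (0 : ℝ) ≤ (N : ℝ) * (t : ℝ) := mul_nonneg hNr.le t.2.1
      constructor
      · intro h
        have h2 : (k : ℕ) ≤ ⌊(N : ℝ) * (t : ℝ)⌋₊ := by omega
        have h3 := (Nat.le_floor_iff ht0).1 h2
        linarith
      · intro h
        have h2 : (k : ℕ) ≤ ⌊(N : ℝ) * (t : ℝ)⌋₊ := (Nat.le_floor_iff ht0).2 (by linarith)
        omega
    · rw [unitInterval.volume_Ici]
      congr 1
      simp only
      have h2 : (N : ℝ) = (k : ℕ) + 1 := by exact_mod_cast hlast.symm
      rw [eq_div_iff hNr.ne', sub_mul, div_mul_cancel₀ _ hNr.ne']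
      linarith
  · refine ⟨Set.Ico ⟨(k : ℕ) / N, hk0, hk1⟩ ⟨((k : ℕ) + 1) / N, hkk0, hkk1⟩, ?_,
      measurableSet_Ico, ?_⟩
    · ext t
      simp only [Set.mem_ofPred_eq, Set.mem_Ico, idx, Fin.ext_iff]
      rw [← Subtype.coe_le_coe, ← Subtype.coe_lt_coe]
      simp only
      rw [div_le_iff₀ hNr, lt_div_iff₀ hNr]
      have ht0 : (0 : ℝ) ≤ (N : ℝ) * (t : ℝ) := mul_nonneg hNr.le t.2.1
      have hk2 := k.2
      constructor
      · intro h
        have h2 : (k : ℕ) = ⌊(N : ℝ) * (t : ℝ)⌋₊ := by omega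
        have h3 := (Nat.le_floor_iff ht0).1 h2.le
        have h4 := Nat.lt_floor_add_one ((N : ℝ) * (t : ℝ))
        rw [← h2] at h4
        exact ⟨by linarith, by linarith⟩
      · rintro ⟨h1, h2⟩
        have h3 : (k : ℕ) ≤ ⌊(N : ℝ) * (t : ℝ)⌋₊ := (Nat.le_floor_iff ht0).2 (by linarith)
        have h4 : ⌊(N : ℝ) * (t : ℝ)⌋₊ < (k : ℕ) + 1 := by
          rw [Nat.floor_lt ht0]
          push_cast
          linarith
        omega
    · rw [unitInterval.volume_Ico]
      congr 1
      simp only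
      field_simp
      ring

theorem idx_volume (N : ℕ) (hN : 0 < N) (k : Fin N) :
    volume {t : I | idx N hN t = k} = ENNReal.ofReal (1 / N) := by
  obtain ⟨s, hs, -, hv⟩ := idx_eq N hN k
  rw [hs, hv]

theorem idx_meas (N : ℕ) (hN : 0 < N) (k : Fin N) : MeasurableSet {t : I | idx N hN t = k} := by
  obtain ⟨s, hs, hm, -⟩ := idx_eq N hN k
  rw [hs]
  exact hm

theorem idx_measurable (N : ℕ) (hN : 0 < N) : Measurable (idx N hN) :=
  measurable_to_countable' fun k => idx_meas N hN k

theorem volume_filter (N : ℕ) (hN : 0 < N) (p : Fin N → Prop) [DecidablePred p] :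
    volume {t : I | p (idx N hN t)} =
      ((Finset.univ.filter p).card : ℝ≥0∞) * ENNReal.ofReal (1 / N) := by
  have h1 : {t : I | p (idx N hN t)} =
      ⋃ k ∈ (Finset.univ.filter p), {t : I | idx N hN t = k} := by
    ext t
    simp
  rw [h1, measure_biUnion_finset]
  · simp only [idx_volume, Finset.sum_const, nsmul_eq_mul]
  · intro a _ b _ hab
    rw [Function.onFun, Set.disjoint_left]
    intro t h1 h2
    exact hab (h1.symm.trans h2)
  · intro k _
    exact idx_meas N hN k

theorem card_pos (E : Finset (Sym2 ℕ)) : 0 < (trees (⊥ : Setoid ℕ) E).card :=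
  Finset.card_pos.2 (Pool.Agent.TH830.UST.trees_nonempty _ _)

open Classical in
/-- the coupling function -/
noncomputable def F : CF := fun E E' T' t =>
  if h : E' ⊆ E ∧ T' ∈ trees ⊥ E' then
    (((coupl E E' h.1).choose.symm (⟨T', h.2⟩, idx _ (card_pos E) t)).1.1 : Finset (Sym2 ℕ))
  else ∅

theorem F_eq {E E' T' : Finset (Sym2 ℕ)} (hE : E' ⊆ E) (hT : T' ∈ trees ⊥ E') (t : I) :
    F E E' T' t =
      (((coupl E E' hE).choose.symm (⟨T', hT⟩, idx _ (card_pos E) t)).1.1 : Finset (Sym2 ℕ)) := by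
  unfold F
  rw [dif_pos ⟨hE, hT⟩]

theorem isCpl : IsCpl F := by
  classical
  refine ⟨?_, ?_, ?_, ?_⟩
  · intro E E' T' t hE hT
    rw [F_eq hE hT]
    exact Subtype.coe_prop _
  · intro E E' T' t hE hT e he heE
    rw [F_eq hE hT] at he
    set y : ↥(trees (⊥ : Setoid ℕ) E') × Fin (trees (⊥ : Setoid ℕ) E).card :=
      (⟨T', hT⟩, idx _ (card_pos E) t) with hy
    have h := (coupl E E' hE).choose_spec ((coupl E E' hE).choose.symm y)
    rw [Equiv.apply_symm_apply] at h
    exact h (Finset.mem_inter.2 ⟨he, heE⟩)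
  · intro E E' T' T
    by_cases h : E' ⊆ E ∧ T' ∈ trees ⊥ E'
    · have h1 : {t : I | F E E' T' t = T} = (idx _ (card_pos E)) ⁻¹'
          {k | (((coupl E E' h.1).choose.symm (⟨T', h.2⟩, k)).1.1 : Finset (Sym2 ℕ)) = T} := by
        ext t
        simp only [Set.mem_ofPred_eq, Set.mem_preimage, F_eq h.1 h.2]
      rw [h1]
      exact idx_measurable _ (card_pos E) (Set.Finite.measurableSet (Set.toFinite _))
    · have h1 : {t : I | F E E' T' t = T} = {t : I | (∅ : Finset (Sym2 ℕ)) = T} := by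
        ext t
        simp only [Set.mem_ofPred_eq]
        unfold F
        rw [dif_neg h]
      rw [h1]
      exact MeasurableSet.const _
  · intro E E' hE T hT
    set N := (trees (⊥ : Setoid ℕ) E).card with hN
    set N' := (trees (⊥ : Setoid ℕ) E').card with hN'
    have hN0 : 0 < N := card_pos E
    set m := (coupl E E' hE).choose with hm
    have h1 : ∀ T' : ↥(trees (⊥ : Setoid ℕ) E'), volume {t : I | F E E' T'.1 t = T} =
        ((Finset.univ.filter (fun k : Fin N => (m.symm (T', k)).1.1 = T)).card : ℝ≥0∞) *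
          ENNReal.ofReal (1 / N) := by
      intro T'
      rw [← volume_filter N hN0 (fun k : Fin N => (m.symm (T', k)).1.1 = T)]
      congr 1
      ext t
      simp only [Set.mem_ofPred_eq, F_eq hE T'.2]
      exact Iff.rfl
    have h2 : ∑ T' ∈ trees (⊥ : Setoid ℕ) E', volume {t : I | F E E' T' t = T} =
        ∑ T' : ↥(trees (⊥ : Setoid ℕ) E'), volume {t : I | F E E' T'.1 t = T} :=
      (Finset.sum_coe_sort _ (fun T' => volume {t : I | F E E' T' t = T})).symm
    rw [h2]
    simp only [h1]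
    rw [← Finset.sum_mul]
    have h3 : ∑ T' : ↥(trees (⊥ : Setoid ℕ) E'),
        (Finset.univ.filter (fun k : Fin N => (m.symm (T', k)).1.1 = T)).card = N' := by
      have e1 : ∑ T' : ↥(trees (⊥ : Setoid ℕ) E'),
          (Finset.univ.filter (fun k : Fin N => (m.symm (T', k)).1.1 = T)).card =
          ((Finset.univ : Finset (↥(trees (⊥ : Setoid ℕ) E') × Fin N)).filter
            (fun y => (m.symm y).1.1 = T)).card := by
        rw [Finset.card_filter, Fintype.sum_prod_type]
        simp only [Finset.card_filter]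
      have e2 : ((Finset.univ : Finset (↥(trees (⊥ : Setoid ℕ) E') × Fin N)).filter
            (fun y => (m.symm y).1.1 = T)).card =
          ((Finset.univ : Finset (↥(trees (⊥ : Setoid ℕ) E) × Fin N')).filter
            (fun x => x.1.1 = T)).card := by
        apply Finset.card_bij (fun y _ => m.symm y)
        · intro y hy
          rw [Finset.mem_filter] at hy ⊢
          exact ⟨Finset.mem_univ _, hy.2⟩
        · intro y _ y' _ h
          exact m.symm.injective h
        · intro x hx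
          refine ⟨m x, ?_, m.symm_apply_apply x⟩
          rw [Finset.mem_filter] at hx ⊢
          rw [m.symm_apply_apply]
          exact ⟨Finset.mem_univ _, hx.2⟩
      rw [e1, e2, card_prod_filter (trees (⊥ : Setoid ℕ) E) N' (fun x => x = T)]
      rw [Finset.filter_eq' _ T, if_pos hT, Finset.card_singleton, one_mul]
    have h4 : ∑ T' : ↥(trees (⊥ : Setoid ℕ) E'),
        ((Finset.univ.filter (fun k : Fin N => (m.symm (T', k)).1.1 = T)).card : ℝ≥0∞) =
          (N' : ℝ≥0∞) := by
      rw [← h3]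
      push_cast
      rfl
    rw [h4, ENNReal.div_eq_inv_mul, mul_comm]
    congr 1
    rw [one_div, ENNReal.ofReal_inv_of_pos (by exact_mod_cast hN0), ENNReal.ofReal_natCast]

end Pool.Agent.Q42.UT.CPL

theorem Pool.Agent.Q42.UT.t_CPL : Pool.Agent.Q42.UT.S_CPL :=
  ⟨Pool.Agent.Q42.UT.CPL.F, Pool.Agent.Q42.UT.CPL.isCpl⟩
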