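import Pool.Agent.Q42.UT.Stm2

/-!
# Project UT (helper42), MP_688e31_pr: the choice of the numbers `Ns j`
-/

set_option autoImplicit false

namespace Pool.Agent.Q42.UT

open MeasureTheory Set Filter Topology
open scoped ENNReal unitInterval
open Pool.Agent.TH968.UST

namespace DCX

/-- the bad event of a pair -/
def bad {V Ω : Type} (G : Ω → SimpleGraph V) (N : ℕ) (x y : V) : Set (Ω × (V → I)) :=
  {q | (G q.1).Adj x y ∧
    ¬ ∃ z, Win (nu (G q.1) N x) q.2 z ∧ Win (nu (G q.1) N y) q.2 z}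

theorem meas_win {V Ω : Type} [Countable V] [MeasurableSpace Ω] (hM : S_MNU)
    {G : Ω → SimpleGraph V} (hG : Measurable G) (N : ℕ) (x z : V) :
    MeasurableSet {q : Ω × (V → I) | Win (nu (G q.1) N x) q.2 z} := by
  have hp : ∀ w, Measurable fun q : Ω × (V → I) => nu (G q.1) N x w := fun w =>
    (hM V N x w).comp (hG.comp measurable_fst)
  have hr : ∀ w, Measurable fun q : Ω × (V → I) => (nu (G q.1) N x w).toReal := fun w =>
    (hp w).ennreal_toReal
  have hU : ∀ w, Measurable fun q : Ω × (V → I) => ((q.2 w : I) : ℝ) := fun w =>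
    measurable_subtype_coe.comp ((measurable_pi_apply w).comp measurable_snd)
  have e : {q : Ω × (V → I) | Win (nu (G q.1) N x) q.2 z} =
      {q | nu (G q.1) N x z = 0}ᶜ ∩ ⋂ w : V, ⋂ _ : w ≠ z, ({q | nu (G q.1) N x w = 0} ∪
        {q | ((q.2 w : I) : ℝ) ^ (nu (G q.1) N x z).toReal <
          ((q.2 z : I) : ℝ) ^ (nu (G q.1) N x w).toReal}) := by
    ext q
    simp only [Win, mem_inter_iff, mem_compl_iff, mem_iInter, mem_union]
    rfl
  rw [e]
  refine ((hp z) (measurableSet_singleton 0)).compl.inter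
    (MeasurableSet.iInter fun w => MeasurableSet.iInter fun _ => ?_)
  exact ((hp w) (measurableSet_singleton 0)).union
    (measurableSet_lt ((hU w).pow (hr z)) ((hU z).pow (hr w)))

theorem meas_bad {V Ω : Type} [Countable V] [MeasurableSpace Ω] (hM : S_MNU)
    {G : Ω → SimpleGraph V} (hG : Measurable G) (N : ℕ) (x y : V) :
    MeasurableSet (bad G N x y) := by
  have e : bad G N x y = (fun q : Ω × (V → I) => G q.1) ⁻¹' {g | g.Adj x y} ∩
      (⋃ z : V, ({q | Win (nu (G q.1) N x) q.2 z} ∩ {q | Win (nu (G q.1) N y) q.2 z}))ᶜ := by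
    ext q
    simp only [bad, mem_inter_iff, mem_compl_iff, mem_iUnion]
    rfl
  rw [e]
  exact ((hG.comp measurable_fst) (measurableSet_adj x y)).inter
    (MeasurableSet.iUnion fun z => (meas_win hM hG N x z).inter (meas_win hM hG N y z)).compl

theorem tendsto_bad {V Ω : Type} [Countable V] [MeasurableSpace Ω] (hM : S_MNU)
    (P : Measure Ω) [IsProbabilityMeasure P] {G : Ω → SimpleGraph V} (hG : Measurable G)
    (hop : ∀ g : SimpleGraph V, LF g → NI g → Recurrent g → ∀ x y, g.Adj x y →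
      Tendsto (fun N => lu V {U | ¬ ∃ z, Win (nu g N x) U z ∧ Win (nu g N y) U z}) atTop (𝓝 0))
    (hae : ∀ᵐ ω ∂P, LF (G ω) ∧ NI (G ω) ∧ Recurrent (G ω)) (x y : V) :
    Tendsto (fun N => (P.prod (lu V)) (bad G N x y)) atTop (𝓝 0) := by
  have h1 : ∀ N, (P.prod (lu V)) (bad G N x y) =
      ∫⁻ ω, lu V (Prod.mk ω ⁻¹' bad G N x y) ∂P := fun N =>
    Measure.prod_apply (meas_bad hM hG N x y)
  simp only [h1]
  have h2 : Tendsto (fun N => ∫⁻ ω, lu V (Prod.mk ω ⁻¹' bad G N x y) ∂P) atTop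
      (𝓝 (∫⁻ _ω, (0 : ℝ≥0∞) ∂P)) := by
    refine tendsto_lintegral_of_dominated_convergence (fun _ => 1)
      (fun N => measurable_measure_prodMk_left (meas_bad hM hG N x y))
      (fun N => Eventually.of_forall fun ω => prob_le_one) (by simp) ?_
    filter_upwards [hae] with ω hω
    by_cases hadj : (G ω).Adj x y
    · have h3 := hop (G ω) hω.1 hω.2.1 hω.2.2 x y hadj
      refine h3.congr fun N => ?_
      congr 1
      ext U
      simp only [bad, mem_preimage]
      constructor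
      · intro h
        exact ⟨hadj, h⟩
      · intro h
        exact h.2
    · refine tendsto_const_nhds.congr fun N => ?_
      have h3 : Prod.mk ω ⁻¹' bad G N x y = ∅ := by
        ext U
        simp only [bad, mem_preimage, mem_empty_iff_false, iff_false]
        intro h
        exact hadj h.1
      rw [h3, measure_empty]
  rwa [lintegral_zero] at h2

end DCX

open DCX in
/-- the choice of the numbers `Ns j` -/
theorem t_DCX : S_DCX := by
  intro hOPN hRACE hRC1 hREI hHIT hGRN hNUP hMNU V Ω _ _ P _ G hG hae c hc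
  have hop : ∀ g : SimpleGraph V, LF g → NI g → Recurrent g → ∀ x y, g.Adj x y →
      Tendsto (fun N => lu V {U | ¬ ∃ z, Win (nu g N x) U z ∧ Win (nu g N y) U z}) atTop (𝓝 0) :=
    fun g h1 h2 h3 x y hxy => hOPN hRACE hRC1 hREI hHIT hGRN hNUP V g h1 h2 h3 x y hxy
  have key : ∀ j : ℕ, ∃ N : ℕ, (P.prod (lu V)) {q | ∃ x y, c x ≤ j ∧ c y ≤ j ∧ (G q.1).Adj x y ∧
      ¬ ∃ z, Win (nu (G q.1) N x) q.2 z ∧ Win (nu (G q.1) N y) q.2 z} ≤ (2 : ℝ≥0∞)⁻¹ ^ j := by
    intro j
    have hfin : {x : V | c x ≤ j}.Finite := (finite_Iic j).preimage hc.injOn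
    obtain ⟨S, hS⟩ : ∃ S : Finset V, ∀ x, x ∈ S ↔ c x ≤ j :=
      ⟨hfin.toFinset, fun x => by rw [Set.Finite.mem_toFinset]; rfl⟩
    have h1 : Tendsto (fun N => ∑ p ∈ S ×ˢ S, (P.prod (lu V)) (bad G N p.1 p.2)) atTop (𝓝 0) := by
      have h2 := tendsto_finsetSum (S ×ˢ S) fun p _ =>
        tendsto_bad hMNU P hG hop hae p.1 p.2
      simpa using h2
    have hpos : (0 : ℝ≥0∞) < (2 : ℝ≥0∞)⁻¹ ^ j := by
      refine ENNReal.pow_pos ?_ j
      simp
    obtain ⟨N, hN⟩ := (h1.eventually_lt_const hpos).exists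
    refine ⟨N, le_trans (le_trans (measure_mono ?_) (measure_biUnion_finset_le (S ×ˢ S)
      fun p => bad G N p.1 p.2)) hN.le⟩
    rintro q ⟨x, y, hx, hy, hq⟩
    rw [mem_iUnion₂]
    exact ⟨(x, y), Finset.mem_product.mpr ⟨(hS x).mpr hx, (hS y).mpr hy⟩, hq⟩
  choose Ns hNs using key
  exact ⟨Ns, hNs⟩

end Pool.Agent.Q42.UT
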