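import Pool.Agent.Q42.UT.TRT

/-! Job DEC of project UT. -/

set_option autoImplicit false

namespace Pool.Agent.Q42.UT

open MeasureTheory Set Filter Topology
open scoped ENNReal unitInterval
open Pool.Agent.TH968.UST
open CMP TRT

/-- JOB DEC -/
theorem t_DEC : S_DEC := by
  intro hCMP hTRF hTRT hP hM F hF V K hK a ha t n e he h
  have h' := h
  rw [Tr] at h'
  obtain ⟨C, hC, hed, v, hv, h0, hmap⟩ := h'
  have hin : ∀ (K' : SimpleGraph V), ∀ e ∈ ed K' C, ∀ v ∈ e, v ∈ C := fun K' e he => (mem_ed.1 he).1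
  have he' : e ∈ ed (K n) C := mem_ed.2 ⟨(mem_ed.1 hed).1, he⟩
  have ih := hTRT hCMP hTRF hP hM F hF V K hK a ha t n C (Cl.of_le (hK.mono n) hC.2.1)
  have h2 : code a C (rs (ed (K n) C) (Tr F K a t n)) ∈ trees ⊥ (code a C (ed (K n) C)) :=
    (code_tree hM ha (hin _) (rs_sub _ _)).2 ih
  have h3 := hF.sub (code a C (ed (K (n + 1)) C)) (code a C (ed (K n) C)) _ (t (v, n))
    (code_mono (ed_mono (hK.mono n) C)) h2 (Sym2.map (rk a C) e) hmap (mem_code.2 ⟨e, he', rfl⟩)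
  obtain ⟨e₀, he₀, h4⟩ := mem_code.1 h3
  rw [mem_rs] at he₀
  have h5 : e₀ = e := map_inj (fun x hx y hy h => rk_inj ha hx hy h) (hin _ _ he₀.1) (hin _ _ he') h4
  rw [← h5]
  exact he₀.2

end Pool.Agent.Q42.UT
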