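import Pool.Agent.Q42.UT.CMP

/-! Job DEP of project UT. -/

set_option autoImplicit false

namespace Pool.Agent.Q42.UT

open MeasureTheory Set Filter Topology
open scoped ENNReal unitInterval
open Pool.Agent.TH968.UST
open CMP

/-- JOB DEP -/
theorem t_DEP : S_DEP := by
  intro hCMP hTRF F hF V K hK a ha t t' n
  induction n with
  | zero =>
    intro C _ _
    rw [Tr, Tr]
  | succ n ih =>
    intro C hC htt
    ext e
    rw [mem_rs, mem_rs]
    refine and_congr_right fun he => ?_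
    have hfc := hCMP V (K (n + 1)) (hK.fin _)
    obtain ⟨x, hx⟩ : ∃ x, x ∈ e := by
      induction e with | _ x y => exact ⟨x, Sym2.mem_mk_left x y⟩
    obtain ⟨C₁, hC₁, hx₁⟩ := hfc.1 x
    have hsub : C₁ ⊆ C := hfc.2.2.1 C₁ C hC₁ hC ⟨x, hx₁, (mem_ed.1 he).1 x hx⟩
    have he₁ : e ∈ ed (K (n + 1)) C₁ := by
      rw [mem_ed] at he ⊢
      refine ⟨?_, he.2⟩
      intro v hv
      induction e with | _ p q => ?_
      have hadj : (K (n + 1)).Adj p q := he.2
      rw [Sym2.mem_iff] at hx hv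
      have hcl := hC₁.2.1
      rcases hx with rfl | rfl <;> rcases hv with rfl | rfl
      · exact hx₁
      · exact hcl _ hx₁ _ hadj
      · exact hcl _ hx₁ _ hadj.symm
      · exact hx₁
    obtain ⟨v, hv, h0⟩ := exists_first (a := a) hC₁.1
    rw [(hTRF hCMP F hF V K hK a ha t n).2 C₁ v hC₁ hv h0 e he₁,
      (hTRF hCMP F hF V K hK a ha t' n).2 C₁ v hC₁ hv h0 e he₁,
      ih C₁ (Cl.of_le (hK.mono n) hC₁.2.1) (fun w hw k hk => htt w (hsub hw) k (by omega)),
      htt v (hsub hv) n (by omega)]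

end Pool.Agent.Q42.UT
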