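import Pool.Agent.Q42.UT.Stm

/-! # EDD: free and wired probabilities of one edge of a recurrent graph (project UT) -/

set_option autoImplicit false

namespace Pool.Agent.Q42.UT

open MeasureTheory Set Filter Topology
open scoped ENNReal unitInterval
open Pool.Agent.TH968.UST

namespace EDD

theorem pr_eq {V : Type} [DecidableEq V] (r : Setoid V) (E : Finset (Sym2 V)) (x y : V) :
    pr r E (fun T => s(x, y) ∈ T) =
      (((trees r E).filter (fun T => s(x, y) ∈ T)).card : ℝ) / ((trees r E).card : ℝ) := by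
  unfold pr
  congr!

theorem K1' {V : Type} [DecidableEq V] (r : Setoid V) (E : Finset (Sym2 V)) (x y : V)
    (hxy : s(x, y) ∈ E) (φ : V → ℝ) (hφ : ∀ a b, r a b → φ a = φ b) :
    (φ x - φ y) ^ 2 ≤ pr r E (fun T => s(x, y) ∈ T) * energy E φ := by
  have h := Pool.Agent.TH830.J73.K1 r E x y hxy φ hφ
  have hN : (0 : ℝ) < ((trees r E).card : ℝ) := by
    exact_mod_cast Finset.card_pos.2 (Pool.Agent.TH830.J73.trees_nonempty r E)
  rw [pr_eq, div_mul_eq_mul_div, le_div_iff₀ hN]
  exact h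

theorem K2' {V : Type} [DecidableEq V] (r : Setoid V) (E : Finset (Sym2 V)) (x y : V)
    (hxy : s(x, y) ∈ E) (hr : ¬ r x y) :
    ∃ φ : V → ℝ, (∀ a, 0 ≤ φ a ∧ φ a ≤ 1) ∧ φ x = 1 ∧ φ y = 0 ∧
      pr r E (fun T => s(x, y) ∈ T) * energy E φ = 1 := by
  obtain ⟨φ, -, h1, h2, h3, h4⟩ := Pool.Agent.TH830.J73.K2 r E x y hxy hr
  have hN : (0 : ℝ) < ((trees r E).card : ℝ) := by
    exact_mod_cast Finset.card_pos.2 (Pool.Agent.TH830.J73.trees_nonempty r E)
  refine ⟨φ, h1, h2, h3, ?_⟩
  rw [pr_eq, div_mul_eq_mul_div, div_eq_one_iff_eq hN.ne']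
  exact h4

theorem finite_edges {V : Type} (g : SimpleGraph V) (h : LF g) (B : Finset V) :
    {e : Sym2 V | e ∈ g.edgeSet ∧ ∃ v ∈ B, v ∈ e}.Finite := by
  have h1 : {e : Sym2 V | e ∈ g.edgeSet ∧ ∃ v ∈ B, v ∈ e} ⊆
      ⋃ v ∈ B, (fun w => s(v, w)) '' {w | g.Adj v w} := by
    rintro e ⟨he, v, hv, hve⟩
    obtain ⟨w, rfl⟩ := Sym2.mem_iff_exists.1 hve
    refine mem_iUnion₂.2 ⟨v, hv, w, ?_, rfl⟩
    exact (SimpleGraph.mem_edgeSet g).1 he
  refine Set.Finite.subset ?_ h1
  exact Set.Finite.biUnion B.finite_toSet fun v _ => (h v).image _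

open Classical in
theorem energy_one {V : Type} (g : SimpleGraph V) (x : V) (hx : {w | g.Adj x w}.Finite)
    (E : Finset (Sym2 V)) (hE : ∀ e ∈ E, e ∈ g.edgeSet) :
    energy E (fun v => if v = x then 1 else 0) ≤ (hx.toFinset.card : ℝ) := by
  unfold energy
  set f : Sym2 V → ℝ := dsq (fun v => if v = x then 1 else 0) with hf
  set D : Finset (Sym2 V) := hx.toFinset.image fun w => s(x, w) with hD
  have h0 : ∀ e, 0 ≤ f e := fun e => Pool.Agent.TH830.J73.dsq_nonneg _ e
  have h1 : ∀ e, f e ≤ 1 := by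
    intro e
    induction e using Sym2.ind with
    | _ a b =>
      rw [hf, Pool.Agent.TH830.J73.dsq_mk]
      split_ifs <;> norm_num
  have h2 : ∀ e ∈ E, f e ≠ 0 → e ∈ D := by
    intro e he hfe
    induction e using Sym2.ind with
    | _ a b =>
      have hadj := (SimpleGraph.mem_edgeSet g).1 (hE _ he)
      rw [hf, Pool.Agent.TH830.J73.dsq_mk] at hfe
      by_cases ha : a = x
      · subst ha
        exact Finset.mem_image.2 ⟨b, hx.mem_toFinset.2 hadj, rfl⟩
      · by_cases hb : b = x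
        · subst hb
          exact Finset.mem_image.2 ⟨a, hx.mem_toFinset.2 hadj.symm, Sym2.eq_swap⟩
        · exact absurd (by rw [if_neg ha, if_neg hb]; ring) hfe
  calc ∑ e ∈ E, f e = ∑ e ∈ E.filter (fun e => f e ≠ 0), f e := (Finset.sum_filter_ne_zero E).symm
    _ ≤ ∑ e ∈ D, f e := by
        refine Finset.sum_le_sum_of_subset_of_nonneg ?_ fun e _ _ => h0 e
        intro e he
        obtain ⟨h3, h4⟩ := Finset.mem_filter.1 he
        exact h2 e h3 h4
    _ ≤ ∑ e ∈ D, 1 := Finset.sum_le_sum fun e _ => h1 e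
    _ = (D.card : ℝ) := by simp
    _ ≤ (hx.toFinset.card : ℝ) := by exact_mod_cast Finset.card_image_le

/-- The energy of a product. -/
theorem dsq_mul {V : Type} (φ χ : V → ℝ) (hφ : ∀ a, 0 ≤ φ a ∧ φ a ≤ 1)
    (hχ : ∀ a, 0 ≤ χ a ∧ χ a ≤ 1) (η : ℝ) (hη : 0 < η) (e : Sym2 V) :
    dsq (fun v => φ v * χ v) e ≤ (1 + η) * dsq φ e + (1 + 1 / η) * dsq χ e := by
  classical
  induction e using Sym2.ind with
  | _ a b =>
    rw [Pool.Agent.TH830.J73.dsq_mk, Pool.Agent.TH830.J73.dsq_mk, Pool.Agent.TH830.J73.dsq_mk]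
    set u := χ a * (φ a - φ b) with hu
    set w := φ b * (χ a - χ b) with hw
    have e1 : φ a * χ a - φ b * χ b = u + w := by rw [hu, hw]; ring
    have e2 : (u + w) ^ 2 ≤ (1 + η) * u ^ 2 + (1 + 1 / η) * w ^ 2 := by
      have h1 : 0 ≤ (η * u - w) ^ 2 / η := div_nonneg (sq_nonneg _) hη.le
      have h2 : (1 + η) * u ^ 2 + (1 + 1 / η) * w ^ 2 - (u + w) ^ 2 = (η * u - w) ^ 2 / η := by
        field_simp
        ring
      linarith
    have e3 : u ^ 2 ≤ (φ a - φ b) ^ 2 := by
      rw [hu, mul_pow]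
      have : (χ a) ^ 2 ≤ 1 := pow_le_one₀ (hχ a).1 (hχ a).2
      nlinarith [sq_nonneg (φ a - φ b)]
    have e4 : w ^ 2 ≤ (χ a - χ b) ^ 2 := by
      rw [hw, mul_pow]
      have : (φ b) ^ 2 ≤ 1 := pow_le_one₀ (hφ b).1 (hφ b).2
      nlinarith [sq_nonneg (χ a - χ b)]
    have h5 : 0 < 1 / η := by positivity
    rw [e1]
    calc (u + w) ^ 2 ≤ (1 + η) * u ^ 2 + (1 + 1 / η) * w ^ 2 := e2
      _ ≤ (1 + η) * (φ a - φ b) ^ 2 + (1 + 1 / η) * (χ a - χ b) ^ 2 :=
        add_le_add (mul_le_mul_of_nonneg_left e3 (by linarith))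
          (mul_le_mul_of_nonneg_left e4 (by linarith))

end EDD

open Classical in
theorem t_EDD : S_EDD := by
  intro hNRG V g hLF hNI hRec x y hxy ε hε
  have hx := hLF x
  set d : ℝ := (hx.toFinset.card : ℝ) with hd
  have hd0 : 0 ≤ d := Nat.cast_nonneg _
  set η : ℝ := min 1 (ε / (d + 2)) with hη
  have hη0 : 0 < η := lt_min one_pos (by positivity)
  have hη1 : η ≤ 1 := min_le_left _ _
  have hη2 : η * (d + 2) ≤ ε := by
    have : η ≤ ε / (d + 2) := min_le_right _ _
    rwa [le_div_iff₀ (by positivity)] at this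
  obtain ⟨χ, hχf, hχ, hχx, hχE⟩ := hNRG V g hLF hNI hRec x (η ^ 2) (by positivity)
  set B₀ : Finset V := hχf.toFinset with hB₀
  have hmB : ∀ v, v ∈ B₀ ↔ χ v ≠ 0 := fun v => hχf.mem_toFinset
  have hxB : x ∈ B₀ := (hmB x).2 (by rw [hχx]; exact one_ne_zero)
  set E₀ : Finset (Sym2 V) := (EDD.finite_edges g hLF B₀).toFinset with hE₀
  have hmE : ∀ e, e ∈ E₀ ↔ e ∈ g.edgeSet ∧ ∃ v ∈ B₀, v ∈ e := fun e =>
    (EDD.finite_edges g hLF B₀).mem_toFinset
  refine ⟨E₀, B₀, fun e he => ((hmE e).1 he).1, ?_⟩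
  intro E E₁ B hE₀E hEg hB hE₁g hE₁t
  have hne : x ≠ y := hxy.ne
  have hxyg : s(x, y) ∈ g.edgeSet := (SimpleGraph.mem_edgeSet g).2 hxy
  have hxyE : s(x, y) ∈ E := hE₀E ((hmE _).2 ⟨hxyg, x, hxB, Sym2.mem_mk_left x y⟩)
  have hxyE₁ : s(x, y) ∈ E₁ := hE₁t _ ⟨hxyg, x, hB hxB, Sym2.mem_mk_left x y⟩
  obtain ⟨φ, hφ, hφx, hφy, hφ1⟩ := EDD.K2' (⊥ : Setoid V) E x y hxyE (fun h => hne h)
  set Pf := pr ⊥ E (fun T => s(x, y) ∈ T) with hPf
  set Pw := pr (wired B) E₁ (fun T => s(x, y) ∈ T) with hPw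
  set a := energy E φ with ha
  set b := energy E₁ (fun v => φ v * χ v) with hb
  -- lower bound for `a`
  have ha1 : 1 ≤ a := by
    have h1 : dsq φ s(x, y) ≤ a :=
      Finset.single_le_sum (f := dsq φ) (fun e _ => Pool.Agent.TH830.J73.dsq_nonneg φ e) hxyE
    rw [Pool.Agent.TH830.J73.dsq_mk, hφx, hφy] at h1
    linarith
  have hPf0 : 0 < Pf := by
    by_contra h
    push Not at h
    have : Pf * a ≤ 0 := mul_nonpos_of_nonpos_of_nonneg h (by linarith)
    linarith
  -- upper bound for `a`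
  have had : a ≤ d := by
    have h1 := EDD.K1' (⊥ : Setoid V) E x y hxyE (fun v => if v = x then (1 : ℝ) else 0)
      (fun a b (h : a = b) => by rw [h])
    rw [if_pos rfl, if_neg hne.symm] at h1
    have h2 := EDD.energy_one g x hx E hEg
    have h3 : Pf * a ≤ Pf * d := by
      rw [hφ1]
      refine le_trans (by norm_num) (h1.trans ?_)
      exact mul_le_mul_of_nonneg_left h2 hPf0.le
    exact le_of_mul_le_mul_left h3 hPf0
  -- the wired lower bound
  have hw1 : 1 ≤ Pw * b := by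
    have h1 := EDD.K1' (wired B) E₁ x y hxyE₁ (fun v => φ v * χ v) (by
      intro u v h
      rcases h with h | ⟨h1, h2⟩
      · rw [h]
      · have e1 : χ u = 0 := by
          by_contra h
          exact h1 (hB ((hmB u).2 h))
        have e2 : χ v = 0 := by
          by_contra h
          exact h2 (hB ((hmB v).2 h))
        show φ u * χ u = φ v * χ v
        rw [e1, e2, mul_zero, mul_zero])
    simp only [hφx, hχx, hφy] at h1
    linarith
  -- the energy of the product
  have hbE : b ≤ (1 + η) * a + (η ^ 2 + η) := by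
    have h1 : b ≤ ∑ e ∈ E, dsq (fun v => φ v * χ v) e := by
      rw [hb]
      unfold energy
      calc ∑ e ∈ E₁, dsq (fun v => φ v * χ v) e
          = ∑ e ∈ E₁.filter (fun e => dsq (fun v => φ v * χ v) e ≠ 0),
              dsq (fun v => φ v * χ v) e := (Finset.sum_filter_ne_zero E₁).symm
        _ ≤ ∑ e ∈ E, dsq (fun v => φ v * χ v) e := by
            refine Finset.sum_le_sum_of_subset_of_nonneg ?_
              fun e _ _ => Pool.Agent.TH830.J73.dsq_nonneg _ e
            intro e he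
            obtain ⟨h3, h4⟩ := Finset.mem_filter.1 he
            refine hE₀E ((hmE e).2 ⟨hE₁g e h3, ?_⟩)
            by_contra hno
            push Not at hno
            apply h4
            induction e using Sym2.ind with
            | _ u v =>
              have e1 : χ u = 0 := by
                by_contra h
                exact hno u ((hmB u).2 h) (Sym2.mem_mk_left u v)
              have e2 : χ v = 0 := by
                by_contra h
                exact hno v ((hmB v).2 h) (Sym2.mem_mk_right u v)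
              rw [Pool.Agent.TH830.J73.dsq_mk, e1, e2]
              ring
    refine h1.trans ?_
    calc ∑ e ∈ E, dsq (fun v => φ v * χ v) e
        ≤ ∑ e ∈ E, ((1 + η) * dsq φ e + (1 + 1 / η) * dsq χ e) :=
          Finset.sum_le_sum fun e _ => EDD.dsq_mul φ χ hφ hχ η hη0 e
      _ = (1 + η) * a + (1 + 1 / η) * energy E χ := by
          rw [Finset.sum_add_distrib, ← Finset.mul_sum, ← Finset.mul_sum]
          rfl
      _ ≤ (1 + η) * a + (1 + 1 / η) * η ^ 2 := by
          have := hχE E hEg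
          have h5 : 0 < 1 + 1 / η := by positivity
          have := mul_le_mul_of_nonneg_left this h5.le
          linarith
      _ = (1 + η) * a + (η ^ 2 + η) := by
          field_simp
  have hb0 : 0 < b := by
    have hb' : 0 ≤ b := Pool.Agent.TH830.J73.energy_nonneg _ _
    rcases hb'.lt_or_eq with h | h
    · exact h
    · rw [← h, mul_zero] at hw1
      linarith
  have hPw1 : 1 / b ≤ Pw := by
    rw [div_le_iff₀ hb0]
    exact hw1
  have hPf1 : Pf = 1 / a := by
    rw [eq_div_iff (by linarith : a ≠ 0)]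
    exact hφ1
  have ha0 : 0 < a := by linarith
  rw [hPf1]
  -- final estimate
  have hkey : 1 / a - 1 / b ≤ ε := by
    rcases le_total a b with hab | hab
    · have h1 : 1 / a - 1 / b = (b - a) / (a * b) := by
        field_simp
      have h2 : 1 ≤ a * b := by nlinarith
      have h3 : b - a ≤ ε := by nlinarith
      rw [h1]
      calc (b - a) / (a * b) ≤ (b - a) / 1 :=
            div_le_div_of_nonneg_left (by linarith) one_pos h2
        _ = b - a := div_one _
        _ ≤ ε := h3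
    · have h1 : 1 / a ≤ 1 / b := one_div_le_one_div_of_le hb0 hab
      linarith
  linarith

end Pool.Agent.Q42.UT
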