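import Pool.Agent.Q42.UT.Stm

set_option autoImplicit false

namespace Pool.Agent.Q42.UT

open MeasureTheory Set Filter Topology
open scoped ENNReal unitInterval
open Pool.Agent.TH968.UST

namespace EPH

variable {V : Type}

theorem tw_eq (hIW : S_IW) (Ns : ℕ → ℕ) (s : Equiv.Perm V) (g : SimpleGraph V) (r : V × ℕ → I)
    (n : ℕ) :
    tw Ns (g.comap s) (fun p => r (s p.1, p.2)) n = (tw Ns g r n).comap s := by
  cases n with
  | zero =>
    ext x y
    simp [tw]
  | succ n =>
    ext x y
    change (g.Adj (s x) (s y) ∧ ∀ j, n ≤ j → ∃ z, WinJ Ns (g.comap s) (fun p => r (s p.1, p.2)) j x z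
        ∧ WinJ Ns (g.comap s) (fun p => r (s p.1, p.2)) j y z) ↔
      (g.Adj (s x) (s y) ∧ ∀ j, n ≤ j → ∃ z, WinJ Ns g r j (s x) z ∧ WinJ Ns g r j (s y) z)
    refine and_congr_right fun _ => forall₂_congr fun j _ => ?_
    constructor
    · rintro ⟨z, h1, h2⟩
      exact ⟨s z, (hIW V Ns s g r j x z).1 h1, (hIW V Ns s g r j y z).1 h2⟩
    · rintro ⟨z, h1, h2⟩
      refine ⟨s.symm z, (hIW V Ns s g r j x _).2 ?_, (hIW V Ns s g r j y _).2 ?_⟩
      · rwa [Equiv.apply_symm_apply]
      · rwa [Equiv.apply_symm_apply]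

/-- the image of a finite set -/
def M (s : Equiv.Perm V) (C : Finset V) : Finset V := C.map s.toEmbedding

theorem mem_M (s : Equiv.Perm V) (C : Finset V) (x : V) : s x ∈ M s C ↔ x ∈ C := by
  unfold M
  rw [Finset.mem_map_equiv, Equiv.symm_apply_apply]

theorem mem_M' (s : Equiv.Perm V) (C : Finset V) (x : V) : x ∈ M s C ↔ s.symm x ∈ C := by
  unfold M
  rw [Finset.mem_map_equiv]

theorem M_surj (s : Equiv.Perm V) (C : Finset V) : ∃ C', M s C' = C := by
  refine ⟨C.map s.symm.toEmbedding, ?_⟩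
  ext x
  rw [mem_M', Finset.mem_map_equiv]
  simp

theorem isComp_M (s : Equiv.Perm V) (K : SimpleGraph V) (C : Finset V) :
    IsComp (K.comap s) C ↔ IsComp K (M s C) := by
  unfold IsComp Cl
  have hr : ∀ x y, (K.comap s).Reachable x y ↔ K.Reachable (s x) (s y) := by
    intro x y
    exact ((SimpleGraph.Iso.comap s K).reachable_iff (u := x) (v := y)).symm
  have hn : C.Nonempty ↔ (M s C).Nonempty := by
    unfold M
    rw [Finset.map_nonempty]
  rw [hn]
  refine and_congr_right fun _ => and_congr ?_ ?_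
  · constructor
    · intro h x hx y hxy
      rw [mem_M'] at hx ⊢
      apply h _ hx
      change K.Adj (s (s.symm x)) (s (s.symm y))
      rwa [Equiv.apply_symm_apply, Equiv.apply_symm_apply]
    · intro h x hx y hxy
      exact (mem_M s C y).1 (h (s x) ((mem_M s C x).2 hx) (s y) hxy)
  · constructor
    · intro h x hx y hy
      rw [mem_M'] at hx hy
      have := (hr _ _).1 (h _ hx _ hy)
      rwa [Equiv.apply_symm_apply, Equiv.apply_symm_apply] at this
    · intro h x hx y hy
      exact (hr x y).2 (h _ ((mem_M s C x).2 hx) _ ((mem_M s C y).2 hy))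

theorem mem_ed (K : SimpleGraph V) (C : Finset V) (x y : V) :
    s(x, y) ∈ ed K C ↔ (x ∈ C ∧ y ∈ C) ∧ K.Adj x y := by
  classical
  unfold ed
  rw [Finset.mem_filter, Finset.mk_mem_sym2_iff, SimpleGraph.mem_edgeSet]

theorem ed_M (s : Equiv.Perm V) (K : SimpleGraph V) (C : Finset V) (e : Sym2 V) :
    e ∈ ed (K.comap s) C ↔ Sym2.map s e ∈ ed K (M s C) := by
  induction e using Sym2.ind with
  | _ x y =>
    rw [Sym2.map_mk, mem_ed, mem_ed, mem_M, mem_M]
    rfl

theorem rk_M (s : Equiv.Perm V) (a : V → I) (C : Finset V) (v : V) :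
    rk (fun v => a (s v)) C v = rk a (M s C) (s v) := by
  classical
  unfold rk M
  rw [Finset.filter_map, Finset.card_map]
  rfl

theorem map_rk (s : Equiv.Perm V) (a : V → I) (C : Finset V) (e : Sym2 V) :
    Sym2.map (rk (fun v => a (s v)) C) e = Sym2.map (rk a (M s C)) (Sym2.map s e) := by
  rw [Sym2.map_map]
  congr 1
  funext v
  exact rk_M s a C v

open Classical in
theorem code_M (s : Equiv.Perm V) (a : V → I) (C : Finset V) (S : Finset (Sym2 V))
    (S' : Finset (Sym2 V)) (h : ∀ e, e ∈ S ↔ Sym2.map s e ∈ S') :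
    code (fun v => a (s v)) C S = code a (M s C) S' := by
  unfold code
  ext x
  rw [Finset.mem_image, Finset.mem_image]
  constructor
  · rintro ⟨e, he, rfl⟩
    exact ⟨Sym2.map s e, (h e).1 he, (map_rk s a C e).symm⟩
  · rintro ⟨e, he, rfl⟩
    have e1 : Sym2.map s (Sym2.map s.symm e) = e := by
      rw [Sym2.map_map]
      simp
    refine ⟨Sym2.map s.symm e, (h _).2 (by rwa [e1]), ?_⟩
    rw [map_rk, e1]

theorem Tr_eq (F : CF) (s : Equiv.Perm V) (K : ℕ → SimpleGraph V) (a : V → I) (t : V × ℕ → I)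
    (n : ℕ) : ∀ e : Sym2 V,
    (e ∈ Tr F (fun n => (K n).comap s) (fun v => a (s v)) (fun p => t (s p.1, p.2)) n ↔
      Sym2.map s e ∈ Tr F K a t n) := by
  classical
  induction n with
  | zero =>
    intro e
    simp [Tr]
  | succ n ih =>
    intro e
    have key : ∀ (C : Finset V) (v : V),
        (F (code (fun v => a (s v)) C (ed ((K (n + 1)).comap s) C))
          (code (fun v => a (s v)) C (ed ((K n).comap s) C))
          (code (fun v => a (s v)) C ((ed ((K n).comap s) C).filter (fun e' =>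
            e' ∈ Tr F (fun n => (K n).comap s) (fun v => a (s v)) (fun p => t (s p.1, p.2)) n)))
          (t (s v, n))) =
        (F (code a (M s C) (ed (K (n + 1)) (M s C))) (code a (M s C) (ed (K n) (M s C)))
          (code a (M s C) ((ed (K n) (M s C)).filter (fun e' => e' ∈ Tr F K a t n))) (t (s v, n))) := by
      intro C v
      rw [code_M s a C _ _ (ed_M s (K (n + 1)) C), code_M s a C _ _ (ed_M s (K n) C)]
      rw [code_M s a C _ ((ed (K n) (M s C)).filter (fun e' => e' ∈ Tr F K a t n))]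
      intro e'
      rw [Finset.mem_filter, Finset.mem_filter, ed_M, ih e']
    rw [Tr, Tr]
    constructor
    · rintro ⟨C, h1, h2, v, hv, hv0, h3⟩
      refine ⟨M s C, (isComp_M s _ C).1 h1, (ed_M s _ C e).1 h2, s v, (mem_M s C v).2 hv, ?_, ?_⟩
      · rw [← rk_M]
        exact hv0
      · rw [map_rk] at h3
        have := key C v
        rw [← this]
        exact h3
    · rintro ⟨C0, h1, h2, v0, hv, hv0, h3⟩
      obtain ⟨C, rfl⟩ := M_surj s C0
      obtain ⟨v, rfl⟩ := s.surjective v0
      refine ⟨C, (isComp_M s _ C).2 h1, (ed_M s _ C e).2 h2, v, (mem_M s C v).1 hv, ?_, ?_⟩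
      · rw [rk_M]
        exact hv0
      · rw [map_rk]
        have := key C v
        rw [← this] at h3
        exact h3

end EPH

open EPH in
theorem t_EPH : S_EPH := by
  intro hIW F V Ns s g a r t e
  have h1 : tw Ns (g.comap s) (fun p => r (s p.1, p.2)) = fun n => (tw Ns g r n).comap s := by
    funext n
    exact tw_eq hIW Ns s g r n
  rw [h1]
  unfold Tinf
  constructor
  · rintro ⟨n, hn⟩
    exact ⟨n, fun m hm => (Tr_eq F s _ a t m e).1 (hn m hm)⟩
  · rintro ⟨n, hn⟩
    exact ⟨n, fun m hm => (Tr_eq F s _ a t m e).2 (hn m hm)⟩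

end Pool.Agent.Q42.UT
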