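import Pool.Agent.Q42.UT.Stm

/-!
# Project UT (MP_688e31_pr), job EVD

Events of several edges are controlled by the single edges.
-/

set_option autoImplicit false

namespace Pool.Agent.Q42.UT

open MeasureTheory Set Filter Topology
open scoped ENNReal unitInterval
open Pool.Agent.TH968.UST

namespace EVD

open Classical in
/-- Averages over the trees. -/
noncomputable def av {V : Type} (r : Setoid V) (E : Finset (Sym2 V))
    (h : Finset (Sym2 V) → ℝ) : ℝ :=
  (∑ T ∈ trees r E, h T) / ((trees r E).card : ℝ)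

theorem card_pos' {V : Type} (r : Setoid V) (E : Finset (Sym2 V)) :
    (0 : ℝ) < ((trees r E).card : ℝ) := by
  classical
  exact_mod_cast Finset.card_pos.2 (Pool.Agent.TH830.UST.trees_nonempty r E)

theorem pr_eq {V : Type} (r : Setoid V) (E : Finset (Sym2 V)) (A : Finset (Sym2 V) → Prop)
    [DecidablePred A] : pr r E A = av r E (fun T => if A T then 1 else 0) := by
  unfold pr av
  congr 1
  rw [Finset.sum_boole]
  congr!

theorem av_add {V : Type} (r : Setoid V) (E : Finset (Sym2 V)) (f g : Finset (Sym2 V) → ℝ) :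
    av r E (fun T => f T + g T) = av r E f + av r E g := by
  unfold av
  rw [Finset.sum_add_distrib, add_div]

theorem av_sub {V : Type} (r : Setoid V) (E : Finset (Sym2 V)) (f g : Finset (Sym2 V) → ℝ) :
    av r E (fun T => f T - g T) = av r E f - av r E g := by
  unfold av
  rw [Finset.sum_sub_distrib, sub_div]

theorem av_sum {V ι : Type} (r : Setoid V) (E : Finset (Sym2 V)) (S : Finset ι)
    (f : ι → Finset (Sym2 V) → ℝ) :
    av r E (fun T => ∑ i ∈ S, f i T) = ∑ i ∈ S, av r E (f i) := by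
  unfold av
  rw [Finset.sum_comm, Finset.sum_div]

theorem dom {V : Type} [DecidableEq V] (r r' : Setoid V) (hr : r' ≤ r) (E E' S : Finset (Sym2 V))
    (hE : E' ⊆ E) (hS : S ⊆ E') (g : Finset (Sym2 V) → ℝ) (hg : ∀ S T, S ⊆ T → g S ≤ g T) :
    av r E (fun T => g (T ∩ S)) ≤ av r' E' (fun T => g (T ∩ S)) := by
  have h := Pool.Agent.TH830.J74.dom
    (fun r r' hr E E' hE e he => Pool.Agent.TH830.J73.RM r r' hr E E' hE e he) r r' hr E E' hE
    (fun T => g (T ∩ S)) (fun A B hAB => hg _ _ (Finset.inter_subset_inter_right hAB))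
  have h2 : ∀ T : Finset (Sym2 V), T ∩ E' ∩ S = T ∩ S := by
    intro T
    rw [Finset.inter_assoc, Finset.inter_eq_right.2 hS]
  simp only [h2] at h
  unfold av
  rw [div_le_div_iff₀ (card_pos' r E) (card_pos' r' E')]
  exact h

theorem main {V : Type} [DecidableEq V] (r r' : Setoid V) (hr : r' ≤ r)
    (E E' S : Finset (Sym2 V)) (hE : E' ⊆ E) (hS : S ⊆ E') (g : Finset (Sym2 V) → ℝ)
    (hg : ∀ S T, S ⊆ T → g S ≤ g T) (h0 : ∀ T, 0 ≤ g T) (h1 : ∀ T, g T ≤ 1) :
    0 ≤ av r' E' (fun T => g (T ∩ S)) - av r E (fun T => g (T ∩ S)) ∧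
    av r' E' (fun T => g (T ∩ S)) - av r E (fun T => g (T ∩ S)) ≤
      ∑ e ∈ S, (pr r' E' (fun T => e ∈ T) - pr r E (fun T => e ∈ T)) := by
  refine ⟨sub_nonneg.2 (dom r r' hr E E' S hE hS g hg), ?_⟩
  have h2 := dom r r' hr E E' S hE hS (fun U => (U.card : ℝ) - g U) (by
    intro A B hAB
    rcases eq_or_ne A B with h | h
    · rw [h]
    · have h3 : A.card < B.card := Finset.card_lt_card (Finset.ssubset_iff_subset_ne.2 ⟨hAB, h⟩)
      have h4 : (A.card : ℝ) + 1 ≤ B.card := by exact_mod_cast h3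
      have h5 := h0 A
      have h6 := h1 B
      show (A.card : ℝ) - g A ≤ (B.card : ℝ) - g B
      linarith)
  have h3 : ∀ (r : Setoid V) (E : Finset (Sym2 V)),
      av r E (fun T => ((T ∩ S).card : ℝ) - g (T ∩ S)) =
      ∑ e ∈ S, pr r E (fun T => e ∈ T) - av r E (fun T => g (T ∩ S)) := by
    intro r E
    rw [av_sub]
    congr 1
    have h4 : ∀ T : Finset (Sym2 V), ((T ∩ S).card : ℝ) = ∑ e ∈ S, if e ∈ T then 1 else 0 := by
      intro T
      rw [Finset.sum_boole, Finset.inter_comm]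
      congr 2
    simp only [h4]
    rw [av_sum]
    refine Finset.sum_congr rfl fun e _ => ?_
    rw [pr_eq]
  simp only [h3] at h2
  rw [Finset.sum_sub_distrib]
  linarith

end EVD

theorem t_EVD : S_EVD := by
  intro V r r' hr E E' S A hE hS hA
  classical
  have hm1 := EVD.main r r' hr E E' S hE hS (fun U => if A ⊆ U then 1 else 0) (by
    intro X Y hXY
    show (if A ⊆ X then (1 : ℝ) else 0) ≤ if A ⊆ Y then 1 else 0
    by_cases h : A ⊆ X
    · rw [if_pos h, if_pos (h.trans hXY)]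
    · rw [if_neg h]; split_ifs <;> norm_num) (by
    intro T; show (0 : ℝ) ≤ if A ⊆ T then 1 else 0; split_ifs <;> norm_num) (by
    intro T; show (if A ⊆ T then (1 : ℝ) else 0) ≤ 1; split_ifs <;> norm_num)
  have hm2 := EVD.main r r' hr E E' S hE hS (fun U => if A ⊆ U ∧ U ≠ A then 1 else 0) (by
    intro X Y hXY
    show (if A ⊆ X ∧ X ≠ A then (1 : ℝ) else 0) ≤ if A ⊆ Y ∧ Y ≠ A then 1 else 0
    by_cases h : A ⊆ X ∧ X ≠ A
    · have h2 : A ⊆ Y ∧ Y ≠ A := by
        refine ⟨h.1.trans hXY, fun h3 => h.2 ?_⟩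
        subst h3
        exact Finset.Subset.antisymm hXY h.1
      rw [if_pos h, if_pos h2]
    · rw [if_neg h]; split_ifs <;> norm_num) (by
    intro T; show (0 : ℝ) ≤ if A ⊆ T ∧ T ≠ A then 1 else 0; split_ifs <;> norm_num) (by
    intro T; show (if A ⊆ T ∧ T ≠ A then (1 : ℝ) else 0) ≤ 1; split_ifs <;> norm_num)
  have key : ∀ (r : Setoid V) (E : Finset (Sym2 V)),
      pr r E (fun T => ∀ e ∈ S, (e ∈ T ↔ e ∈ A)) =
      EVD.av r E (fun T => if A ⊆ T ∩ S then (1 : ℝ) else 0) -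
        EVD.av r E (fun T => if A ⊆ T ∩ S ∧ T ∩ S ≠ A then (1 : ℝ) else 0) := by
    intro r E
    rw [← EVD.av_sub, EVD.pr_eq]
    congr 1
    funext T
    have h1 : (∀ e ∈ S, (e ∈ T ↔ e ∈ A)) ↔ T ∩ S = A := by
      constructor
      · intro h
        ext e
        rw [Finset.mem_inter]
        constructor
        · rintro ⟨h1, h2⟩
          exact (h e h2).1 h1
        · intro h1
          exact ⟨(h e (hA h1)).2 h1, hA h1⟩
      · intro h e he
        rw [← h, Finset.mem_inter]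
        exact ⟨fun h1 => ⟨h1, he⟩, fun h1 => h1.1⟩
    by_cases h2 : T ∩ S = A
    · rw [if_pos (h1.2 h2), if_pos h2.symm.subset, if_neg (fun h => h.2 h2)]
      norm_num
    · rw [if_neg (fun h => h2 (h1.1 h))]
      by_cases h3 : A ⊆ T ∩ S
      · rw [if_pos h3, if_pos ⟨h3, h2⟩]; norm_num
      · rw [if_neg h3, if_neg (fun h => h3 h.1)]; norm_num
  rw [key r' E', key r E]
  set s := ∑ e ∈ S, (pr r' E' (fun T => e ∈ T) - pr r E (fun T => e ∈ T))
  rw [abs_le]
  constructor <;> linarith [hm1.1, hm1.2, hm2.1, hm2.2]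

end Pool.Agent.Q42.UT
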