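import Pool.Agent.Q42.UT.Stm2

/-!
Job UT-FCX (project UT of helper42): finite clusters for a fixed graph.
-/

set_option autoImplicit false

namespace Pool.Agent.Q42.UT

open MeasureTheory Set Filter Topology
open scoped ENNReal unitInterval
open Pool.Agent.TH968.UST

namespace FCX

lemma mp_slice (V : Type) (j : ℕ) :
    MeasurePreserving (fun (r : V × ℕ → I) (v : V) => r (v, j)) (lu (V × ℕ)) (lu V) := by
  classical
  have hm : Measurable (fun (r : V × ℕ → I) (v : V) => r (v, j)) :=
    measurable_pi_iff.2 fun v => measurable_pi_apply _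
  refine ⟨hm, Measure.eq_infinitePi _ fun s t ht => ?_⟩
  rw [Measure.map_apply hm (MeasurableSet.pi s.countable_toSet fun i _ => ht i)]
  have h1 : (fun (r : V × ℕ → I) (v : V) => r (v, j)) ⁻¹' (Set.pi s t) =
      Set.pi ((s.map ⟨fun v => (v, j), fun a b h => (Prod.mk.inj h).1⟩ : Finset (V × ℕ)) :
        Set (V × ℕ)) (fun p => t p.1) := by
    ext r
    simp [Set.mem_pi] <;> exact Iff.rfl
  rw [h1, Measure.infinitePi_pi _ (fun i _ => ht i.1)]
  rw [Finset.prod_map]
  rfl

end FCX

theorem t_FCX : S_FCX := by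
  intro hW hR hV hN V _ g hL hI Ns
  rw [ae_all_iff]
  intro j
  rw [ae_all_iff]
  intro z
  rcases Nat.eq_zero_or_pos (Ns j) with h0 | hpos
  · refine Filter.Eventually.of_forall fun r => ?_
    have h1 : {x | WinJ Ns g r j x z} = ∅ := by
      ext x
      simp only [Set.mem_ofPred_eq, Set.mem_empty_iff_false, iff_false]
      intro h
      apply h.1
      simp [nu, h0]
    rw [h1]
    exact Set.finite_empty
  · have hle : ∀ x, lu (V × ℕ) {r | WinJ Ns g r j x z} ≤ nu g (Ns j) x z := by
      intro x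
      obtain ⟨h1, h2⟩ := hN V g hL hI (Ns j) x hpos
      refine le_trans ?_ (hW hR V (nu g (Ns j) x) h2 h1 z)
      have h3 := FCX.mp_slice V j
      have h4 := Measure.le_map_apply (μ := lu (V × ℕ)) h3.measurable.aemeasurable
        {U : V → I | Win (nu g (Ns j) x) U z}
      rw [h3.map_eq] at h4
      exact h4
    have hsum : ∑' x, lu (V × ℕ) {r | WinJ Ns g r j x z} ≠ ∞ :=
      ne_top_of_le_ne_top (hV V g hL hI (Ns j) z) (ENNReal.tsum_le_tsum hle)
    exact ae_finite_setOfPred_mem hsum

end Pool.Agent.Q42.UT
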