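import Pool.Agent.Q42.UT.RwBas

/-!
# Project UT (MP_688e31_pr), job GRN (helper198)
-/

set_option autoImplicit false

namespace Pool.Agent.Q42.UT

open MeasureTheory Set Filter Topology
open scoped ENNReal unitInterval
open Pool.Agent.TH968.UST

namespace GRN

variable {V : Type} {g : SimpleGraph V}

lemma sub_add_le (a b c d : ℝ≥0∞) : (a + b) - (c + d) ≤ (a - c) + (b - d) := by
  rw [tsub_le_iff_right]
  calc a + b ≤ (a - c + c) + (b - d + d) := add_le_add le_tsub_add le_tsub_add
    _ = (a - c) + (b - d) + (c + d) := by ring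

lemma d1_add (p q r s : V → ℝ≥0∞) :
    d1 (fun z => p z + q z) (fun z => r z + s z) ≤ d1 p r + d1 q s := by
  unfold d1
  rw [← ENNReal.tsum_add]
  refine ENNReal.tsum_le_tsum fun z => ?_
  refine (add_le_add (sub_add_le _ _ _ _) (sub_add_le _ _ _ _)).trans (le_of_eq ?_)
  ring

lemma d1_le (p q : V → ℝ≥0∞) : d1 p q ≤ ∑' z, p z + ∑' z, q z := by
  unfold d1
  rw [← ENNReal.tsum_add]
  exact ENNReal.tsum_le_tsum fun z => add_le_add tsub_le_self tsub_le_self

lemma d1_self (p : V → ℝ≥0∞) : d1 p p = 0 := by
  unfold d1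
  simp

/-- the distance to an average is at most the average distance -/
lemma d1_avg (h : LF g) (hn : NI g) (v : V) (p : V → ℝ≥0∞) (f : V → V → ℝ≥0∞) :
    d1 p (fun z => avg g (fun w => f w z) v) ≤ avg g (fun w => d1 p (f w)) v := by
  unfold d1
  rw [← RwBas.tsum_avg]
  refine ENNReal.tsum_le_tsum fun z => ?_
  rw [RwBas.avg_add]
  refine add_le_add ?_ ?_
  · rw [tsub_le_iff_right, ← RwBas.avg_add]
    conv_lhs => rw [← RwBas.avg_const h hn v (p z)]
    exact RwBas.avg_mono v fun w => le_tsub_add
  · rw [tsub_le_iff_right]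
    calc avg g (fun w => f w z) v ≤ avg g (fun w => (f w z - p z) + p z) v :=
          RwBas.avg_mono v fun w => le_tsub_add
      _ = avg g (fun w => f w z - p z) v + p z := by
          rw [RwBas.avg_add, RwBas.avg_const h hn v (p z)]

/-- the Green function -/
noncomputable def A (g : SimpleGraph V) (N : ℕ) (y z : V) : ℝ≥0∞ := ∑ n ∈ Finset.range N, pn g n y z

lemma A_succ (N : ℕ) (y z : V) :
    A g (N + 1) y z = pn g 0 y z + avg g (fun w => A g N w z) y := by
  unfold A
  rw [Finset.sum_range_succ', add_comm, RwBas.avg_sum]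
  rfl

end GRN

open GRN

theorem t_GRN : S_GRN := by
  intro V _ g h hn x y N
  change d1 (A g N x) (A g N y) ≤ _
  induction N generalizing y with
  | zero =>
    have h1 : A g 0 x = A g 0 y := by
      funext z
      unfold A
      simp
    rw [h1, d1_self]
    exact zero_le
  | succ N ih =>
    by_cases hy : y = x
    · rw [hy, d1_self]
      exact zero_le
    have e1 : A g (N + 1) x = fun z => pn g N x z + A g N x z := by
      funext z
      unfold A
      rw [Finset.sum_range_succ, add_comm]
    have e2 : A g (N + 1) y = fun z => pn g 0 y z + avg g (fun w => A g N w z) y := by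
      funext z
      exact A_succ N y z
    rw [e1, e2]
    refine (d1_add _ _ _ _).trans ?_
    have h2 : d1 (pn g N x) (pn g 0 y) ≤ 2 := by
      refine (d1_le _ _).trans (le_of_eq ?_)
      rw [RwBas.tsum_pn h hn, RwBas.tsum_pn h hn]
      norm_num
    have h3 : d1 (A g N x) (fun z => avg g (fun w => A g N w z) y) ≤
        avg g (fun w => 2 * ∑ n ∈ Finset.range N, (1 - hit g x n w)) y := by
      refine (d1_avg h hn y (A g N x) (fun w z => A g N w z)).trans ?_
      exact RwBas.avg_mono y fun w => ih w
    refine (add_le_add h2 h3).trans ?_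
    rw [RwBas.avg_mul, RwBas.avg_sum, Finset.sum_range_succ', mul_add, add_comm]
    have h0 : hit g x 0 y = 0 := by
      unfold hit
      rw [if_neg hy]
    rw [h0, tsub_zero, mul_one]
    refine add_le_add (mul_le_mul_right (Finset.sum_le_sum fun n _ => ?_) _) le_rfl
    rw [RwBas.hit_succ hy]
    have hne : avg g (hit g x n) y ≠ ⊤ :=
      ne_top_of_le_ne_top ENNReal.one_ne_top (RwBas.avg_le_one y fun w => RwBas.hit_le_one x n w)
    refine ENNReal.le_sub_of_add_le_right hne ?_
    rw [← RwBas.avg_add]
    refine RwBas.avg_le_one y fun w => le_of_eq ?_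
    exact tsub_add_cancel_of_le (RwBas.hit_le_one x n w)

end Pool.Agent.Q42.UT
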