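import Pool.Agent.Q42.UT.RwBas

/-!
# Project UT (MP_688e31_pr), job HIT (helper198)
-/

set_option autoImplicit false

namespace Pool.Agent.Q42.UT

open MeasureTheory Set Filter Topology
open scoped ENNReal unitInterval
open Pool.Agent.TH968.UST

theorem t_HIT : S_HIT := by
  classical
  intro V g h hR x y hxy
  have hmono : Monotone fun n => hit g x n y := monotone_nat_of_le_succ fun n => RwBas.hit_mono x n y
  have ht := tendsto_atTop_iSup hmono
  have hy : y ∈ RwBas.nb h x := (RwBas.mem_nb h x y).2 hxy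
  set D := (RwBas.nb h x).card with hD
  have hDpos : 0 < D := Finset.card_pos.2 ⟨y, hy⟩
  have hle : ⨆ n, hit g x n y ≤ 1 := iSup_le fun n => RwBas.hit_le_one x n y
  have hge : 1 ≤ ⨆ n, hit g x n y := by
    set L := ⨆ n, hit g x n y with hL
    have h1 : ∀ n, avg g (hit g x n) x ≤ (((D - 1 : ℕ) : ℝ≥0∞) + L) / D := by
      intro n
      rw [RwBas.avg_eq h]
      refine ENNReal.div_le_div_right ?_ _
      rw [← Finset.sum_erase_add _ _ hy]
      refine add_le_add ?_ (le_iSup (fun n => hit g x n y) n)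
      refine (Finset.sum_le_sum fun w _ => RwBas.hit_le_one x n w).trans ?_
      rw [Finset.sum_const, Finset.card_erase_of_mem hy, nsmul_eq_mul, mul_one]
    have h2 : (1 : ℝ≥0∞) ≤ (((D - 1 : ℕ) : ℝ≥0∞) + L) / D := by
      rw [← hR x ⟨y, hxy⟩]
      exact iSup_le h1
    rw [ENNReal.le_div_iff_mul_le (Or.inl (by exact_mod_cast hDpos.ne'))
      (Or.inl (ENNReal.natCast_ne_top _)), one_mul] at h2
    have h3 : (D : ℝ≥0∞) = ((D - 1 : ℕ) : ℝ≥0∞) + 1 := by
      have : D = (D - 1) + 1 := by omega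
      conv_lhs => rw [this]
      push_cast
      rfl
    rw [h3] at h2
    exact (ENNReal.add_le_add_iff_left (ENNReal.natCast_ne_top _)).1 h2
  rw [le_antisymm hle hge] at ht
  exact ht

end Pool.Agent.Q42.UT
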