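import Pool.Agent.Q42.UT.Stm

/-!
# Project UT: the law of the limit
-/

set_option autoImplicit false

namespace Pool.Agent.Q42.UT

open MeasureTheory Set Filter Topology
open scoped ENNReal unitInterval
open Pool.Agent.TH968.UST

theorem lim_mem_ed {V : Type} {K : SimpleGraph V} {C : Finset V} {e : Sym2 V} :
    e ∈ ed K C ↔ (∀ v ∈ e, v ∈ C) ∧ e ∈ K.edgeSet := by
  classical
  unfold ed
  rw [Finset.mem_filter, Finset.mem_sym2_iff]

theorem lim_mem_rs {V : Type} {E : Finset (Sym2 V)} {S : Set (Sym2 V)} {e : Sym2 V} :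
    e ∈ rs E S ↔ e ∈ E ∧ e ∈ S := by
  classical
  unfold rs
  rw [Finset.mem_filter]

theorem lim_mono {V : Type} {K : ℕ → SimpleGraph V} (hK : IsTower K) {n m : ℕ} (h : n ≤ m) :
    K n ≤ K m := monotone_nat_of_le_succ hK.mono h

theorem lim_reach {V : Type} {g : SimpleGraph V} {K : ℕ → SimpleGraph V} (hK : IsTower K)
    (hex : ∀ x y, g.Adj x y → ∃ n, (K n).Adj x y) {x y : V} (h : g.Reachable x y) :
    ∃ n, ∀ m, n ≤ m → (K m).Reachable x y := by
  obtain ⟨w⟩ := h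
  induction w with
  | nil => exact ⟨0, fun m _ => SimpleGraph.Reachable.refl _⟩
  | cons hadj _ ih =>
    obtain ⟨n, hn⟩ := hex _ _ hadj
    obtain ⟨k, hk⟩ := ih
    refine ⟨max n k, fun m hm => ?_⟩
    have h1 : (K m).Adj _ _ := lim_mono hK (le_trans (le_max_left _ _) hm) hn
    exact h1.reachable.trans (hk m (le_trans (le_max_right _ _) hm))

theorem lim_cl {V : Type} {K : SimpleGraph V} {C : Finset V} (hC : Cl K C) {x y : V} (hx : x ∈ C)
    (h : K.Reachable x y) : y ∈ C := by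
  obtain ⟨w⟩ := h
  induction w with
  | nil => exact hx
  | cons hadj _ ih => exact ih (hC _ hx _ hadj)

/-- eventually the intersection with a finite set is that of the limit -/
theorem lim_ev {V : Type} {F : CF} {g : SimpleGraph V} {K : ℕ → SimpleGraph V} (hK : IsTower K)
    (hKg : ∀ n, K n ≤ g) (hex : ∀ x y, g.Adj x y → ∃ n, (K n).Adj x y) {a : V → I}
    {t : V × ℕ → I} (hsub : ∀ n, ∀ e ∈ Tr F K a t n, e ∈ (K n).edgeSet)
    (hdec : ∀ n e, e ∈ (K n).edgeSet → e ∈ Tr F K a t (n + 1) → e ∈ Tr F K a t n)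
    (e : Sym2 V) : ∃ n, ∀ m, n ≤ m → (e ∈ Tr F K a t m ↔ e ∈ Tinf F K a t) := by
  by_cases he : e ∈ g.edgeSet
  · obtain ⟨n, hn⟩ : ∃ n, e ∈ (K n).edgeSet := by
      induction e with
      | _ x y =>
        obtain ⟨n, hn⟩ := hex x y he
        exact ⟨n, hn⟩
    have hKe : ∀ m, n ≤ m → e ∈ (K m).edgeSet := fun m hm =>
      SimpleGraph.edgeSet_mono (lim_mono hK hm) hn
    by_cases hall : ∀ m, n ≤ m → e ∈ Tr F K a t m
    · exact ⟨n, fun m hm => ⟨fun _ => ⟨n, hall⟩, fun _ => hall m hm⟩⟩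
    · push Not at hall
      obtain ⟨m, hm, hem⟩ := hall
      have h1 : ∀ k, e ∉ Tr F K a t (m + k) := by
        intro k
        induction k with
        | zero => exact hem
        | succ k ih =>
          intro h2
          exact ih (hdec (m + k) e (hKe _ (by omega)) h2)
      have h2 : e ∉ Tinf F K a t := by
        rintro ⟨l, hl⟩
        exact h1 l (hl (m + l) (by omega))
      refine ⟨m, fun k hk => ?_⟩
      obtain ⟨j, rfl⟩ := Nat.exists_eq_add_of_le hk
      exact ⟨fun h => absurd h (h1 j), fun h => absurd h h2⟩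
  · have h1 : ∀ n, e ∉ Tr F K a t n := fun n h =>
      he (SimpleGraph.edgeSet_mono (hKg n) (hsub n e h))
    refine ⟨0, fun m _ => ⟨fun h => absurd h (h1 m), ?_⟩⟩
    rintro ⟨l, hl⟩
    exact absurd (hl l le_rfl) (h1 l)

theorem lim_ev_fin {V : Type} {F : CF} {K : ℕ → SimpleGraph V} {a : V → I}
    {t : V × ℕ → I} (S : Finset (Sym2 V))
    (h : ∀ e : Sym2 V, ∃ n, ∀ m, n ≤ m → (e ∈ Tr F K a t m ↔ e ∈ Tinf F K a t)) :
    ∃ n, ∀ m, n ≤ m → Tr F K a t m ∩ (S : Set (Sym2 V)) = Tinf F K a t ∩ (S : Set (Sym2 V)) := by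
  classical
  choose N hN using h
  refine ⟨S.sup N, fun m hm => ?_⟩
  ext e
  constructor
  · rintro ⟨h1, h2⟩
    exact ⟨(hN e m (le_trans (Finset.le_sup (f := N) h2) hm)).1 h1, h2⟩
  · rintro ⟨h1, h2⟩
    exact ⟨(hN e m (le_trans (Finset.le_sup (f := N) h2) hm)).2 h1, h2⟩

theorem lim_meas {V : Type} [Countable V] {F : CF} {K : ℕ → SimpleGraph V} {a : V → I} {n : ℕ}
    (hm : ∀ e : Sym2 V, MeasurableSet {t : V × ℕ → I | e ∈ Tr F K a t n})
    (S A : Finset (Sym2 V)) :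
    MeasurableSet {t : V × ℕ → I | Tr F K a t n ∩ (S : Set (Sym2 V)) = (A : Set (Sym2 V))} := by
  have h1 : {t : V × ℕ → I | Tr F K a t n ∩ (S : Set (Sym2 V)) = (A : Set (Sym2 V))} =
      ⋂ e : Sym2 V, {t : V × ℕ → I | (e ∈ Tr F K a t n ∧ e ∈ S) ↔ e ∈ A} := by
    ext t
    simp only [mem_ofPred_eq, Set.ext_iff, mem_inter_iff, Finset.mem_coe, mem_iInter]
  rw [h1]
  refine MeasurableSet.iInter fun e => ?_
  by_cases hS : e ∈ S <;> by_cases hA : e ∈ A
  · simpa [hS, hA] using hm e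
  · have h2 : {t : V × ℕ → I | (e ∈ Tr F K a t n ∧ e ∈ S) ↔ e ∈ A} =
        {t : V × ℕ → I | e ∈ Tr F K a t n}ᶜ := by
      ext t
      simp [hS, hA]
    rw [h2]
    exact (hm e).compl
  · simp [hS, hA]
  · simp [hS, hA]

theorem lim_meas_rs {V : Type} [Countable V] {F : CF} {K : ℕ → SimpleGraph V} {a : V → I} {n : ℕ}
    (hm : ∀ e : Sym2 V, MeasurableSet {t : V × ℕ → I | e ∈ Tr F K a t n})
    (E T : Finset (Sym2 V)) :
    MeasurableSet {t : V × ℕ → I | rs E (Tr F K a t n) = T} := by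
  have h1 : {t : V × ℕ → I | rs E (Tr F K a t n) = T} =
      {t : V × ℕ → I | Tr F K a t n ∩ (E : Set (Sym2 V)) = (T : Set (Sym2 V))} := by
    ext t
    simp only [mem_ofPred_eq, Set.ext_iff, mem_inter_iff, Finset.mem_coe, Finset.ext_iff, lim_mem_rs]
    exact forall_congr' fun e => by rw [and_comm]
  rw [h1]
  exact lim_meas hm E T

/-- the probability of a property of the tree inside `E` -/
theorem lim_pr {V : Type} [Countable V] {F : CF} {K : ℕ → SimpleGraph V} {a : V → I} {n : ℕ}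
    (hm : ∀ e : Sym2 V, MeasurableSet {t : V × ℕ → I | e ∈ Tr F K a t n}) (E : Finset (Sym2 V))
    (htree : ∀ t : V × ℕ → I, rs E (Tr F K a t n) ∈ trees ⊥ E)
    (hlaw : ∀ S ∈ trees ⊥ E, lu (V × ℕ) {t | rs E (Tr F K a t n) = S} =
      1 / ((trees ⊥ E).card : ℝ≥0∞)) (Q : Finset (Sym2 V) → Prop) :
    (lu (V × ℕ)).real {t | Q (rs E (Tr F K a t n))} = pr ⊥ E Q := by
  classical
  have h1 : {t : V × ℕ → I | Q (rs E (Tr F K a t n))} =
      ⋃ T ∈ (trees ⊥ E).filter Q, {t : V × ℕ → I | rs E (Tr F K a t n) = T} := by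
    ext t
    simp only [mem_ofPred_eq, mem_iUnion, Finset.mem_filter, exists_prop]
    constructor
    · intro h
      exact ⟨_, ⟨htree t, h⟩, rfl⟩
    · rintro ⟨T, ⟨_, h⟩, rfl⟩
      exact h
  have h2 : lu (V × ℕ) {t : V × ℕ → I | Q (rs E (Tr F K a t n))} =
      ∑ T ∈ (trees ⊥ E).filter Q, lu (V × ℕ) {t : V × ℕ → I | rs E (Tr F K a t n) = T} := by
    rw [h1]
    refine measure_biUnion_finset ?_ fun T _ => lim_meas_rs hm E T
    intro T _ T' _ hne
    refine Set.disjoint_left.2 fun t ht ht' => hne ?_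
    exact ht.symm.trans ht'
  have h3 : lu (V × ℕ) {t : V × ℕ → I | Q (rs E (Tr F K a t n))} =
      (((trees ⊥ E).filter Q).card : ℝ≥0∞) * (1 / ((trees ⊥ E).card : ℝ≥0∞)) := by
    rw [h2, Finset.sum_congr rfl fun T hT => hlaw T (Finset.mem_filter.1 hT).1, Finset.sum_const,
      nsmul_eq_mul]
  unfold Measure.real
  rw [h3, ENNReal.toReal_mul, ENNReal.toReal_div]
  unfold pr
  simp only [ENNReal.toReal_natCast, ENNReal.toReal_one]
  rw [mul_one_div]

theorem t_LIM : S_LIM := by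
  rintro ⟨hCMP, hTRF, hTRT, hPRODT, hMAPT, hDEP, hMT, hDEC⟩ hUNI hCONV F hF V _ g hg hLF hNI hRec
    K hK hKg hex a ha B hB hBex S A
  obtain ⟨o⟩ := hg.nonempty
  have hcomp : ∀ n, ∃ C, IsComp (K n) C ∧ o ∈ C := fun n => (hCMP V (K n) (hK.fin n)).1 o
  choose C hC hoC using hcomp
  have hsub : ∀ t : V × ℕ → I, ∀ n, ∀ e ∈ Tr F K a t n, e ∈ (K n).edgeSet := fun t n =>
    (hTRF hCMP F hF V K hK a ha t n).1
  have hdec := fun t : V × ℕ → I => hDEC hCMP hTRF hTRT hPRODT hMAPT F hF V K hK a ha t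
  have hm := fun n e => hMT F hF V K a n e
  have hEg : ∀ n, ∀ e ∈ ed (K n) (C n), e ∈ g.edgeSet := fun n e he =>
    SimpleGraph.edgeSet_mono (hKg n) (lim_mem_ed.1 he).2
  have hEex : ∀ e ∈ g.edgeSet, ∃ n, ∀ m, n ≤ m → e ∈ ed (K m) (C m) := by
    intro e he
    induction e with
    | _ x y =>
      obtain ⟨n, hn⟩ := hex x y he
      obtain ⟨k, hk⟩ := lim_reach hK hex (hg.preconnected o x)
      refine ⟨max n k, fun m hm => ?_⟩
      have h1 : (K m).Adj x y := lim_mono hK (le_trans (le_max_left _ _) hm) hn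
      have h2 : x ∈ C m := lim_cl (hC m).2.1 (hoC m) (hk m (le_trans (le_max_right _ _) hm))
      have h3 : y ∈ C m := (hC m).2.1 x h2 y h1
      rw [lim_mem_ed]
      refine ⟨?_, h1⟩
      intro v hv
      rcases Sym2.mem_iff.1 hv with rfl | rfl
      · exact h2
      · exact h3
  have hconv := hCONV V g hLF hNI hRec (fun n => ed (K n) (C n)) B hEg hEex hB hBex S A
  -- the law of the trees
  have hlim : Tendsto (fun n => (lu (V × ℕ)).real
      {t | Tr F K a t n ∩ (S : Set (Sym2 V)) = (A : Set (Sym2 V))}) atTop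
      (𝓝 ((lu (V × ℕ)).real {t | Tinf F K a t ∩ (S : Set (Sym2 V)) = (A : Set (Sym2 V))})) := by
    have h1 : Tendsto (fun n => lu (V × ℕ)
        {t | Tr F K a t n ∩ (S : Set (Sym2 V)) = (A : Set (Sym2 V))}) atTop
        (𝓝 (lu (V × ℕ) {t | Tinf F K a t ∩ (S : Set (Sym2 V)) = (A : Set (Sym2 V))})) := by
      refine tendsto_measure_of_tendsto_indicator_of_isFiniteMeasure atTop _
        (fun n => lim_meas (hm n) S A) ?_
      intro t
      obtain ⟨n, hn⟩ := lim_ev_fin S (lim_ev hK hKg hex (hsub t) (hdec t))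
      filter_upwards [eventually_ge_atTop n] with m hmn
      exact ⟨fun h => (hn m hmn).symm.trans h, fun h => (hn m hmn).trans h⟩
    exact (ENNReal.tendsto_toReal (measure_ne_top _ _)).comp h1
  have hpr : ∀ᶠ n in atTop, (lu (V × ℕ)).real
      {t | Tr F K a t n ∩ (S : Set (Sym2 V)) = (A : Set (Sym2 V))} =
      pr ⊥ (ed (K n) (C n)) (fun T => (T : Set (Sym2 V)) ∩ S = A) := by
    classical
    have hS : ∃ n, ∀ m, n ≤ m → ∀ e ∈ S, e ∈ g.edgeSet → e ∈ ed (K m) (C m) := by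
      have h1 : ∀ e : Sym2 V, ∃ n, ∀ m, n ≤ m → e ∈ g.edgeSet → e ∈ ed (K m) (C m) := by
        intro e
        by_cases he : e ∈ g.edgeSet
        · obtain ⟨n, hn⟩ := hEex e he
          exact ⟨n, fun m hm _ => hn m hm⟩
        · exact ⟨0, fun m _ h => absurd h he⟩
      choose N hN using h1
      exact ⟨S.sup N, fun m hm e he heg => hN e m (le_trans (Finset.le_sup (f := N) he) hm) heg⟩
    obtain ⟨n₀, hn₀⟩ := hS
    filter_upwards [eventually_ge_atTop n₀] with n hn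
    rw [← lim_pr (hm n) (ed (K n) (C n))
      (fun t => hTRT hCMP hTRF hPRODT hMAPT F hF V K hK a ha t n (C n) (hC n).2.1)
      (hUNI F hF V K hK a ha n (C n) (hC n).2.1)]
    congr 1
    ext t
    simp only [mem_ofPred_eq]
    have h2 : Tr F K a t n ∩ (S : Set (Sym2 V)) =
        (rs (ed (K n) (C n)) (Tr F K a t n) : Set (Sym2 V)) ∩ (S : Set (Sym2 V)) := by
      ext e
      simp only [mem_inter_iff, Finset.mem_coe, lim_mem_rs]
      constructor
      · rintro ⟨h3, h4⟩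
        exact ⟨⟨hn₀ n hn e h4 (SimpleGraph.edgeSet_mono (hKg n) (hsub t n e h3)), h3⟩, h4⟩
      · rintro ⟨⟨_, h3⟩, h4⟩
        exact ⟨h3, h4⟩
    rw [h2]
  have hpr' : Tendsto (fun n => pr ⊥ (ed (K n) (C n)) (fun T => (T : Set (Sym2 V)) ∩ S = A)) atTop
      (𝓝 ((lu (V × ℕ)).real {t | Tinf F K a t ∩ (S : Set (Sym2 V)) = (A : Set (Sym2 V))})) :=
    hlim.congr' hpr
  have hfin := hpr'.sub hconv
  simpa using hfin

end Pool.Agent.Q42.UT
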