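import Pool.Agent.Q42.UT.Stm

/-!
# Project UT (helper42), MP_688e31_pr: trees and renaming of vertices
-/

set_option autoImplicit false

namespace Pool.Agent.Q42.UT

open MeasureTheory Set Filter Topology
open scoped ENNReal unitInterval
open Pool.Agent.TH968.UST

namespace MAPT

open Pool.Agent.TH830.UST

theorem conn_map {V W : Type} (i : V → W) {S : Set (Sym2 V)} {S' : Set (Sym2 W)}
    (h : ∀ e ∈ S, Sym2.map i e ∈ S') {a b : V} (hc : Conn ⊥ S a b) : Conn ⊥ S' (i a) (i b) := by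
  induction hc with
  | rel a b h1 =>
    rcases h1 with h1 | h1
    · have h2 : a = b := h1
      rw [h2]
      exact crefl _ _ _
    · exact cedge (h _ h1)
  | refl a => exact crefl _ _ _
  | symm a b _ ih => exact csymm ih
  | trans a b c _ _ ih1 ih2 => exact ctrans ih1 ih2

theorem conn_back {V W : Type} (i : V → W) {C : Set V}
    (hi : ∀ x ∈ C, ∀ y ∈ C, i x = i y → x = y) {S : Set (Sym2 V)} (hS : ∀ e ∈ S, ∀ v ∈ e, v ∈ C)
    {S' : Set (Sym2 W)} (h : ∀ e ∈ S', ∃ e₀ ∈ S, Sym2.map i e₀ = e) {u v : W}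
    (hc : Conn ⊥ S' u v) : u = v ∨ ∃ a ∈ C, ∃ b ∈ C, i a = u ∧ i b = v ∧ Conn ⊥ S a b := by
  induction hc with
  | rel u v h1 =>
    rcases h1 with h1 | h1
    · exact Or.inl h1
    · right
      obtain ⟨e₀, he, he'⟩ := h _ h1
      induction e₀ using Sym2.ind with
      | _ a b =>
        have ha : a ∈ C := hS _ he a (Sym2.mem_mk_left a b)
        have hb : b ∈ C := hS _ he b (Sym2.mem_mk_right a b)
        rw [Sym2.map_mk] at he'
        rcases Sym2.eq_iff.1 he' with ⟨h2, h3⟩ | ⟨h2, h3⟩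
        · exact ⟨a, ha, b, hb, h2, h3, cedge he⟩
        · exact ⟨b, hb, a, ha, h3, h2, csymm (cedge he)⟩
  | refl a => exact Or.inl rfl
  | symm u v _ ih =>
    rcases ih with ih | ⟨a, ha, b, hb, h1, h2, h3⟩
    · exact Or.inl ih.symm
    · exact Or.inr ⟨b, hb, a, ha, h2, h1, csymm h3⟩
  | trans u v w _ _ ih1 ih2 =>
    rcases ih1 with rfl | ⟨a, ha, b, hb, h1, h2, h3⟩
    · exact ih2
    · rcases ih2 with rfl | ⟨a', ha', b', hb', h1', h2', h3'⟩
      · exact Or.inr ⟨a, ha, b, hb, h1, h2, h3⟩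
      · have e : b = a' := hi b hb a' ha' (h2.trans h1'.symm)
        subst e
        exact Or.inr ⟨a, ha, b', hb', h1, h2', ctrans h3 h3'⟩

theorem conn_iff {V W : Type} (i : V → W) {C : Set V}
    (hi : ∀ x ∈ C, ∀ y ∈ C, i x = i y → x = y) {S : Set (Sym2 V)} (hS : ∀ e ∈ S, ∀ v ∈ e, v ∈ C)
    {S' : Set (Sym2 W)} (h : ∀ e, e ∈ S' ↔ ∃ e₀ ∈ S, Sym2.map i e₀ = e) {a b : V} (ha : a ∈ C)
    (hb : b ∈ C) : Conn ⊥ S' (i a) (i b) ↔ Conn ⊥ S a b := by
  constructor
  · intro hc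
    rcases conn_back i hi hS (fun e he => (h e).1 he) hc with h1 | ⟨a', ha', b', hb', h1, h2, h3⟩
    · rw [hi a ha b hb h1]
      exact crefl _ _ _
    · rw [← hi a' ha' a ha h1, ← hi b' hb' b hb h2]
      exact h3
  · exact conn_map i fun e he => (h _).2 ⟨e, he, rfl⟩

theorem map_inj {V W : Type} (i : V → W) {C : Set V}
    (hi : ∀ x ∈ C, ∀ y ∈ C, i x = i y → x = y) {e f : Sym2 V} (he : ∀ v ∈ e, v ∈ C)
    (hf : ∀ v ∈ f, v ∈ C) (h : Sym2.map i e = Sym2.map i f) : e = f := by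
  induction e using Sym2.ind with
  | _ a b =>
    induction f using Sym2.ind with
    | _ c d =>
      have ha := he a (Sym2.mem_mk_left a b)
      have hb := he b (Sym2.mem_mk_right a b)
      have hc := hf c (Sym2.mem_mk_left c d)
      have hd := hf d (Sym2.mem_mk_right c d)
      rw [Sym2.map_mk, Sym2.map_mk] at h
      rcases Sym2.eq_iff.1 h with ⟨h1, h2⟩ | ⟨h1, h2⟩
      · rw [hi a ha c hc h1, hi b hb d hd h2]
      · rw [hi a ha d hd h1, hi b hb c hc h2]
        exact Sym2.eq_swap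

end MAPT

open MAPT Pool.Agent.TH830.UST in
theorem t_MAPT : S_MAPT := by
  intro V W i C E T hi hE hTE E' T' hE' hT'
  have hi' : ∀ x ∈ (C : Set V), ∀ y ∈ (C : Set V), i x = i y → x = y := hi
  have hTC : ∀ e ∈ (T : Set (Sym2 V)), ∀ v ∈ e, v ∈ (C : Set V) := fun e he v hv => hE e (hTE he) v hv
  have hT'' : ∀ e, e ∈ (T' : Set (Sym2 W)) ↔ ∃ e₀ ∈ (T : Set (Sym2 V)), Sym2.map i e₀ = e := hT'
  rw [mem_trees, mem_trees]
  have hsub : T' ⊆ E' := by
    intro e he
    obtain ⟨e₀, h1, h2⟩ := (hT' e).1 he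
    exact (hE' e).2 ⟨e₀, hTE h1, h2⟩
  -- removing an edge
  have hrem : ∀ a b : V, s(a, b) ∈ T → ∀ e, e ∈ (T' : Set (Sym2 W)) \ {s(i a, i b)} ↔
      ∃ e₀ ∈ (T : Set (Sym2 V)) \ {s(a, b)}, Sym2.map i e₀ = e := by
    intro a b hab e
    constructor
    · rintro ⟨h1, h2⟩
      obtain ⟨e₀, h3, rfl⟩ := (hT'' e).1 h1
      refine ⟨e₀, ⟨h3, ?_⟩, rfl⟩
      intro h4
      apply h2
      rw [Set.mem_singleton_iff] at h4
      rw [h4, Sym2.map_mk]
      rfl
    · rintro ⟨e₀, ⟨h3, h4⟩, rfl⟩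
      refine ⟨(hT'' _).2 ⟨e₀, h3, rfl⟩, fun h5 => h4 ?_⟩
      rw [Set.mem_singleton_iff] at h5 ⊢
      exact map_inj i hi' (hTC e₀ h3) (hTC _ hab) h5
  constructor
  · rintro ⟨-, h2, h3⟩
    refine ⟨hTE, fun a b hab => ?_, fun a b hab hc => ?_⟩
    · have ha := hE _ hab a (Sym2.mem_mk_left a b)
      have hb := hE _ hab b (Sym2.mem_mk_right a b)
      exact (conn_iff i hi' hTC hT'' ha hb).1 (h2 (i a) (i b) ((hE' _).2 ⟨s(a, b), hab, rfl⟩))
    · have ha := hTC _ hab a (Sym2.mem_mk_left a b)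
      have hb := hTC _ hab b (Sym2.mem_mk_right a b)
      refine h3 (i a) (i b) ((hT'' _).2 ⟨s(a, b), hab, rfl⟩) ?_
      exact (conn_iff i hi' (fun e he => hTC e he.1) (hrem a b hab) ha hb).2 hc
  · rintro ⟨-, h2, h3⟩
    refine ⟨hsub, fun u v huv => ?_, fun u v huv hc => ?_⟩
    · obtain ⟨e₀, h4, h5⟩ := (hE' _).1 huv
      induction e₀ using Sym2.ind with
      | _ a b =>
        have h6 := conn_map i (S' := (T' : Set (Sym2 W))) (fun e he => (hT'' _).2 ⟨e, he, rfl⟩)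
          (h2 a b h4)
        rw [Sym2.map_mk] at h5
        rcases Sym2.eq_iff.1 h5 with ⟨h7, h8⟩ | ⟨h7, h8⟩
        · have h7' : i a = u := h7
          have h8' : i b = v := h8
          rw [← h7', ← h8']
          exact h6
        · have h7' : i a = v := h7
          have h8' : i b = u := h8
          rw [← h7', ← h8']
          exact csymm h6
    · obtain ⟨e₀, h4, h5⟩ := (hT'' _).1 huv
      induction e₀ using Sym2.ind with
      | _ a b =>
        have ha := hTC _ h4 a (Sym2.mem_mk_left a b)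
        have hb := hTC _ h4 b (Sym2.mem_mk_right a b)
        rw [Sym2.map_mk] at h5
        have h5' : s(u, v) = s(i a, i b) := h5.symm
        rw [h5'] at hc
        rcases Sym2.eq_iff.1 h5 with ⟨h7, h8⟩ | ⟨h7, h8⟩
        · have h7' : i a = u := h7
          have h8' : i b = v := h8
          rw [← h7', ← h8'] at hc
          exact h3 a b h4 ((conn_iff i hi' (fun e he => hTC e he.1) (hrem a b h4) ha hb).1 hc)
        · have h7' : i a = v := h7
          have h8' : i b = u := h8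
          rw [← h7', ← h8'] at hc
          exact h3 a b h4 ((conn_iff i hi' (fun e he => hTC e he.1) (hrem a b h4) ha hb).1
            (csymm hc))

end Pool.Agent.Q42.UT
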