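import Pool.Agent.Q42.UT.Stm

/-!
# Project UT (helper42), MP_688e31_pr: measurability of the limit in all data (helper235)
-/

set_option autoImplicit false

namespace Pool.Agent.Q42.UT

open MeasureTheory Set Filter Topology
open scoped ENNReal unitInterval
open Pool.Agent.TH968.UST

namespace MPH

/-- walks of length `n` -/
def Rn {V : Type} (K : SimpleGraph V) : ℕ → V → V → Prop
  | 0, x, y => x = y
  | n + 1, x, y => ∃ z, Rn K n x z ∧ K.Adj z y

theorem reach_iff {V : Type} (K : SimpleGraph V) (x y : V) :
    K.Reachable x y ↔ ∃ n, Rn K n x y := by
  constructor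
  · intro h
    rw [SimpleGraph.reachable_iff_reflTransGen] at h
    induction h with
    | refl => exact ⟨0, rfl⟩
    | tail _ hbc ih =>
      obtain ⟨n, hn⟩ := ih
      exact ⟨n + 1, _, hn, hbc⟩
  · rintro ⟨n, hn⟩
    induction n generalizing y with
    | zero =>
      change x = y at hn
      rw [hn]
    | succ n ih =>
      obtain ⟨z, hz, hzy⟩ := hn
      exact (ih z hz).trans hzy.reachable

section

variable {X V : Type} [MeasurableSpace X]

theorem fib {D : Type} [Countable D] (f : X → D) (hf : ∀ d, Measurable fun q => f q = d)
    (Φ : D → X → Prop) (hΦ : ∀ d, Measurable (Φ d)) : Measurable fun q => Φ (f q) q := by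
  have h : (fun q => Φ (f q) q) = fun q => ∃ d, f q = d ∧ Φ d q := by
    funext q
    refine propext ⟨fun h => ⟨f q, rfl, h⟩, ?_⟩
    rintro ⟨d, rfl, h⟩
    exact h
  rw [h]
  exact Measurable.exists fun d => (hf d).and (hΦ d)

theorem meas_eq {E : Type} [Countable E] {S : X → Finset E}
    (hS : ∀ e, Measurable fun q => e ∈ S q) (S₀ : Finset E) : Measurable fun q => S q = S₀ := by
  simp only [Finset.ext_iff]
  exact Measurable.forall fun e => (hS e).iff measurable_const

variable [Countable V]

theorem meas_reach {K : X → SimpleGraph V} (hK : ∀ x y, Measurable fun q => (K q).Adj x y)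
    (x y : V) : Measurable fun q => (K q).Reachable x y := by
  have h : ∀ n y, Measurable fun q => Rn (K q) n x y := by
    intro n
    induction n with
    | zero => exact fun y => measurable_const
    | succ n ih => exact fun y => Measurable.exists fun z => (ih z).and (hK z y)
  simp only [reach_iff]
  exact Measurable.exists fun n => h n y

theorem meas_comp {K : X → SimpleGraph V} (hK : ∀ x y, Measurable fun q => (K q).Adj x y)
    (C : Finset V) : Measurable fun q => IsComp (K q) C := by
  unfold IsComp Cl
  refine Measurable.and measurable_const (Measurable.and ?_ ?_)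
  · exact Measurable.forall fun x => Measurable.imp measurable_const
      (Measurable.forall fun y => (hK x y).imp measurable_const)
  · exact Measurable.forall fun x => Measurable.imp measurable_const
      (Measurable.forall fun y => Measurable.imp measurable_const (meas_reach hK x y))

omit [Countable V] in
theorem meas_edge {K : X → SimpleGraph V} (hK : ∀ x y, Measurable fun q => (K q).Adj x y)
    (e : Sym2 V) : Measurable fun q => e ∈ (K q).edgeSet := by
  induction e using Sym2.ind with
  | _ x y => exact hK x y

omit [Countable V] in
theorem meas_ed {K : X → SimpleGraph V} (hK : ∀ x y, Measurable fun q => (K q).Adj x y)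
    (C : Finset V) (e : Sym2 V) : Measurable fun q => e ∈ ed (K q) C := by
  simp only [ed, Finset.mem_filter]
  exact Measurable.and measurable_const (meas_edge hK e)

omit [Countable V] in
theorem meas_rk {a : X → V → I} (ha : ∀ v, Measurable fun q => a q v) (C : Finset V) (v : V)
    (k : ℕ) : Measurable fun q => rk (a q) C v = k := by
  classical
  have h : Measurable fun q => rk (a q) C v := by
    simp only [rk, Finset.card_filter]
    exact Finset.measurable_sum _ fun w _ => Measurable.ite (measurableSet_lt (ha w) (ha v))
      measurable_const measurable_const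
  exact measurableSet_setOfPred.1 (h (measurableSet_singleton k))

omit [Countable V] in
theorem meas_map {a : X → V → I} (ha : ∀ v, Measurable fun q => a q v) (C : Finset V)
    (e : Sym2 V) (m : Sym2 ℕ) : Measurable fun q => Sym2.map (rk (a q) C) e = m := by
  induction e using Sym2.ind with
  | _ x y =>
    induction m using Sym2.ind with
    | _ k l =>
      simp only [Sym2.map_mk, Sym2.eq_iff]
      exact ((meas_rk ha C x k).and (meas_rk ha C y l)).or
        ((meas_rk ha C x l).and (meas_rk ha C y k))

theorem meas_code {a : X → V → I} (ha : ∀ v, Measurable fun q => a q v) (C : Finset V)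
    {S : X → Finset (Sym2 V)} (hS : ∀ e, Measurable fun q => e ∈ S q) (m : Sym2 ℕ) :
    Measurable fun q => m ∈ code (a q) C (S q) := by
  simp only [code, Finset.mem_image]
  exact Measurable.exists fun e => (hS e).and (meas_map ha C e m)

open Classical in
theorem meas_tr {F : CF} (hF : IsCpl F) {K : X → ℕ → SimpleGraph V}
    (hK : ∀ n x y, Measurable fun q => (K q n).Adj x y) {a : X → V → I}
    (ha : ∀ v, Measurable fun q => a q v) {t : X → V × ℕ → I}
    (ht : ∀ p, Measurable fun q => t q p) (n : ℕ) (e : Sym2 V) :
    Measurable fun q => e ∈ Tr F (K q) (a q) (t q) n := by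
  induction n generalizing e with
  | zero => exact measurable_const
  | succ n ih =>
    have h1 : ∀ (C : Finset V) (v : V), Measurable fun q =>
        Sym2.map (rk (a q) C) e ∈ F (code (a q) C (ed (K q (n + 1)) C))
          (code (a q) C (ed (K q n) C))
          (code (a q) C ((ed (K q n) C).filter (fun e' => e' ∈ Tr F (K q) (a q) (t q) n)))
          (t q (v, n)) := by
      intro C v
      have c1 : ∀ d, Measurable fun q => code (a q) C (ed (K q (n + 1)) C) = d :=
        meas_eq (meas_code ha C (meas_ed (hK (n + 1)) C))
      have c2 : ∀ d, Measurable fun q => code (a q) C (ed (K q n) C) = d :=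
        meas_eq (meas_code ha C (meas_ed (hK n) C))
      have c3 : ∀ d, Measurable fun q =>
          code (a q) C ((ed (K q n) C).filter (fun e' => e' ∈ Tr F (K q) (a q) (t q) n)) = d := by
        refine meas_eq (meas_code ha C fun e' => ?_)
        simp only [Finset.mem_filter]
        exact (meas_ed (hK n) C e').and (ih e')
      refine fib _ c1 (fun E q => Sym2.map (rk (a q) C) e ∈ F E (code (a q) C (ed (K q n) C))
          (code (a q) C ((ed (K q n) C).filter (fun e' => e' ∈ Tr F (K q) (a q) (t q) n)))
          (t q (v, n))) fun E => ?_
      refine fib _ c2 (fun E' q => Sym2.map (rk (a q) C) e ∈ F E E'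
          (code (a q) C ((ed (K q n) C).filter (fun e' => e' ∈ Tr F (K q) (a q) (t q) n)))
          (t q (v, n))) fun E' => ?_
      refine fib _ c3 (fun T' q => Sym2.map (rk (a q) C) e ∈ F E E' T' (t q (v, n))) fun T' => ?_
      refine fib _ (meas_map ha C e) (fun m q => m ∈ F E E' T' (t q (v, n))) fun m => ?_
      refine fib (fun q => F E E' T' (t q (v, n))) (fun T => ?_) (fun T _ => m ∈ T)
        fun T => measurable_const
      exact (measurableSet_setOfPred.1 (hF.meas E E' T' T)).comp (ht (v, n))
    exact Measurable.exists fun C => (meas_comp (hK (n + 1)) C).and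
      ((meas_ed (hK (n + 1)) C e).and (Measurable.exists fun v => Measurable.and measurable_const
        ((meas_rk ha C v 0).and (h1 C v))))

end

end MPH

theorem t_MPH : S_MPH := by
  intro hN hW F hF V _ Ns e
  refine measurableSet_setOfPred.2 ?_
  have hK : ∀ n x y, Measurable fun q : SimpleGraph V × (V → I) × (V × ℕ → I) × (V × ℕ → I) =>
      (tw Ns q.1 q.2.2.1 n).Adj x y := by
    intro n x y
    have hw : ∀ j z w, Measurable fun q : SimpleGraph V × (V → I) × (V × ℕ → I) × (V × ℕ → I) =>
        WinJ Ns q.1 q.2.2.1 j z w := fun j z w =>
      (measurableSet_setOfPred.1 (hW hN V Ns j z w)).comp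
        (measurable_fst.prodMk (measurable_fst.comp (measurable_snd.comp measurable_snd)))
    cases n with
    | zero => exact measurable_const
    | succ n =>
      refine Measurable.and ((measurableSet_setOfPred.1 (measurableSet_adj x y)).comp
        measurable_fst) (Measurable.forall fun j => Measurable.imp measurable_const
        (Measurable.exists fun z => (hw j x z).and (hw j y z)))
  have h : ∀ n, Measurable fun q : SimpleGraph V × (V → I) × (V × ℕ → I) × (V × ℕ → I) =>
      e ∈ Tr F (tw Ns q.1 q.2.2.1) q.2.1 q.2.2.2 n := fun n =>
    MPH.meas_tr hF hK (fun v => (measurable_pi_apply v).comp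
        (measurable_fst.comp measurable_snd)) (fun p => (measurable_pi_apply p).comp
        (measurable_snd.comp (measurable_snd.comp measurable_snd))) n e
  exact Measurable.exists fun n => Measurable.forall fun m =>
    Measurable.imp measurable_const (h m)

end Pool.Agent.Q42.UT
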