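import Pool.Agent.Q42.UT.Stm

/-! MT: measurability of the random trees in the sampling labels. -/

set_option autoImplicit false

namespace Pool.Agent.Q42.UT

open MeasureTheory Set Filter Topology
open scoped ENNReal unitInterval
open Pool.Agent.TH968.UST

namespace MT

instance cs : Countable (Sym2 ℕ) := inferInstanceAs (Countable (Quot _))

open Classical in
lemma filt {V : Type} (E : Finset (Sym2 V)) (A : (V × ℕ → I) → Set (Sym2 V))
    (hA : ∀ e, MeasurableSet {t | e ∈ A t}) (S : Finset (Sym2 V)) :
    MeasurableSet {t : V × ℕ → I | E.filter (fun e => e ∈ A t) = S} := by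
  by_cases hS : S ⊆ E
  · have h1 : {t : V × ℕ → I | E.filter (fun e => e ∈ A t) = S} =
        ⋂ e ∈ E, {t | e ∈ A t ↔ e ∈ S} := by
      ext t
      simp only [mem_iInter]
      constructor
      · intro h e he
        have h' : E.filter (fun e => e ∈ A t) = S := h
        show e ∈ A t ↔ e ∈ S
        rw [← h', Finset.mem_filter]
        exact ⟨fun h => ⟨he, h⟩, fun h => h.2⟩
      · intro h
        show E.filter (fun e => e ∈ A t) = S
        ext e
        rw [Finset.mem_filter]
        constructor
        · rintro ⟨h1, h2⟩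
          exact (h e h1).1 h2
        · intro h1
          exact ⟨hS h1, (h e (hS h1)).2 h1⟩
    rw [h1]
    refine E.measurableSet_biInter fun e _ => ?_
    by_cases he : e ∈ S
    · have h2 : {t : V × ℕ → I | e ∈ A t ↔ e ∈ S} = {t | e ∈ A t} := by
        ext t
        exact ⟨fun h => (show e ∈ A t ↔ e ∈ S from h).2 he, fun h => ⟨fun _ => he, fun _ => h⟩⟩
      rw [h2]
      exact hA e
    · have h2 : {t : V × ℕ → I | e ∈ A t ↔ e ∈ S} = {t | e ∈ A t}ᶜ := by
        ext t
        exact ⟨fun h h' => he ((show e ∈ A t ↔ e ∈ S from h).1 h'),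
          fun h => ⟨fun h' => absurd h' h, fun h' => absurd h' he⟩⟩
      rw [h2]
      exact (hA e).compl
  · have h1 : {t : V × ℕ → I | E.filter (fun e => e ∈ A t) = S} = ∅ := by
      refine eq_empty_of_forall_notMem fun t ht => hS ?_
      have ht' : E.filter (fun e => e ∈ A t) = S := ht
      rw [← ht']
      exact Finset.filter_subset _ _
    rw [h1]
    exact MeasurableSet.empty

end MT

open Classical in
/-- MT -/
theorem t_MT : S_MT := by
  intro F hF V _ K a n
  induction n with
  | zero =>
    intro e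
    have h1 : {t : V × ℕ → I | e ∈ Tr F K a t 0} = ∅ :=
      eq_empty_of_forall_notMem fun t ht => ht
    rw [h1]
    exact MeasurableSet.empty
  | succ n ih =>
    intro e
    have h1 : {t : V × ℕ → I | e ∈ Tr F K a t (n + 1)} =
        ⋃ C : Finset V, ⋃ v : V, ⋃ _ : (IsComp (K (n + 1)) C ∧ e ∈ ed (K (n + 1)) C) ∧
          v ∈ C ∧ rk a C v = 0, ⋃ S : Finset (Sym2 V),
          ({t : V × ℕ → I | (ed (K n) C).filter (fun e' => e' ∈ Tr F K a t n) = S} ∩
            ⋃ T : Finset (Sym2 ℕ), ⋃ _ : Sym2.map (rk a C) e ∈ T,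
              (fun t : V × ℕ → I => t (v, n)) ⁻¹' {u : I |
                F (code a C (ed (K (n + 1)) C)) (code a C (ed (K n) C)) (code a C S) u = T}) := by
      ext t
      simp only [mem_iUnion, mem_inter_iff, mem_preimage]
      constructor
      · rintro ⟨C, hC, he, v, hv, hr, hmem⟩
        exact ⟨C, v, ⟨⟨hC, he⟩, hv, hr⟩, _, rfl, _, hmem, rfl⟩
      · rintro ⟨C, v, ⟨⟨hC, he⟩, hv, hr⟩, S, hS, T, hT, hFT⟩
        refine ⟨C, hC, he, v, hv, hr, ?_⟩
        have hS' : (ed (K n) C).filter (fun e' => e' ∈ Tr F K a t n) = S := hS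
        have hFT' : F (code a C (ed (K (n + 1)) C)) (code a C (ed (K n) C)) (code a C S)
          (t (v, n)) = T := hFT
        rw [hS', hFT']
        exact hT
    rw [h1]
    have hcF : Countable (Sym2 V) := inferInstanceAs (Countable (Quot _))
    refine MeasurableSet.iUnion fun C => MeasurableSet.iUnion fun v => MeasurableSet.iUnion fun _ =>
      MeasurableSet.iUnion fun S => MeasurableSet.inter ?_ ?_
    · exact MT.filt (ed (K n) C) (fun t => Tr F K a t n) ih S
    · refine MeasurableSet.iUnion fun T => MeasurableSet.iUnion fun _ => ?_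
      exact (measurable_pi_apply (v, n)) (hF.meas _ _ _ _)

end Pool.Agent.Q42.UT
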