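import Pool.Agent.Q42.UT.Stm

/-!
# Project UT (helper42), job MW: measurability of the winner
-/

set_option autoImplicit false

namespace Pool.Agent.Q42.UT.MW

open MeasureTheory Set Filter Topology
open scoped ENNReal unitInterval
open Pool.Agent.TH968.UST

end Pool.Agent.Q42.UT.MW

namespace Pool.Agent.Q42.UT

open MeasureTheory Set Filter Topology
open scoped ENNReal unitInterval
open Pool.Agent.TH968.UST

theorem t_MW : S_MW := by
  intro hnu V _ Ns j x z
  have h1 : ∀ w, Measurable fun q : SimpleGraph V × (V × ℕ → I) => nu q.1 (Ns j) x w :=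
    fun w => (hnu V (Ns j) x w).comp measurable_fst
  have h2 : ∀ w, Measurable fun q : SimpleGraph V × (V × ℕ → I) => ((q.2 (w, j) : I) : ℝ) :=
    fun w => measurable_subtype_coe.comp ((measurable_pi_apply (w, j)).comp measurable_snd)
  have h3 : {q : SimpleGraph V × (V × ℕ → I) | WinJ Ns q.1 q.2 j x z} =
      {q | nu q.1 (Ns j) x z = 0}ᶜ ∩ ⋂ w : V, ⋂ _ : w ≠ z, ({q | nu q.1 (Ns j) x w = 0} ∪
        {q | ((q.2 (w, j) : I) : ℝ) ^ (nu q.1 (Ns j) x z).toReal <
          ((q.2 (z, j) : I) : ℝ) ^ (nu q.1 (Ns j) x w).toReal}) := by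
    ext q
    simp only [mem_setOf_eq, mem_inter_iff, mem_compl_iff, mem_iInter, mem_union]
    rfl
  rw [h3]
  refine ((h1 z) (measurableSet_singleton 0)).compl.inter ?_
  refine MeasurableSet.iInter fun w => MeasurableSet.iInter fun _ => ?_
  refine ((h1 w) (measurableSet_singleton 0)).union ?_
  exact measurableSet_lt ((h2 w).pow ((h1 z).ennreal_toReal)) ((h2 z).pow ((h1 w).ennreal_toReal))

end Pool.Agent.Q42.UT
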