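import Pool.Agent.Q42.UT.RwBas

/-!
# Project UT (MP_688e31_pr), job NRG (helper198)
-/

set_option autoImplicit false

namespace Pool.Agent.Q42.UT

open MeasureTheory Set Filter Topology
open scoped ENNReal unitInterval
open Pool.Agent.TH968.UST

namespace NRG

variable {V : Type} {g : SimpleGraph V}

/-- the sum of the values at the end points -/
def sm (χ : V → ℝ) : Sym2 V → ℝ := Sym2.lift ⟨fun a b => χ a + χ b, fun a b => by ring⟩

/-- the part of the energy of `e` which belongs to `v` -/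
def q (χ : V → ℝ) (v : V) (e : Sym2 V) : ℝ := χ v * (2 * χ v - sm χ e)

lemma q_pair (χ : V → ℝ) (a b : V) : q χ a s(a, b) + q χ b s(a, b) = dsq χ s(a, b) := by
  simp only [q, sm, dsq, Sym2.lift_mk]
  ring

open Classical in
lemma sum_B (χ : V → ℝ) (B : Finset V) (hB : ∀ v, v ∉ B → χ v = 0) {a b : V} (hab : a ≠ b) :
    ∑ v ∈ B, (if v ∈ s(a, b) then q χ v s(a, b) else 0) = dsq χ s(a, b) := by
  have h1 : ∑ v ∈ B, (if v ∈ s(a, b) then q χ v s(a, b) else 0) =
      ∑ v ∈ B ∪ {a, b}, (if v ∈ s(a, b) then q χ v s(a, b) else 0) := by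
    refine Finset.sum_subset Finset.subset_union_left fun v _ hv => ?_
    split_ifs
    · unfold q
      rw [hB v hv, zero_mul]
    · rfl
  have h2 : ∑ v ∈ ({a, b} : Finset V), (if v ∈ s(a, b) then q χ v s(a, b) else 0) =
      ∑ v ∈ B ∪ {a, b}, (if v ∈ s(a, b) then q χ v s(a, b) else 0) := by
    refine Finset.sum_subset Finset.subset_union_right fun v _ hv => ?_
    rw [if_neg]
    intro hve
    refine hv ?_
    rw [Sym2.mem_iff] at hve
    simpa using hve
  rw [h1, ← h2, Finset.sum_pair hab, if_pos (Sym2.mem_mk_left a b), if_pos (Sym2.mem_mk_right a b),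
    q_pair]

lemma dsq_nonneg (χ : V → ℝ) (e : Sym2 V) : 0 ≤ dsq χ e := by
  induction e with
  | _ a b =>
    simp only [dsq, Sym2.lift_mk]
    positivity

/-- summation by parts -/
lemma energy_le (h : LF g) (χ : V → ℝ) (B : Finset V) (hB : ∀ v, v ∉ B → χ v = 0)
    (E : Finset (Sym2 V)) (hE : ∀ e ∈ E, e ∈ g.edgeSet) :
    energy E χ ≤ ∑ v ∈ B, χ v * ((RwBas.nb h v).card * χ v - ∑ w ∈ RwBas.nb h v, χ w) := by
  classical
  set E2 : Finset (Sym2 V) := E ∪ B.biUnion fun v => (RwBas.nb h v).image fun w => s(v, w) with hE2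
  have hE2e : ∀ e ∈ E2, e ∈ g.edgeSet := by
    intro e he
    rw [hE2, Finset.mem_union, Finset.mem_biUnion] at he
    rcases he with he | ⟨v, _, he⟩
    · exact hE e he
    · obtain ⟨w, hw, rfl⟩ := Finset.mem_image.1 he
      exact (RwBas.mem_nb h v w).1 hw
  have h1 : energy E χ ≤ energy E2 χ := by
    unfold energy
    exact Finset.sum_le_sum_of_subset_of_nonneg Finset.subset_union_left
      fun e _ _ => dsq_nonneg χ e
  refine h1.trans (le_of_eq ?_)
  have h2 : energy E2 χ = ∑ e ∈ E2, ∑ v ∈ B, (if v ∈ e then q χ v e else 0) := by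
    unfold energy
    refine Finset.sum_congr rfl fun e he => ?_
    have hee := hE2e e he
    induction e with
    | _ a b =>
      have hab : a ≠ b := (SimpleGraph.mem_edgeSet g |>.1 hee).ne
      exact (sum_B χ B hB hab).symm
  rw [h2, Finset.sum_comm]
  refine Finset.sum_congr rfl fun v hv => ?_
  rw [← Finset.sum_filter]
  have h3 : E2.filter (fun e => v ∈ e) = (RwBas.nb h v).image fun w => s(v, w) := by
    ext e
    rw [Finset.mem_filter, Finset.mem_image]
    constructor
    · rintro ⟨he, hve⟩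
      obtain ⟨w, rfl⟩ := Sym2.mem_iff_exists.1 hve
      exact ⟨w, (RwBas.mem_nb h v w).2 (hE2e _ he), rfl⟩
    · rintro ⟨w, hw, rfl⟩
      refine ⟨?_, Sym2.mem_mk_left v w⟩
      rw [hE2, Finset.mem_union, Finset.mem_biUnion]
      exact Or.inr ⟨v, hv, Finset.mem_image_of_mem _ hw⟩
  rw [h3, Finset.sum_image]
  · have h4 : ∀ w ∈ RwBas.nb h v, q χ v s(v, w) = χ v * (χ v - χ w) := by
      intro w _
      simp only [q, sm, Sym2.lift_mk]
      ring
    rw [Finset.sum_congr rfl h4, ← Finset.mul_sum, Finset.sum_sub_distrib, Finset.sum_const,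
      nsmul_eq_mul]
  · intro w _ w' _ hww
    exact Sym2.congr_right.1 hww

lemma hit_fin (h : LF g) (x : V) (n : ℕ) : {v | hit g x n v ≠ 0}.Finite := by
  induction n with
  | zero =>
    refine (Set.finite_singleton x).subset fun v hv => ?_
    by_contra hne
    refine hv ?_
    have hne' : v ≠ x := hne
    unfold hit
    rw [if_neg hne']
  | succ n ih =>
    refine ((Set.finite_singleton x).union (ih.biUnion fun w _ => h w)).subset fun v hv => ?_
    by_cases hvx : v = x
    · exact Or.inl hvx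
    right
    by_contra hne
    simp only [Set.mem_iUnion, not_exists] at hne
    refine hv ?_
    rw [RwBas.hit_succ hvx, RwBas.avg_eq h, Finset.sum_eq_zero, ENNReal.zero_div]
    intro w hw
    by_contra hw0
    exact hne w hw0 ((RwBas.mem_nb h v w).1 hw).symm

end NRG

open NRG

theorem t_NRG : S_NRG := by
  classical
  intro V g h hn hR x δ hδ
  set D : ℝ := ((RwBas.nb h x).card : ℝ) with hD
  have hDp : 0 < D := by
    rw [hD]
    exact_mod_cast RwBas.card_pos h hn x
  have hc : 0 < δ / D := by positivity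
  obtain ⟨n, hnn⟩ : ∃ n, ENNReal.ofReal (1 - δ / D) < avg g (hit g x n) x := by
    rw [← lt_iSup_iff, hR x (hn x)]
    rw [← ENNReal.ofReal_one]
    exact (ENNReal.ofReal_lt_ofReal_iff one_pos).2 (by linarith)
  have hne : ∀ v, hit g x n v ≠ ⊤ := fun v =>
    ne_top_of_le_ne_top ENNReal.one_ne_top (RwBas.hit_le_one x n v)
  have hane : ∀ v, avg g (hit g x n) v ≠ ⊤ := fun v =>
    ne_top_of_le_ne_top ENNReal.one_ne_top (RwBas.avg_le_one v fun w => RwBas.hit_le_one x n w)
  set χ : V → ℝ := fun v => (hit g x n v).toReal with hχ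
  have hχx : χ x = 1 := by
    rw [hχ]
    simp only [RwBas.hit_self, ENNReal.toReal_one]
  have hfin : {v | χ v ≠ 0}.Finite := by
    refine (hit_fin h x n).subset fun v hv h0 => hv ?_
    rw [hχ]
    simp only [h0, ENNReal.toReal_zero]
  refine ⟨χ, hfin, fun v => ⟨ENNReal.toReal_nonneg, ?_⟩, hχx, fun E hE => ?_⟩
  · have h1 := ENNReal.toReal_mono ENNReal.one_ne_top (RwBas.hit_le_one (g := g) x n v)
    rwa [ENNReal.toReal_one] at h1
  set B : Finset V := hfin.toFinset with hB
  have hB0 : ∀ v, v ∉ B → χ v = 0 := by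
    intro v hv
    by_contra h0
    exact hv (hfin.mem_toFinset.2 h0)
  have hxB : x ∈ B := hfin.mem_toFinset.2 (by
    show χ x ≠ 0
    rw [hχx]
    exact one_ne_zero)
  refine (energy_le h χ B hB0 E hE).trans ?_
  have hsum : ∀ v, ∑ w ∈ RwBas.nb h v, χ w =
      ((RwBas.nb h v).card : ℝ) * (avg g (hit g x n) v).toReal := by
    intro v
    have hcp : (0 : ℝ) < ((RwBas.nb h v).card : ℝ) := by exact_mod_cast RwBas.card_pos h hn v
    rw [RwBas.avg_eq h, ENNReal.toReal_div, ENNReal.toReal_sum fun w _ => hne w,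
      ENNReal.toReal_natCast, mul_div_cancel₀ _ hcp.ne']
  have hterm : ∀ v ∈ B, χ v * ((RwBas.nb h v).card * χ v - ∑ w ∈ RwBas.nb h v, χ w) ≤
      if v = x then D * (1 - (avg g (hit g x n) x).toReal) else 0 := by
    intro v _
    rw [hsum v]
    split_ifs with hvx
    · rw [hvx, hχx, ← hD]
      apply le_of_eq
      ring
    · have h2 : χ v ≤ (avg g (hit g x n) v).toReal := by
        refine ENNReal.toReal_mono (hane v) ?_
        rw [← RwBas.hit_succ hvx]
        exact RwBas.hit_mono x n v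
      have h3 : (0 : ℝ) ≤ ((RwBas.nb h v).card : ℝ) := Nat.cast_nonneg _
      have h4 : 0 ≤ χ v := ENNReal.toReal_nonneg
      have h5 : ((RwBas.nb h v).card : ℝ) * χ v - (RwBas.nb h v).card * (avg g (hit g x n) v).toReal ≤ 0 := by
        nlinarith
      exact mul_nonpos_of_nonneg_of_nonpos h4 h5
  refine (Finset.sum_le_sum hterm).trans ?_
  rw [Finset.sum_ite_eq' B x, if_pos hxB]
  have h6 : 1 - δ / D ≤ (avg g (hit g x n) x).toReal :=
    (ENNReal.ofReal_le_iff_le_toReal (hane x)).1 hnn.le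
  have h7 : D * (1 - (avg g (hit g x n) x).toReal) ≤ D * (δ / D) :=
    mul_le_mul_of_nonneg_left (by linarith) hDp.le
  rwa [mul_div_cancel₀ _ hDp.ne'] at h7

end Pool.Agent.Q42.UT
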