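import Pool.Agent.Q42.UT.RwBas

/-!
# Project UT (MP_688e31_pr), job NUP (helper198)
-/

set_option autoImplicit false

namespace Pool.Agent.Q42.UT

open MeasureTheory Set Filter Topology
open scoped ENNReal unitInterval
open Pool.Agent.TH968.UST

theorem t_NUP : S_NUP := by
  intro V _ g h hn N x hN
  constructor
  · unfold nu
    simp_rw [div_eq_mul_inv]
    rw [ENNReal.tsum_mul_right, Summable.tsum_finsetSum fun _ _ => ENNReal.summable]
    simp_rw [RwBas.tsum_pn h hn]
    rw [Finset.sum_const, Finset.card_range, nsmul_eq_mul, mul_one, ← div_eq_mul_inv]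
    refine ENNReal.div_self ?_ (ENNReal.natCast_ne_top _)
    exact_mod_cast (by omega : N ≠ 0)
  · refine ((Finset.range N).finite_toSet.biUnion fun n _ => RwBas.pn_fin h n x).subset
      fun z hz => ?_
    by_contra hne
    simp only [Set.mem_iUnion, not_exists] at hne
    refine hz ?_
    unfold nu
    rw [Finset.sum_eq_zero, ENNReal.zero_div]
    intro n hn'
    by_contra hw0
    exact hne n hn' hw0

end Pool.Agent.Q42.UT
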