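import Pool.Agent.Q42.UT.Stm

/-! Project UT (helper42), job OPN (helper252): neighbours have the same winner with probability tending to one. -/

set_option autoImplicit false

namespace Pool.Agent.Q42.UT

open MeasureTheory Set Filter Topology
open scoped ENNReal unitInterval
open Pool.Agent.TH968.UST

theorem t_OPN : S_OPN := by
  intro hRACE hRC1 hREI hHIT hGRN hNUP V _ g hLF hNI hrec x y hadj
  have h1 := hREI hHIT hGRN V g hLF hNI hrec x y hadj
  refine tendsto_of_tendsto_of_tendsto_of_le_of_le' tendsto_const_nhds h1
    (Eventually.of_forall fun _ => bot_le) ?_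
  filter_upwards [eventually_ge_atTop 1] with N hN
  exact hRACE hRC1 V _ _ (hNUP V g hLF hNI N x hN).2 (hNUP V g hLF hNI N y hN).2 (hNUP V g hLF hNI N x hN).1
    (hNUP V g hLF hNI N y hN).1

end Pool.Agent.Q42.UT
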