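import Pool.Agent.Q42.UT.Stm

/-!
# UT-PRODT: trees of a disjoint union (job 33716 for helper42)
-/

set_option autoImplicit false

namespace Pool.Agent.Q42.UT.PRODT

open Pool.Agent.TH968.UST Pool.Agent.TH830.UST

/-- a path which starts in `C` stays in `C` and uses the edges in `A` only -/
theorem stay {V : Type} (C : Set V) (T A B : Set (Sym2 V)) (hT : T ⊆ A ∪ B)
    (hA : ∀ e ∈ A, ∀ v ∈ e, v ∈ C) (hB : ∀ e ∈ B, ∀ v ∈ e, v ∉ C) {a b : V}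
    (h : Conn (⊥ : Setoid V) T a b) : (a ∈ C ↔ b ∈ C) ∧ (a ∈ C → Conn (⊥ : Setoid V) (T ∩ A) a b) := by
  induction h with
  | rel a b h =>
    rcases h with h | h
    · have hab : a = b := h
      subst hab
      exact ⟨Iff.rfl, fun _ => crefl _ _ _⟩
    · rcases hT h with h1 | h1
      · have ha := hA _ h1 a (Sym2.mem_mk_left a b)
        have hb := hA _ h1 b (Sym2.mem_mk_right a b)
        exact ⟨⟨fun _ => hb, fun _ => ha⟩, fun _ => cedge ⟨h, h1⟩⟩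
      · have ha := hB _ h1 a (Sym2.mem_mk_left a b)
        have hb := hB _ h1 b (Sym2.mem_mk_right a b)
        exact ⟨⟨fun h => absurd h ha, fun h => absurd h hb⟩, fun h => absurd h ha⟩
  | refl a => exact ⟨Iff.rfl, fun _ => crefl _ _ _⟩
  | symm a b _ ih => exact ⟨ih.1.symm, fun hb => csymm (ih.2 (ih.1.2 hb))⟩
  | trans a b c _ _ ih1 ih2 =>
    exact ⟨ih1.1.trans ih2.1, fun ha => ctrans (ih1.2 ha) (ih2.2 (ih1.1.1 ha))⟩

theorem coe_rs {V : Type} (E : Finset (Sym2 V)) (S : Set (Sym2 V)) :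
    ((rs E S : Finset (Sym2 V)) : Set (Sym2 V)) = S ∩ E := by
  classical
  ext e
  simp [rs, and_comm]

theorem part {V : Type} (C : Finset V) (E₁ E₂ T E : Finset (Sym2 V))
    (hE₁ : ∀ e ∈ E₁, ∀ v ∈ e, v ∈ C) (hE₂ : ∀ e ∈ E₂, ∀ v ∈ e, v ∉ C)
    (hE : ∀ e, e ∈ E ↔ e ∈ E₁ ∨ e ∈ E₂) (hT : T ∈ trees ⊥ E) :
    rs E₁ (T : Set (Sym2 V)) ∈ trees ⊥ E₁ := by
  classical
  obtain ⟨h1, h2, h3⟩ := mem_trees.1 hT
  have hsub : (T : Set (Sym2 V)) ⊆ (E₁ : Set (Sym2 V)) ∪ E₂ := fun e he => (hE e).1 (h1 he)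
  have hsub2 : rs E₁ (T : Set (Sym2 V)) ⊆ E₁ := by
    intro e he
    rw [← Finset.mem_coe, coe_rs] at he
    exact he.2
  refine mem_trees.2 ⟨hsub2, ?_, ?_⟩
  · intro a b hab
    rw [coe_rs]
    exact (stay (C : Set V) _ _ _ hsub hE₁ hE₂ (h2 a b ((hE _).2 (Or.inl hab)))).2
      (hE₁ _ hab a (Sym2.mem_mk_left a b))
  · rw [coe_rs]
    exact h3.mono Set.inter_subset_left

theorem indep_of {V : Type} (C : Finset V) (E₁ E₂ : Finset (Sym2 V)) (T : Set (Sym2 V))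
    (hE₁ : ∀ e ∈ E₁, ∀ v ∈ e, v ∈ C) (hE₂ : ∀ e ∈ E₂, ∀ v ∈ e, v ∉ C)
    (hT : T ⊆ (E₁ : Set (Sym2 V)) ∪ E₂) (h : Indep ⊥ (T ∩ E₁)) (a b : V) (hab : s(a, b) ∈ T)
    (hab1 : s(a, b) ∈ E₁) : ¬ Conn ⊥ (T \ {s(a, b)}) a b := by
  intro hc
  apply h a b ⟨hab, hab1⟩
  refine cmono ?_ ((stay (C : Set V) _ _ _ (Set.sdiff_subset.trans hT) hE₁ hE₂ hc).2
    (hE₁ _ hab1 a (Sym2.mem_mk_left a b)))
  rintro e ⟨⟨he, he'⟩, he1⟩
  exact ⟨⟨he, he1⟩, he'⟩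

end Pool.Agent.Q42.UT.PRODT

namespace Pool.Agent.Q42.UT

open Pool.Agent.TH968.UST Pool.Agent.TH830.UST Pool.Agent.Q42.UT.PRODT

theorem t_PRODT : S_PRODT := by
  classical
  intro V C₁ C₂ E₁ E₂ T hC hE₁ hE₂ E hE
  have hE₂' : ∀ e ∈ E₂, ∀ v ∈ e, v ∉ C₁ := fun e he v hv h => hC v h (hE₂ e he v hv)
  have hE₁' : ∀ e ∈ E₁, ∀ v ∈ e, v ∉ C₂ := fun e he v hv h => hC v (hE₁ e he v hv) h
  have hE' : ∀ e, e ∈ E ↔ e ∈ E₂ ∨ e ∈ E₁ := fun e => (hE e).trans or_comm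
  constructor
  · intro hT
    exact ⟨by exact_mod_cast (mem_trees.1 hT).1, part C₁ E₁ E₂ T E hE₁ hE₂' hE hT,
      part C₂ E₂ E₁ T E hE₂ hE₁' hE' hT⟩
  · rintro ⟨hTE, hT1, hT2⟩
    have hsub : (T : Set (Sym2 V)) ⊆ (E₁ : Set (Sym2 V)) ∪ E₂ := fun e he => (hE e).1 (hTE he)
    have hsub' : (T : Set (Sym2 V)) ⊆ (E₂ : Set (Sym2 V)) ∪ E₁ := fun e he => (hE' e).1 (hTE he)
    obtain ⟨-, a2, a3⟩ := mem_trees.1 hT1
    obtain ⟨-, b2, b3⟩ := mem_trees.1 hT2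
    rw [coe_rs] at a2 a3 b2 b3
    refine mem_trees.2 ⟨by exact_mod_cast hTE, ?_, ?_⟩
    · intro a b hab
      rcases (hE _).1 hab with h | h
      · exact cmono Set.inter_subset_left (a2 a b h)
      · exact cmono Set.inter_subset_left (b2 a b h)
    · intro a b hab
      rcases hsub hab with h | h
      · exact indep_of C₁ E₁ E₂ T hE₁ hE₂' hsub a3 a b hab h
      · exact indep_of C₂ E₂ E₁ T hE₂ hE₁' hsub' b3 a b hab h

end Pool.Agent.Q42.UT
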