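import Pool.Agent.Q42.UT.Stm

/-! # RACE: the probability that both races have the same winner (project UT, MP_688e31_pr) -/

set_option autoImplicit false

namespace Pool.Agent.Q42.UT

open MeasureTheory Set Filter Topology
open scoped ENNReal unitInterval
open Pool.Agent.TH968.UST

namespace RACE

theorem win_of {V : Type} (p : V → ℝ≥0∞) (hpf : ∀ z, p z ≠ ∞) (M : V → ℝ) (mz : ℝ) (z : V)
    (U : V → I) (hpz : p z ≠ 0) (hm : 0 < mz) (hmp : mz ≤ (p z).toReal)
    (hM : ∀ w, (p w).toReal ≤ M w)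
    (h : ∀ w, w ≠ z → p w ≠ 0 → ((U w : I) : ℝ) < ((U z : I) : ℝ) ^ (M w / mz)) : Win p U z := by
  refine ⟨hpz, fun w hw => ?_⟩
  by_cases h0 : p w = 0
  · exact Or.inl h0
  right
  have h1 := h w hw h0
  have hpw : 0 < (p w).toReal := ENNReal.toReal_pos h0 (hpf w)
  have hpz' : 0 < (p z).toReal := ENNReal.toReal_pos hpz (hpf z)
  have hMw : 0 < M w := hpw.trans_le (hM w)
  have hc : 0 < M w / mz := div_pos hMw hm
  have hUz : 0 < ((U z : I) : ℝ) := by
    rcases (U z).2.1.lt_or_eq with h2 | h2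
    · exact h2
    · exfalso
      rw [← h2, Real.zero_rpow hc.ne'] at h1
      exact absurd h1 (not_lt.2 (U w).2.1)
  calc ((U w : I) : ℝ) ^ (p z).toReal < (((U z : I) : ℝ) ^ (M w / mz)) ^ (p z).toReal :=
        Real.rpow_lt_rpow (U w).2.1 h1 hpz'
    _ = ((U z : I) : ℝ) ^ (M w / mz * (p z).toReal) := (Real.rpow_mul hUz.le _ _).symm
    _ ≤ ((U z : I) : ℝ) ^ (p w).toReal := by
        refine Real.rpow_le_rpow_of_exponent_ge hUz (U z).2.2 ?_
        calc (p w).toReal ≤ M w := hM w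
          _ = M w / mz * mz := (div_mul_cancel₀ _ hm.ne').symm
          _ ≤ M w / mz * (p z).toReal := mul_le_mul_of_nonneg_left hmp hc.le

theorem win_unique {V : Type} (p : V → ℝ≥0∞) (U : V → I) (z z' : V) (h : Win p U z)
    (h' : Win p U z') : z = z' := by
  by_contra hne
  have h1 := (h.2 z' (Ne.symm hne)).resolve_left h'.1
  have h2 := (h'.2 z hne).resolve_left h.1
  exact absurd h1 (not_lt.2 h2.le)

theorem meas_A {V : Type} (z : V) (T : Finset V) (c : V → ℝ) :
    MeasurableSet {U : V → I | ∀ w ∈ T, ((U w : I) : ℝ) < ((U z : I) : ℝ) ^ c w} := by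
  have : {U : V → I | ∀ w ∈ T, ((U w : I) : ℝ) < ((U z : I) : ℝ) ^ c w} =
      ⋂ w ∈ T, {U : V → I | ((U w : I) : ℝ) < ((U z : I) : ℝ) ^ c w} := by
    ext U; simp
  rw [this]
  refine Finset.measurableSet_biInter _ fun w _ => ?_
  refine measurableSet_lt ?_ ?_
  · exact measurable_subtype_coe.comp (measurable_pi_apply w)
  · exact (measurable_subtype_coe.comp (measurable_pi_apply z)).pow_const (c w)

end RACE

theorem t_RACE0 (h0 : S_RC0) : S_RACE := by
  intro hRC V _ p q hp hq hp1 hq1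
  classical
  have hRC1 := hRC h0
  have hpf : ∀ z, p z ≠ ∞ := fun z => ne_top_of_le_ne_top ENNReal.one_ne_top
    (hp1 ▸ ENNReal.le_tsum z)
  have hqf : ∀ z, q z ≠ ∞ := fun z => ne_top_of_le_ne_top ENNReal.one_ne_top
    (hq1 ▸ ENNReal.le_tsum z)
  set S : Finset V := hp.toFinset ∪ hq.toFinset with hS
  have hpS : ∀ z, z ∉ S → p z = 0 := by
    intro z hz
    by_contra h
    exact hz (Finset.mem_union_left _ (hp.mem_toFinset.2 h))
  have hqS : ∀ z, z ∉ S → q z = 0 := by
    intro z hz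
    by_contra h
    exact hz (Finset.mem_union_right _ (hq.mem_toFinset.2 h))
  set P : V → ℝ := fun z => (p z).toReal with hP
  set Q : V → ℝ := fun z => (q z).toReal with hQ
  have hP0 : ∀ z, 0 ≤ P z := fun z => ENNReal.toReal_nonneg
  have hQ0 : ∀ z, 0 ≤ Q z := fun z => ENNReal.toReal_nonneg
  have sP : ∑ z ∈ S, P z = 1 := by
    have h1 : ∑' z, p z = ∑ z ∈ S, p z := tsum_eq_sum fun z hz => hpS z hz
    rw [hp1] at h1
    have h2 := congrArg ENNReal.toReal h1
    rw [ENNReal.toReal_one, ENNReal.toReal_sum (fun z _ => hpf z)] at h2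
    exact h2.symm
  have sQ : ∑ z ∈ S, Q z = 1 := by
    have h1 : ∑' z, q z = ∑ z ∈ S, q z := tsum_eq_sum fun z hz => hqS z hz
    rw [hq1] at h1
    have h2 := congrArg ENNReal.toReal h1
    rw [ENNReal.toReal_one, ENNReal.toReal_sum (fun z _ => hqf z)] at h2
    exact h2.symm
  set m : V → ℝ := fun z => min (P z) (Q z) with hm
  set M : V → ℝ := fun z => max (P z) (Q z) with hM
  have hm0 : ∀ z, 0 ≤ m z := fun z => le_min (hP0 z) (hQ0 z)
  have hM0 : ∀ z, 0 ≤ M z := fun z => le_max_of_le_left (hP0 z)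
  have hmM : ∀ z, m z ≤ M z := fun z => (min_le_left _ _).trans (le_max_left _ _)
  set a : ℝ := ∑ z ∈ S, m z with ha
  set b : ℝ := ∑ z ∈ S, M z with hb
  have hb1 : 1 ≤ b := by
    rw [← sP]
    exact Finset.sum_le_sum fun z _ => le_max_left _ _
  have ha0 : 0 ≤ a := Finset.sum_nonneg fun z _ => hm0 z
  have hab : a ≤ b := Finset.sum_le_sum fun z _ => hmM z
  have hb0 : 0 < b := by linarith
  -- the distance
  have hd : d1 p q = ENNReal.ofReal (b - a) := by
    unfold d1
    rw [tsum_eq_sum (s := S) (fun z hz => by rw [hpS z hz, hqS z hz]; simp)]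
    rw [hb, ha, ← Finset.sum_sub_distrib,
      ENNReal.ofReal_sum_of_nonneg (fun z _ => sub_nonneg.2 (hmM z))]
    refine Finset.sum_congr rfl fun z _ => ?_
    have e1 : p z = ENNReal.ofReal (P z) := (ENNReal.ofReal_toReal (hpf z)).symm
    have e2 : q z = ENNReal.ofReal (Q z) := (ENNReal.ofReal_toReal (hqf z)).symm
    rw [e1, e2]
    rcases le_total (P z) (Q z) with h | h
    · have f1 : M z = Q z := max_eq_right h
      have f2 : m z = P z := min_eq_left h
      rw [f1, f2, ← ENNReal.ofReal_sub _ (hP0 z),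
        tsub_eq_zero_of_le (ENNReal.ofReal_le_ofReal h), zero_add]
    · have f1 : M z = P z := max_eq_left h
      have f2 : m z = Q z := min_eq_right h
      rw [f1, f2, ← ENNReal.ofReal_sub _ (hQ0 z),
        tsub_eq_zero_of_le (ENNReal.ofReal_le_ofReal h), add_zero]
  -- the events
  set S' : Finset V := S.filter fun z => m z ≠ 0 with hS'
  set A : V → Set (V → I) := fun z =>
    {U | ∀ w ∈ S.erase z, ((U w : I) : ℝ) < ((U z : I) : ℝ) ^ (M w / m z)} with hA
  have hmeas : ∀ z, MeasurableSet (A z) := fun z => RACE.meas_A z (S.erase z) fun w => M w / m z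
  have hmpos : ∀ z ∈ S', 0 < m z := fun z hz =>
    lt_of_le_of_ne (hm0 z) (Ne.symm (Finset.mem_filter.1 hz).2)
  have hpz : ∀ z, 0 < m z → p z ≠ 0 := by
    intro z hz h
    have : P z = 0 := by rw [hP]; simp [h]
    have h2 : m z ≤ 0 := (min_le_left _ _).trans this.le
    linarith
  have hqz : ∀ z, 0 < m z → q z ≠ 0 := by
    intro z hz h
    have : Q z = 0 := by rw [hQ]; simp [h]
    have h2 : m z ≤ 0 := (min_le_right _ _).trans this.le
    linarith
  have hwp : ∀ z ∈ S', ∀ U ∈ A z, Win p U z := by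
    intro z hz U hU
    refine RACE.win_of p hpf M (m z) z U (hpz z (hmpos z hz)) (hmpos z hz) (min_le_left _ _)
      (fun w => le_max_left _ _) fun w hw hw0 => hU w ?_
    refine Finset.mem_erase.2 ⟨hw, ?_⟩
    by_contra h
    exact hw0 (hpS w h)
  have hwq : ∀ z ∈ S', ∀ U ∈ A z, Win q U z := by
    intro z hz U hU
    refine RACE.win_of q hqf M (m z) z U (hqz z (hmpos z hz)) (hmpos z hz) (min_le_right _ _)
      (fun w => le_max_right _ _) fun w hw hw0 => hU w ?_
    refine Finset.mem_erase.2 ⟨hw, ?_⟩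
    by_contra h
    exact hw0 (hqS w h)
  have hdisj : (S' : Set V).PairwiseDisjoint A := by
    intro z hz z' hz' hne
    refine Set.disjoint_left.2 fun U hU hU' => hne ?_
    exact RACE.win_unique p U z z' (hwp z hz U hU) (hwp z' hz' U hU')
  have hprob : ∀ z ∈ S', ENNReal.ofReal (m z / b) ≤ lu V (A z) := by
    intro z hz
    have hz0 := hmpos z hz
    rw [hRC1 V z (S.erase z) (fun w => M w / m z) (Finset.notMem_erase z S)
      (fun w => div_nonneg (hM0 w) hz0.le)]
    refine ENNReal.ofReal_le_ofReal ?_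
    have hzS : z ∈ S := (Finset.mem_filter.1 hz).1
    rw [← Finset.sum_div]
    have h1 : m z + ∑ w ∈ S.erase z, M w ≤ b := by
      rw [hb, ← Finset.add_sum_erase S M hzS]
      linarith [hmM z]
    have h2 : 0 ≤ ∑ w ∈ S.erase z, M w := Finset.sum_nonneg fun w _ => hM0 w
    have h3 : 1 / (1 + (∑ w ∈ S.erase z, M w) / m z) = m z / (m z + ∑ w ∈ S.erase z, M w) := by
      field_simp
    rw [h3]
    exact div_le_div_of_nonneg_left hz0.le (by linarith) h1
  have hsum : ENNReal.ofReal (a / b) ≤ lu V (⋃ z ∈ S', A z) := by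
    rw [measure_biUnion_finset hdisj fun z _ => hmeas z]
    have h1 : a / b = ∑ z ∈ S', m z / b := by
      rw [ha, Finset.sum_div, hS', Finset.sum_filter]
      refine Finset.sum_congr rfl fun z _ => ?_
      split_ifs with h
      · rfl
      · push Not at h
        rw [h, zero_div]
    rw [h1, ENNReal.ofReal_sum_of_nonneg (fun z _ => div_nonneg (hm0 z) hb0.le)]
    exact Finset.sum_le_sum fun z hz => hprob z hz
  have hcompl : {U : V → I | ¬ ∃ z, Win p U z ∧ Win q U z} ⊆ (⋃ z ∈ S', A z)ᶜ := by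
    intro U hU hU'
    obtain ⟨z, hz, hUz⟩ := mem_iUnion₂.1 hU'
    exact hU ⟨z, hwp z hz U hUz, hwq z hz U hUz⟩
  refine (measure_mono hcompl).trans ?_
  rw [prob_compl_eq_one_sub (Finset.measurableSet_biUnion _ fun z _ => hmeas z), hd]
  refine (tsub_le_tsub_left hsum 1).trans ?_
  rw [← ENNReal.ofReal_one, ← ENNReal.ofReal_sub _ (div_nonneg ha0 hb0.le)]
  refine ENNReal.ofReal_le_ofReal ?_
  have h1 : 1 - a / b = (b - a) / b := by field_simp
  rw [h1, div_le_iff₀ hb0]
  nlinarith [sub_nonneg.2 hab]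

end Pool.Agent.Q42.UT
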