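import Pool.Agent.Q42.UT.Stm

/-!
# Project UT (helper42), MP_688e31_pr: the race in an infinite product
-/

set_option autoImplicit false

namespace Pool.Agent.Q42.UT

open MeasureTheory Set Filter Topology
open scoped ENNReal unitInterval
open Pool.Agent.TH968.UST

namespace RC1

/-- The law of finitely many labels. -/
theorem map_inj_pi {V : Type} {m : ℕ} (f : Fin m → V) (hf : Function.Injective f) :
    (lu V).map (fun U j => U (f j)) = Measure.pi fun _ : Fin m => (volume : Measure I) := by
  classical
  symm
  refine Measure.pi_eq fun s hs => ?_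
  have hm : Measurable (fun (U : V → I) (j : Fin m) => U (f j)) :=
    measurable_pi_lambda _ fun j => measurable_pi_apply (f j)
  rw [Measure.map_apply hm (MeasurableSet.univ_pi hs)]
  have e : (fun (U : V → I) (j : Fin m) => U (f j)) ⁻¹' (Set.univ.pi s) =
      Set.pi (Finset.univ.image f : Finset V) (Function.extend f s fun _ => Set.univ) := by
    ext U
    simp only [Set.mem_preimage, Set.mem_pi, Set.mem_univ, true_imp_iff, Finset.coe_image,
      Finset.coe_univ, Set.image_univ, Set.mem_range, forall_exists_index,
      forall_apply_eq_imp_iff]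
    refine forall_congr' fun j => ?_
    rw [hf.extend_apply]
  rw [e, Measure.infinitePi_pi]
  · rw [Finset.prod_image fun a _ b _ h => hf h]
    refine Finset.prod_congr rfl fun j _ => ?_
    rw [hf.extend_apply]
  · intro v hv
    obtain ⟨j, -, rfl⟩ := Finset.mem_image.1 hv
    rw [hf.extend_apply]
    exact hs j

end RC1

open RC1 in
theorem t_RC1 : S_RC1 := by
  classical
  intro h0 V z S c hz hc
  let e : Fin S.card ≃ S := S.equivFin.symm
  let f : Fin (S.card + 1) → V := Fin.cons z (fun j => (e j : V))
  have hf : Function.Injective f := by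
    rw [Fin.cons_injective_iff]
    refine ⟨?_, fun a b h => e.injective (Subtype.ext h)⟩
    rintro ⟨j, hj⟩
    apply hz
    rw [← hj]
    exact (e j).2
  have h1 := h0 S.card (fun j => c (e j)) fun j => hc _
  rw [← map_inj_pi f hf, Measure.map_apply] at h1
  · have h2 : ∑ w : Fin S.card, c (e w) = ∑ w ∈ S, c w := by
      rw [← Finset.sum_coe_sort S c]
      exact Equiv.sum_comp e fun w : S => c w
    rw [h2] at h1
    rw [← h1]
    refine congrArg _ ?_
    ext U
    simp only [Set.mem_setOf_eq, Set.mem_preimage]
    constructor
    · intro h j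
      exact h _ (e j).2
    · intro h w hw
      have h3 := h (e.symm ⟨w, hw⟩)
      have h4 : f (e.symm ⟨w, hw⟩).succ = w := by
        show ((e (e.symm ⟨w, hw⟩) : S) : V) = w
        rw [Equiv.apply_symm_apply]
      have h5 : f 0 = z := rfl
      rw [h4, h5, Equiv.apply_symm_apply] at h3
      exact h3
  · exact measurable_pi_lambda _ fun j => measurable_pi_apply (f j)
  · rw [Set.setOf_forall]
    refine MeasurableSet.iInter fun w => ?_
    refine measurableSet_lt ?_ ?_
    · exact measurable_subtype_coe.comp (measurable_pi_apply _)
    · exact (measurable_subtype_coe.comp (measurable_pi_apply _)).pow_const _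

end Pool.Agent.Q42.UT
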