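import Pool.Agent.Q42.UT.Stm2

/-!
# Project UT (MP_688e31_pr): the sum of `nu g N x z` over the starting points `x` is finite
-/

set_option autoImplicit false

namespace Pool.Agent.Q42.UT.REV

open MeasureTheory Set Filter Topology
open scoped ENNReal unitInterval
open Pool.Agent.TH968.UST

theorem tsum_ne_top {α : Type} (f : α → ℝ≥0∞) (s : Set α) (hs : s.Finite)
    (h0 : ∀ x, x ∉ s → f x = 0) (hf : ∀ x, f x ≠ ∞) : ∑' x, f x ≠ ∞ := by
  classical
  rw [tsum_eq_sum (s := hs.toFinset) (fun x hx => h0 x (by simpa using hx))]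
  exact ENNReal.sum_ne_top.2 fun x _ => hf x

theorem pn_supp {V : Type} (g : SimpleGraph V) (hg : LF g) (z : V) (n : ℕ) :
    {x | pn g n x z ≠ 0}.Finite := by
  classical
  induction n with
  | zero =>
    refine (Set.finite_singleton z).subset fun x hx => ?_
    simp only [pn, ne_eq, Set.mem_ofPred_eq, ite_eq_right_iff, one_ne_zero, imp_false,
      not_not] at hx
    exact hx
  | succ n ih =>
    refine (ih.biUnion (t := fun w => {x | g.Adj w x}) fun w _ => hg w).subset fun x hx => ?_
    have h1 : avg g (fun w => pn g n w z) x ≠ 0 := hx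
    unfold avg at h1
    have h2 : (∑' w, if g.Adj x w then pn g n w z else 0) ≠ 0 := by
      intro h
      rw [h, ENNReal.zero_div] at h1
      exact h1 rfl
    rw [ne_eq, ENNReal.tsum_eq_zero] at h2
    push Not at h2
    obtain ⟨w, hw⟩ := h2
    have h3 : g.Adj x w := by
      by_contra h
      rw [if_neg h] at hw
      exact hw rfl
    rw [if_pos h3] at hw
    rw [Set.mem_iUnion₂]
    exact ⟨w, hw, h3.symm⟩

theorem pn_ne_top {V : Type} (g : SimpleGraph V) (hg : LF g) (hi : NI g) (z : V) (n : ℕ) :
    ∀ x, pn g n x z ≠ ∞ := by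
  classical
  induction n with
  | zero =>
    intro x
    simp only [pn]
    split_ifs <;> simp
  | succ n ih =>
    intro x
    show avg g (fun w => pn g n w z) x ≠ ∞
    unfold avg
    refine ENNReal.div_ne_top ?_ ?_
    · refine tsum_ne_top _ {w | g.Adj x w} (hg x) (fun w hw => if_neg hw) fun w => ?_
      split_ifs
      · exact ih w
      · simp
    · obtain ⟨w, hw⟩ := hi x
      intro h
      rw [ENNReal.tsum_eq_zero] at h
      have h2 := h w
      rw [if_pos hw] at h2
      exact one_ne_zero h2

theorem rev {V : Type} (g : SimpleGraph V) (hg : LF g) (hi : NI g) (N : ℕ) (z : V) :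
    ∑' x, nu g N x z ≠ ∞ := by
  refine tsum_ne_top _ (⋃ n ∈ Finset.range N, {x | pn g n x z ≠ 0})
    ((Finset.range N).finite_toSet.biUnion fun n _ => pn_supp g hg z n) (fun x hx => ?_)
    fun x => ?_
  · unfold nu
    have h : ∑ n ∈ Finset.range N, pn g n x z = 0 := by
      refine Finset.sum_eq_zero fun n hn => ?_
      by_contra h
      exact hx (Set.mem_iUnion₂.2 ⟨n, hn, h⟩)
    rw [h, ENNReal.zero_div]
  · unfold nu
    rcases Nat.eq_zero_or_pos N with h | h
    · subst h
      simp
    · exact ENNReal.div_ne_top (ENNReal.sum_ne_top.2 fun n _ => pn_ne_top g hg hi z n x)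
        (by exact_mod_cast h.ne')

end Pool.Agent.Q42.UT.REV

theorem Pool.Agent.Q42.UT.t_REV : Pool.Agent.Q42.UT.S_REV :=
  fun _ _ g hg hi N z => Pool.Agent.Q42.UT.REV.rev g hg hi N z
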