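import Pool.Agent.Q42.UT.Stm

/-!
# Project UT, job SPL: one uniform number contains three independent sets of labels
-/

set_option autoImplicit false

open MeasureTheory Set Filter Topology
open scoped ENNReal unitInterval

namespace Pool.Agent.Q42.UT.SPL

open Pool.Agent.Q42.UT

/-- Renaming of the indices. -/
theorem map_inj {A B : Type} (e : A → B) (he : Function.Injective e) :
    (lu B).map (fun r a => r (e a)) = lu A := by
  classical
  refine Measure.eq_infinitePi _ fun s t ht => ?_
  rw [Measure.map_apply (by fun_prop) (MeasurableSet.pi s.countable_toSet fun i _ => ht i)]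
  have h1 : (fun (r : B → I) (a : A) => r (e a)) ⁻¹' (Set.pi s t) =
      Set.pi (s.map ⟨e, he⟩ : Finset B) (fun b => if h : ∃ a, e a = b then t h.choose else Set.univ) := by
    ext r
    simp only [Set.mem_preimage, Set.mem_pi, Finset.mem_coe, Finset.mem_map, Function.Embedding.coeFn_mk,
      forall_exists_index, and_imp, forall_apply_eq_imp_iff₂]
    refine forall₂_congr fun a _ => ?_
    have h : ∃ a', e a' = e a := ⟨a, rfl⟩
    rw [dif_pos h, he h.choose_spec]
  rw [h1, Measure.infinitePi_pi, Finset.prod_map]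
  · refine Finset.prod_congr rfl fun a _ => ?_
    have h : ∃ a', e a' = e a := ⟨a, rfl⟩
    simp only [Function.Embedding.coeFn_mk]
    rw [dif_pos h, he h.choose_spec]
  · intro b _
    split_ifs
    · exact ht _
    · exact MeasurableSet.univ

/-- Two blocks of indices. -/
theorem map_sum (A B : Type) :
    ((lu A).prod (lu B)).map (fun p => (Sum.elim p.1 p.2 : A ⊕ B → I)) = lu (A ⊕ B) := by
  classical
  have hm : Measurable (fun p : (A → I) × (B → I) => (Sum.elim p.1 p.2 : A ⊕ B → I)) := by
    refine measurable_pi_iff.2 fun i => ?_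
    rcases i with a | b
    · exact (measurable_pi_apply a).comp measurable_fst
    · exact (measurable_pi_apply b).comp measurable_snd
  refine Measure.eq_infinitePi _ fun s t ht => ?_
  rw [Measure.map_apply hm (MeasurableSet.pi s.countable_toSet fun i _ => ht i)]
  have h1 : (fun p : (A → I) × (B → I) => (Sum.elim p.1 p.2 : A ⊕ B → I)) ⁻¹' (Set.pi s t) =
      (Set.pi (s.toLeft : Finset A) fun a => t (.inl a)) ×ˢ (Set.pi (s.toRight : Finset B) fun b => t (.inr b)) := by
    ext p
    simp [Set.mem_pi]
  rw [h1, Measure.prod_prod, Measure.infinitePi_pi _ fun i _ => ht _, Measure.infinitePi_pi _ fun i _ => ht _]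
  conv_rhs => rw [← Finset.toLeft_disjSum_toRight (u := s), Finset.prod_disjSum]

/-- the index set -/
abbrev K : Type := Unit ⊕ (ℕ ⊕ ℕ)

/-- the renaming -/
def ee (V : Type) : V ⊕ ((V × ℕ) ⊕ (V × ℕ)) → V × K
  | .inl v => (v, .inl ())
  | .inr (.inl p) => (p.1, .inr (.inl p.2))
  | .inr (.inr p) => (p.1, .inr (.inr p.2))

theorem ee_inj (V : Type) : Function.Injective (ee V) := by
  rintro (v | ⟨v, n⟩ | ⟨v, n⟩) (w | ⟨w, m⟩ | ⟨w, m⟩) h <;> simp_all [ee]

theorem map_block {V : Type} {ψ : I → K → I} (hψ : Measurable ψ) (h : (volume : Measure I).map ψ = lu K) :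
    (lu V).map (fun (u : V → I) (p : V × K) => ψ (u p.1) p.2) = lu (V × K) := by
  have h1 : (lu V).map (fun (u : V → I) (v : V) => ψ (u v)) = Measure.infinitePi fun _ : V => lu K := by
    rw [Measure.infinitePi_map_pi (μ := fun _ : V => (volume : Measure I)) (f := fun _ => ψ) fun _ => hψ]
    simp only [h]
  have h2 := Measure.infinitePi_map_curry_symm (fun (_ : V) (_ : K) => (volume : Measure I))
  rw [← h1, Measure.map_map (by fun_prop) (by fun_prop)] at h2
  exact h2

end SPL

open SPL in
/-- job SPL -/
theorem t_SPL : S_SPL := by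
  obtain ⟨ψ, hψ, h⟩ := MeasureTheory.Measure.exists_measurable_map_eq (lu K)
  have hc : ∀ k, Measurable fun x => ψ x k := fun k => (measurable_pi_apply k).comp hψ
  refine ⟨fun x => ψ x (.inl ()), fun x n => ψ x (.inr (.inl n)), fun x n => ψ x (.inr (.inr n)), hc _,
    measurable_pi_iff.2 fun n => hc _, measurable_pi_iff.2 fun n => hc _, fun V _ => ?_⟩
  have hs : ∀ A B : Type, Measurable (fun p : (A → I) × (B → I) => (Sum.elim p.1 p.2 : A ⊕ B → I)) := by
    intro A B
    refine measurable_pi_iff.2 fun i => ?_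
    rcases i with a | b
    · exact (measurable_pi_apply a).comp measurable_fst
    · exact (measurable_pi_apply b).comp measurable_snd
  have ht : ∀ A B : Type, Measurable
      (fun r : A ⊕ B → I => ((fun a => r (.inl a) : A → I), (fun b => r (.inr b) : B → I))) := by
    intro A B
    fun_prop
  have h0 : ∀ A B : Type, (lu (A ⊕ B)).map
      (fun r : A ⊕ B → I => ((fun a => r (.inl a) : A → I), (fun b => r (.inr b) : B → I))) =
      (lu A).prod (lu B) := by
    intro A B
    rw [← map_sum, Measure.map_map (ht A B) (hs A B)]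
    exact Measure.map_id
  have h1 : (lu (V ⊕ ((V × ℕ) ⊕ (V × ℕ)))).map (fun r => ((fun v => r (.inl v) : V → I),
      ((fun p => r (.inr (.inl p)) : V × ℕ → I), (fun p => r (.inr (.inr p)) : V × ℕ → I)))) =
      (lu V).prod ((lu (V × ℕ)).prod (lu (V × ℕ))) := by
    rw [← h0 (V × ℕ) (V × ℕ)]
    conv_rhs => rw [← Measure.map_id (μ := lu V)]
    rw [Measure.map_prod_map _ _ measurable_id (ht _ _), ← h0 V, Measure.map_map
      (measurable_id.prodMap (ht _ _)) (ht _ _)]
    rfl
  have hm : Measurable (fun r : V ⊕ ((V × ℕ) ⊕ (V × ℕ)) → I => ((fun v => r (.inl v) : V → I),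
      ((fun p => r (.inr (.inl p)) : V × ℕ → I), (fun p => r (.inr (.inr p)) : V × ℕ → I)))) := by fun_prop
  have hp : Measurable (fun (u : V → I) (p : V × K) => ψ (u p.1) p.2) :=
    measurable_pi_iff.2 fun p => (hc p.2).comp (measurable_pi_apply p.1)
  rw [← h1, ← map_inj (ee V) (ee_inj V), ← map_block hψ h, Measure.map_map hm (by fun_prop),
    Measure.map_map (hm.comp (by fun_prop)) hp]
  rfl

end Pool.Agent.Q42.UT
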