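import Pool.Agent.Q42.UT.Stm

/-!
# Project UT (MP_688e31_pr), job STP: one step of the law of the trees of the tower
-/

set_option autoImplicit false

namespace Pool.Agent.Q42.UT

open MeasureTheory Set Filter Topology
open scoped ENNReal unitInterval
open Pool.Agent.TH968.UST

namespace STPAux

theorem map_inj {V W : Type} {i : V → W} {C : Finset V}
    (hi : ∀ x ∈ C, ∀ y ∈ C, i x = i y → x = y) : ∀ e e' : Sym2 V, (∀ v ∈ e, v ∈ C) →
    (∀ v ∈ e', v ∈ C) → Sym2.map i e = Sym2.map i e' → e = e' := by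
  intro e e'
  refine Sym2.ind (fun x y => ?_) e
  refine Sym2.ind (fun x' y' => ?_) e'
  intro h h' he
  rw [Sym2.map_mk, Sym2.map_mk, Sym2.eq_iff] at he
  have hx := h x (Sym2.mem_mk_left x y)
  have hy := h y (Sym2.mem_mk_right x y)
  have hx' := h' x' (Sym2.mem_mk_left x' y')
  have hy' := h' y' (Sym2.mem_mk_right x' y')
  rcases he with ⟨h1, h2⟩ | ⟨h1, h2⟩
  · rw [hi x hx x' hx' h1, hi y hy y' hy' h2]
  · rw [hi x hx y' hy' h1, hi y hy x' hx' h2, Sym2.eq_swap]

theorem mem_ed {V : Type} {K : SimpleGraph V} {C : Finset V} {e : Sym2 V} :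
    e ∈ ed K C ↔ (∀ v ∈ e, v ∈ C) ∧ e ∈ K.edgeSet := by
  classical
  unfold ed
  rw [Finset.mem_filter, Finset.mem_sym2_iff]

theorem mem_code {V : Type} {a : V → I} {C : Finset V} {S : Finset (Sym2 V)} {e : Sym2 ℕ} :
    e ∈ code a C S ↔ ∃ e₀ ∈ S, Sym2.map (rk a C) e₀ = e := by
  unfold code
  rw [Finset.mem_image]

theorem mem_rs {V : Type} {E : Finset (Sym2 V)} {S : Set (Sym2 V)} {e : Sym2 V} :
    e ∈ rs E S ↔ e ∈ E ∧ e ∈ S := by
  classical
  unfold rs
  rw [Finset.mem_filter]

theorem sub_of_trees {V : Type} {r : Setoid V} {E T : Finset (Sym2 V)} (h : T ∈ trees r E) :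
    T ⊆ E := by
  classical
  unfold trees at h
  exact Finset.mem_powerset.1 (Finset.mem_filter.1 h).1

section code

variable {V : Type} {a : V → I} {C : Finset V}

theorem mem_code_iff (hi : ∀ x ∈ C, ∀ y ∈ C, rk a C x = rk a C y → x = y) {S : Finset (Sym2 V)}
    (hS : ∀ e ∈ S, ∀ v ∈ e, v ∈ C) {e : Sym2 V} (he : ∀ v ∈ e, v ∈ C) :
    Sym2.map (rk a C) e ∈ code a C S ↔ e ∈ S := by
  rw [mem_code]
  constructor
  · rintro ⟨e₀, h0, h1⟩
    rw [← map_inj hi e₀ e (hS e₀ h0) he h1]
    exact h0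
  · intro h
    exact ⟨e, h, rfl⟩

theorem code_inj (hi : ∀ x ∈ C, ∀ y ∈ C, rk a C x = rk a C y → x = y) {S T : Finset (Sym2 V)}
    (hS : ∀ e ∈ S, ∀ v ∈ e, v ∈ C) (hT : ∀ e ∈ T, ∀ v ∈ e, v ∈ C)
    (h : code a C S = code a C T) : S = T := by
  ext e
  constructor
  · intro he
    rw [← mem_code_iff hi hT (hS e he), ← h, mem_code_iff hi hS (hS e he)]
    exact he
  · intro he
    rw [← mem_code_iff hi hS (hT e he), h, mem_code_iff hi hT (hT e he)]
    exact he

theorem code_trees (hM : S_MAPT) (hi : ∀ x ∈ C, ∀ y ∈ C, rk a C x = rk a C y → x = y)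
    {E T : Finset (Sym2 V)} (hE : ∀ e ∈ E, ∀ v ∈ e, v ∈ C) (hT : T ⊆ E) :
    code a C T ∈ trees ⊥ (code a C E) ↔ T ∈ trees ⊥ E :=
  hM V ℕ (rk a C) C E T hi hE hT (code a C E) (code a C T) (fun _ => mem_code) (fun _ => mem_code)

open Classical in
theorem image_trees (hM : S_MAPT) (hi : ∀ x ∈ C, ∀ y ∈ C, rk a C x = rk a C y → x = y)
    {E : Finset (Sym2 V)} (hE : ∀ e ∈ E, ∀ v ∈ e, v ∈ C) :
    (trees ⊥ E).image (code a C) = trees ⊥ (code a C E) := by
  ext T
  rw [Finset.mem_image]
  constructor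
  · rintro ⟨T₀, h0, rfl⟩
    exact (code_trees hM hi hE (sub_of_trees h0)).2 h0
  · intro h
    have hsub := sub_of_trees h
    have hc : code a C (E.filter fun e => Sym2.map (rk a C) e ∈ T) = T := by
      ext e
      rw [mem_code]
      constructor
      · rintro ⟨e₀, h0, rfl⟩
        exact (Finset.mem_filter.1 h0).2
      · intro he
        obtain ⟨e₀, h0, h1⟩ := mem_code.1 (hsub he)
        exact ⟨e₀, Finset.mem_filter.2 ⟨h0, by rw [h1]; exact he⟩, h1⟩
    refine ⟨E.filter fun e => Sym2.map (rk a C) e ∈ T, ?_, hc⟩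
    rw [← code_trees hM hi hE (Finset.filter_subset _ _), hc]
    exact h

theorem injOn_trees (hi : ∀ x ∈ C, ∀ y ∈ C, rk a C x = rk a C y → x = y)
    {E : Finset (Sym2 V)} (hE : ∀ e ∈ E, ∀ v ∈ e, v ∈ C) :
    Set.InjOn (code a C) (trees ⊥ E : Finset (Finset (Sym2 V))) := by
  intro S hS T hT h
  exact code_inj hi (fun e he => hE e (sub_of_trees hS he)) (fun e he => hE e (sub_of_trees hT he)) h

theorem card_trees (hM : S_MAPT) (hi : ∀ x ∈ C, ∀ y ∈ C, rk a C x = rk a C y → x = y)
    {E : Finset (Sym2 V)} (hE : ∀ e ∈ E, ∀ v ∈ e, v ∈ C) :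
    (trees ⊥ (code a C E)).card = (trees ⊥ E).card := by
  classical
  rw [← image_trees hM hi hE, Finset.card_image_of_injOn (injOn_trees hi hE)]

end code

/-- independence of one coordinate and finitely many others -/
theorem indep {ι : Type} (S₀ : Finset ι) (p : ι) (hp : p ∉ S₀) (A : Set (ι → I))
    (hA : MeasurableSet A) (hdep : ∀ t t' : ι → I, (∀ q ∈ S₀, t q = t' q) → (t ∈ A ↔ t' ∈ A))
    (G : Set I) (hG : MeasurableSet G) :
    lu ι (A ∩ {t | t p ∈ G}) = lu ι A * volume G := by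
  classical
  have hI : ProbabilityTheory.iIndepFun (fun (i : ι) (t : ι → I) => t i) (lu ι) :=
    ProbabilityTheory.iIndepFun_infinitePi (P := fun _ : ι => (volume : Measure I))
      (X := fun _ x => x) (fun _ => measurable_id)
  have h1 := hI.indepFun_finset S₀ {p} (by simpa using hp) (fun i => measurable_pi_apply i)
  let ext : (S₀ → I) → (ι → I) := fun y q => if h : q ∈ S₀ then y ⟨q, h⟩ else 0
  have hext : Measurable ext := by
    refine measurable_pi_iff.2 fun q => ?_
    by_cases h : q ∈ S₀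
    · have : (fun y : S₀ → I => ext y q) = fun y => y ⟨q, h⟩ := by
        funext y
        simp [ext, h]
      rw [this]
      exact measurable_pi_apply _
    · have : (fun y : S₀ → I => ext y q) = fun _ => 0 := by
        funext y
        simp [ext, h]
      rw [this]
      exact measurable_const
  have h2 := h1.measure_inter_preimage_eq_mul (ext ⁻¹' A)
    ((fun y : (({p} : Finset ι) → I) => y ⟨p, Finset.mem_singleton_self p⟩) ⁻¹' G)
    (hext hA) ((measurable_pi_apply _) hG)
  have e1 : (fun (t : ι → I) (i : S₀) => t i) ⁻¹' (ext ⁻¹' A) = A := by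
    ext t
    change ext (fun i : S₀ => t i) ∈ A ↔ t ∈ A
    refine hdep _ _ fun q hq => ?_
    simp [ext, hq]
  have e2 : (fun (t : ι → I) (i : ({p} : Finset ι)) => t i) ⁻¹'
      ((fun y : (({p} : Finset ι) → I) => y ⟨p, Finset.mem_singleton_self p⟩) ⁻¹' G)
      = {t | t p ∈ G} := rfl
  have e3 : lu ι {t | t p ∈ G} = volume G := by
    have h3 := (measurePreserving_eval_infinitePi (fun _ : ι => (volume : Measure I)) p).measure_preimage
      hG.nullMeasurableSet
    exact h3
  rw [e1, e2, e3] at h2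
  exact h2

end STPAux

open STPAux in
/-- STP. -/
theorem t_STP : S_STP := by
  classical
  intro hCMP hTRF hTRT hPRODT hMAPT hDEP hMT F hF V _ K hK a ha n C hC hn S hS
  -- basic facts
  obtain ⟨hCne, hCcl, hCconn⟩ := hC
  have hfin := hK.fin (n + 1)
  obtain ⟨_, _, _, hrk⟩ := hCMP V (K (n + 1)) hfin
  obtain ⟨hi, v, ⟨hvC, hv0⟩, hvu⟩ := hrk a ha C hCne
  have hCl : Cl (K n) C := fun x hx y hxy => hCcl x hx y (hK.mono n hxy)
  set E := ed (K (n + 1)) C with hE
  set E' := ed (K n) C with hE'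
  have hEC : ∀ e ∈ E, ∀ v ∈ e, v ∈ C := fun e he => (mem_ed.1 he).1
  have hEC' : ∀ e ∈ E', ∀ v ∈ e, v ∈ C := fun e he => (mem_ed.1 he).1
  have hEE : E' ⊆ E := by
    intro e he
    rw [hE', mem_ed] at he
    rw [hE, mem_ed]
    exact ⟨he.1, SimpleGraph.edgeSet_mono (hK.mono n) he.2⟩
  have hcc : code a C E' ⊆ code a C E := by
    intro e he
    obtain ⟨e₀, h0, h1⟩ := mem_code.1 he
    exact mem_code.2 ⟨e₀, hEE h0, h1⟩
  -- the trees of the stage `n`
  have hX : ∀ t : V × ℕ → I, rs E' (Tr F K a t n) ∈ trees ⊥ E' := fun t =>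
    hTRT hCMP hTRF hPRODT hMAPT F hF V K hK a ha t n C hCl
  -- the event
  have hkey : ∀ t : V × ℕ → I, rs E (Tr F K a t (n + 1)) = S ↔
      F (code a C E) (code a C E') (code a C (rs E' (Tr F K a t n))) (t (v, n)) = code a C S := by
    intro t
    have h1 := (hTRF hCMP F hF V K hK a ha t n).2 C v ⟨hCne, hCcl, hCconn⟩ hvC hv0
    have hT' : code a C (rs E' (Tr F K a t n)) ∈ trees ⊥ (code a C E') :=
      (code_trees hMAPT hi hEC' (sub_of_trees (hX t))).2 (hX t)
    have hFt := hF.tree (code a C E) (code a C E') _ (t (v, n)) hcc hT'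
    have hFs := sub_of_trees hFt
    have hSE := sub_of_trees hS
    have hSC : ∀ e ∈ S, ∀ v ∈ e, v ∈ C := fun e he => hEC e (hSE he)
    constructor
    · intro h
      ext e
      constructor
      · intro he
        obtain ⟨e₀, h0, rfl⟩ := mem_code.1 (hFs he)
        have h2 := (h1 e₀ h0).2 he
        rw [mem_code_iff hi hSC (hEC e₀ h0), ← h, mem_rs]
        exact ⟨h0, h2⟩
      · intro he
        obtain ⟨e₀, h0, rfl⟩ := mem_code.1 he
        rw [← h, mem_rs] at h0
        exact (h1 e₀ h0.1).1 h0.2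
    · intro h
      ext e
      rw [mem_rs]
      constructor
      · rintro ⟨he, he2⟩
        have h2 := (h1 e he).1 he2
        rw [h, mem_code_iff hi hSC (hEC e he)] at h2
        exact h2
      · intro he
        have h3 := hSE he
        refine ⟨h3, (h1 e h3).2 ?_⟩
        rw [h, mem_code_iff hi hSC (hEC e h3)]
        exact he
  -- decomposition
  have hdec : {t : V × ℕ → I | rs E (Tr F K a t (n + 1)) = S} = ⋃ T' ∈ trees ⊥ E',
      ({t | rs E' (Tr F K a t n) = T'} ∩
        {t | t (v, n) ∈ {x : I | F (code a C E) (code a C E') (code a C T') x = code a C S}}) := by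
    ext t
    simp only [Set.mem_iUnion, Set.mem_inter_iff, Set.mem_ofPred_eq, exists_prop]
    rw [hkey]
    constructor
    · intro h
      exact ⟨_, hX t, rfl, h⟩
    · rintro ⟨T', _, h1, h2⟩
      rw [h1]
      exact h2
  have hmeasX : ∀ T' ∈ trees ⊥ E', MeasurableSet {t : V × ℕ → I | rs E' (Tr F K a t n) = T'} := by
    intro T' hT'
    have e1 : {t : V × ℕ → I | rs E' (Tr F K a t n) = T'} =
        ⋂ e ∈ E', {t | e ∈ Tr F K a t n ↔ e ∈ T'} := by
      ext t
      simp only [Set.mem_iInter, Set.mem_ofPred_eq]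
      constructor
      · intro h e he
        rw [← h, mem_rs]
        exact ⟨fun h => ⟨he, h⟩, fun h => h.2⟩
      · intro h
        ext e
        rw [mem_rs]
        constructor
        · rintro ⟨h1, h2⟩
          exact (h e h1).1 h2
        · intro h1
          have h2 := sub_of_trees hT' h1
          exact ⟨h2, (h e h2).2 h1⟩
    rw [e1]
    refine Finset.measurableSet_biInter _ fun e _ => ?_
    by_cases he : e ∈ T'
    · simp only [he, iff_true]
      exact hMT F hF V K a n e
    · simp only [he, iff_false]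
      exact (hMT F hF V K a n e).compl
  have hmeasF : ∀ T', MeasurableSet
      {x : I | F (code a C E) (code a C E') (code a C T') x = code a C S} := fun T' =>
    hF.meas _ _ _ _
  have hmeas2 : ∀ T', MeasurableSet {t : V × ℕ → I |
      t (v, n) ∈ {x : I | F (code a C E) (code a C E') (code a C T') x = code a C S}} := fun T' =>
    (measurable_pi_apply (v, n)) (hmeasF T')
  have hdisj : Set.PairwiseDisjoint (↑(trees ⊥ E') : Set (Finset (Sym2 V)))
      (fun T' => ({t : V × ℕ → I | rs E' (Tr F K a t n) = T'} ∩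
        {t | t (v, n) ∈ {x : I | F (code a C E) (code a C E') (code a C T') x = code a C S}})) := by
    intro T₁ _ T₂ _ hne
    rw [Function.onFun, Set.disjoint_left]
    rintro t ⟨h1, _⟩ ⟨h2, _⟩
    exact hne (h1.symm.trans h2)
  rw [hdec, measure_biUnion_finset hdisj (fun T' hT' => (hmeasX T' hT').inter (hmeas2 T'))]
  -- independence
  have hprod : ∀ T' ∈ trees ⊥ E', lu (V × ℕ) ({t : V × ℕ → I | rs E' (Tr F K a t n) = T'} ∩
        {t | t (v, n) ∈ {x : I | F (code a C E) (code a C E') (code a C T') x = code a C S}}) =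
      (1 / ((trees ⊥ E').card : ℝ≥0∞)) *
        volume {x : I | F (code a C E) (code a C E') (code a C T') x = code a C S} := by
    intro T' hT'
    have h1 := indep (C ×ˢ Finset.range n) (v, n) (by simp)
      {t : V × ℕ → I | rs E' (Tr F K a t n) = T'} (hmeasX T' hT') (by
        intro t t' htt
        have h2 := hDEP hCMP hTRF F hF V K hK a ha t t' n C hCl (fun w hw k hk =>
          htt (w, k) (Finset.mem_product.2 ⟨hw, Finset.mem_range.2 hk⟩))
        change rs E' (Tr F K a t n) = T' ↔ rs E' (Tr F K a t' n) = T'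
        rw [hE', h2])
      {x : I | F (code a C E) (code a C E') (code a C T') x = code a C S} (hmeasF T')
    rw [h1, hn T' hT']
  rw [Finset.sum_congr rfl hprod, ← Finset.mul_sum]
  have hsum : ∑ T' ∈ trees ⊥ E',
      volume {x : I | F (code a C E) (code a C E') (code a C T') x = code a C S} =
      ((trees ⊥ E').card : ℝ≥0∞) / (trees ⊥ E).card := by
    have h1 := hF.law (code a C E) (code a C E') hcc (code a C S)
      ((code_trees hMAPT hi hEC (sub_of_trees hS)).2 hS)
    rw [card_trees hMAPT hi hEC, card_trees hMAPT hi hEC', ← image_trees hMAPT hi hEC',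
      Finset.sum_image (injOn_trees hi hEC')] at h1
    exact h1
  rw [hsum]
  have hne : ((trees ⊥ E').card : ℝ≥0∞) ≠ 0 := by
    have : 0 < (trees ⊥ E').card := Finset.card_pos.2 ⟨_, hX fun _ => 0⟩
    exact_mod_cast this.ne'
  have hnt : ((trees ⊥ E').card : ℝ≥0∞) ≠ ⊤ := ENNReal.natCast_ne_top _
  rw [← mul_div_assoc, one_div, ENNReal.inv_mul_cancel hne hnt]

end Pool.Agent.Q42.UT
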