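import Pool.Agent.Q42.UT.Stm

set_option autoImplicit false

/-!
Project UT (helper42), statement `S_TCH`: wired trees on a finite set of edges which contains the edges
touching `B`.
-/

namespace Pool.Agent.Q42.UT

open MeasureTheory Set Filter Topology
open scoped ENNReal unitInterval
open Pool.Agent.TH968.UST

namespace TCH

/-- a non touching edge joins wired vertices -/
lemma loop {V : Type} {g : SimpleGraph V} {B : Finset V} {a b : V} (he : s(a, b) ∈ g.edgeSet)
    (ht : s(a, b) ∉ touch g B) : wired B a b := by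
  have h : ∀ v ∈ B, v ∉ s(a, b) := fun v hv hve => ht ⟨he, v, hv, hve⟩
  exact Or.inr ⟨fun ha => h a ha (Sym2.mem_mk_left a b), fun hb => h b hb (Sym2.mem_mk_right a b)⟩

lemma span_iff {V : Type} {g : SimpleGraph V} {B : Finset V} {E : Set (Sym2 V)}
    (h1 : ∀ e ∈ E, e ∈ g.edgeSet) (h2 : ∀ e ∈ touch g B, e ∈ E) (T : Set (Sym2 V)) :
    IsSpan (wired B) (touch g B) T ↔ IsSpan (wired B) E T := by
  constructor
  · rintro ⟨ha, hb, hc⟩
    refine ⟨fun e he => h2 e (ha he), fun a b hab => ?_, hc⟩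
    by_cases ht : s(a, b) ∈ touch g B
    · exact hb a b ht
    · exact Relation.EqvGen.rel _ _ (Or.inl (loop (h1 _ hab) ht))
  · rintro ⟨ha, hb, hc⟩
    refine ⟨fun e he => ?_, fun a b hab => hb a b (h2 _ hab), hc⟩
    induction e using Sym2.ind with
    | _ a b =>
      by_contra ht
      exact hc a b he (Relation.EqvGen.rel _ _ (Or.inl (loop (h1 _ (ha he)) ht)))

open Classical in
lemma ncard_eq {V : Type} {g : SimpleGraph V} {B : Finset V} {E₁ : Finset (Sym2 V)}
    (h1 : ∀ e ∈ E₁, e ∈ g.edgeSet) (h2 : ∀ e ∈ touch g B, e ∈ E₁) (p : Set (Sym2 V) → Prop) :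
    {T : Set (Sym2 V) | IsSpan (wired B) (touch g B) T ∧ p T}.ncard =
      ((trees (wired B) E₁).filter (fun T : Finset (Sym2 V) => p (T : Set (Sym2 V)))).card := by
  have himg : {T : Set (Sym2 V) | IsSpan (wired B) (touch g B) T ∧ p T} =
      (fun T : Finset (Sym2 V) => (T : Set (Sym2 V))) ''
        (((trees (wired B) E₁).filter (fun T : Finset (Sym2 V) => p (T : Set (Sym2 V))) : Finset (Finset (Sym2 V))) : Set (Finset (Sym2 V))) := by
    ext T
    simp only [Set.mem_ofPred_eq, Set.mem_image, Finset.coe_filter, trees, Finset.mem_filter,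
      Finset.mem_powerset]
    constructor
    · rintro ⟨hT, hp⟩
      rw [span_iff (E := (E₁ : Set (Sym2 V))) (fun e he => h1 e he) (fun e he => h2 e he)] at hT
      have hsub : T ⊆ (E₁ : Set (Sym2 V)) := hT.1
      have hcoe : ((E₁.filter (fun e => e ∈ T) : Finset (Sym2 V)) : Set (Sym2 V)) = T := by
        ext e
        simp only [Finset.coe_filter, Set.mem_ofPred_eq]
        exact ⟨fun h => h.2, fun h => ⟨hsub h, h⟩⟩
      refine ⟨E₁.filter (fun e => e ∈ T), ⟨⟨Finset.filter_subset _ _, ?_⟩, ?_⟩, hcoe⟩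
      · rw [hcoe]; exact hT
      · rw [hcoe]; exact hp
    · rintro ⟨T', ⟨⟨-, hT⟩, hp⟩, rfl⟩
      refine ⟨?_, hp⟩
      rw [span_iff (E := (E₁ : Set (Sym2 V))) (fun e he => h1 e he) (fun e he => h2 e he)]
      exact hT
  rw [himg, Set.ncard_image_of_injective _ Finset.coe_injective, Set.ncard_coe_finset]

end TCH

theorem t_TCH : S_TCH := by
  classical
  intro V g B E₁ h1 h2 S A
  have e1 := TCH.ncard_eq h1 h2 (fun T => T ∩ (S : Set (Sym2 V)) = (A : Set (Sym2 V)))
  have e2 := TCH.ncard_eq h1 h2 (fun _ => True)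
  simp only [and_true, Finset.filter_true] at e2
  unfold ustProb pr
  rw [e1, e2]

end Pool.Agent.Q42.UT
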