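import Pool.Agent.Q42.UT.Stm

/-!
Job UT-TOW (project UT of helper42): the tower of the clusters.
-/

set_option autoImplicit false

namespace Pool.Agent.Q42.UT

open MeasureTheory Set Filter Topology
open scoped ENNReal unitInterval
open Pool.Agent.TH968.UST

namespace TOW

lemma reach {V : Type} (hw : S_WUN) (Ns : ℕ → ℕ) (g : SimpleGraph V) (r : V × ℕ → I) (n : ℕ)
    (x y : V) (h : (Hg Ns g r n).Reachable x y) :
    y = x ∨ ∃ z, WinJ Ns g r n x z ∧ WinJ Ns g r n y z := by
  rw [SimpleGraph.reachable_iff_reflTransGen] at h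
  induction h with
  | refl => exact Or.inl rfl
  | tail _ hbc ih =>
    obtain ⟨z', h1, h2⟩ := hbc.2 n le_rfl
    rcases ih with rfl | ⟨z, h3, h4⟩
    · exact Or.inr ⟨z', h1, h2⟩
    · have := hw V _ _ z z' h4 h1
      subst this
      exact Or.inr ⟨z, h3, h2⟩

end TOW

theorem t_TOW : S_TOW := by
  intro hw V Ns g r hfin hexh
  refine ⟨⟨rfl, ?_, ?_⟩, ?_, ?_⟩
  · intro n
    cases n with
    | zero => exact bot_le
    | succ n => exact fun x y h => ⟨h.1, fun j hj => h.2 j (Nat.le_of_succ_le hj)⟩
  · intro n x
    cases n with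
    | zero =>
      refine (Set.finite_singleton x).subset fun y hy => ?_
      have h1 : (⊥ : SimpleGraph V).Reachable x y := hy
      rw [SimpleGraph.reachable_bot] at h1
      exact h1.symm
    | succ n =>
      by_cases hz : ∃ z, WinJ Ns g r n x z
      · obtain ⟨z, hz⟩ := hz
        refine ((Set.finite_singleton x).union (hfin n z)).subset fun y hy => ?_
        rcases TOW.reach hw Ns g r n x y hy with rfl | ⟨z', h1, h2⟩
        · exact Or.inl rfl
        · have := hw V _ _ z z' hz h1
          subst this
          exact Or.inr h2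
      · refine (Set.finite_singleton x).subset fun y hy => ?_
        rcases TOW.reach hw Ns g r n x y hy with rfl | ⟨z', h1, h2⟩
        · rfl
        · exact absurd ⟨z', h1⟩ hz
  · intro n
    cases n with
    | zero => exact bot_le
    | succ n => exact fun x y h => h.1
  · intro x y h
    obtain ⟨n, hn⟩ := hexh x y h
    exact ⟨n + 1, h, hn⟩

end Pool.Agent.Q42.UT
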