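import Pool.Agent.Q42.UT.CMP

/-! Job TRF of project UT. -/

set_option autoImplicit false

namespace Pool.Agent.Q42.UT

open MeasureTheory Set Filter Topology
open scoped ENNReal unitInterval
open Pool.Agent.TH968.UST
open CMP

/-- JOB TRF -/
theorem t_TRF : S_TRF := by
  intro hCMP F hF V K hK a ha t n
  refine ⟨?_, ?_⟩
  · cases n with
    | zero =>
      intro e he
      rw [Tr] at he
      exact absurd he (Set.notMem_empty e)
    | succ n =>
      intro e he
      rw [Tr] at he
      obtain ⟨C, -, h, -⟩ := he
      exact (mem_ed.1 h).2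
  · intro C v hC hv h0 e he
    constructor
    · intro h
      rw [Tr] at h
      obtain ⟨C', hC', he', v', hv', h0', h⟩ := h
      have hCC : C = C' := by
        induction e with | _ x y => ?_
        exact (hCMP V (K (n + 1)) (hK.fin _)).2.1 C C' x hC hC'
          ((mem_ed.1 he).1 x (Sym2.mem_mk_left x y)) ((mem_ed.1 he').1 x (Sym2.mem_mk_left x y))
      subst hCC
      have hvv : v' = v := rk_inj ha hv' hv (h0'.trans h0.symm)
      subst hvv
      exact h
    · intro h
      rw [Tr]
      exact ⟨C, hC, he, v, hv, h0, h⟩

end Pool.Agent.Q42.UT
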