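import Pool.Agent.Q42.UT.CMP

/-! Job TRT of project UT. -/

set_option autoImplicit false

namespace Pool.Agent.Q42.UT

open MeasureTheory Set Filter Topology
open scoped ENNReal unitInterval
open Pool.Agent.TH968.UST
open CMP

namespace TRT

variable {V : Type}

/-- the code of a tree is a tree of the code -/
theorem code_tree (hM : S_MAPT) {a : V → I} (ha : Function.Injective a) {C : Finset V}
    {E T : Finset (Sym2 V)} (hE : ∀ e ∈ E, ∀ v ∈ e, v ∈ C) (hT : T ⊆ E) :
    code a C T ∈ trees ⊥ (code a C E) ↔ T ∈ trees ⊥ E :=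
  hM V ℕ (rk a C) C E T (fun x hx y hy h => rk_inj ha hx hy h) hE hT (code a C E) (code a C T)
    (fun _ => mem_code) (fun _ => mem_code)

theorem step (hCMP : S_CMP) (hTRF : S_TRF) (hM : S_MAPT) {F : CF} (hF : IsCpl F)
    {K : ℕ → SimpleGraph V} (hK : IsTower K) {a : V → I} (ha : Function.Injective a)
    (t : V × ℕ → I) (n : ℕ) {C : Finset V} (hC : IsComp (K (n + 1)) C)
    (ih : rs (ed (K n) C) (Tr F K a t n) ∈ trees ⊥ (ed (K n) C)) :
    rs (ed (K (n + 1)) C) (Tr F K a t (n + 1)) ∈ trees ⊥ (ed (K (n + 1)) C) := by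
  obtain ⟨v, hv, h0⟩ := exists_first (a := a) hC.1
  have h1 := (hTRF hCMP F hF V K hK a ha t n).2 C v hC hv h0
  have hin : ∀ (K' : SimpleGraph V), ∀ e ∈ ed K' C, ∀ v ∈ e, v ∈ C := fun K' e he => (mem_ed.1 he).1
  have h2 : code a C (rs (ed (K n) C) (Tr F K a t n)) ∈ trees ⊥ (code a C (ed (K n) C)) :=
    (code_tree hM ha (hin _) (rs_sub _ _)).2 ih
  have h3 := hF.tree (code a C (ed (K (n + 1)) C)) (code a C (ed (K n) C)) _ (t (v, n))
    (code_mono (ed_mono (hK.mono n) C)) h2
  rw [← code_tree hM ha (hin _) (rs_sub _ _)]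
  have h4 : code a C (rs (ed (K (n + 1)) C) (Tr F K a t (n + 1))) =
      F (code a C (ed (K (n + 1)) C)) (code a C (ed (K n) C))
        (code a C (rs (ed (K n) C) (Tr F K a t n))) (t (v, n)) := by
    ext e
    rw [mem_code]
    constructor
    · rintro ⟨e₀, he₀, rfl⟩
      rw [mem_rs] at he₀
      exact (h1 e₀ he₀.1).1 he₀.2
    · intro he
      have hsub := (Pool.Agent.TH830.UST.mem_trees.1 h3).1
      obtain ⟨e₀, he₀, rfl⟩ := mem_code.1 (hsub he)
      exact ⟨e₀, mem_rs.2 ⟨he₀, (h1 e₀ he₀).2 he⟩, rfl⟩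
  rw [h4]
  exact h3

end TRT

open TRT

/-- JOB TRT -/
theorem t_TRT : S_TRT := by
  classical
  intro hCMP hTRF hP hM F hF V K hK a ha t n
  induction n with
  | zero =>
    intro C _
    have h1 : ed (K 0) C = ∅ := by
      rw [hK.zero]
      ext e
      rw [mem_ed]
      simp
    rw [h1]
    have h2 : rs (∅ : Finset (Sym2 V)) (Tr F K a t 0) = ∅ := by
      ext e
      rw [mem_rs]
      simp
    rw [h2]
    exact empty_tree
  | succ n ih =>
    have hcomp : ∀ C, IsComp (K (n + 1)) C →
        rs (ed (K (n + 1)) C) (Tr F K a t (n + 1)) ∈ trees ⊥ (ed (K (n + 1)) C) := fun C hC =>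
      step hCMP hTRF hM hF hK ha t n hC (ih C (Cl.of_le (hK.mono n) hC.2.1))
    intro C
    induction C using Finset.strongInduction with
    | _ C ihC => ?_
    intro hC
    rcases C.eq_empty_or_nonempty with rfl | hne
    · have h1 : ed (K (n + 1)) (∅ : Finset V) = ∅ := by
        ext e
        rw [mem_ed]
        induction e with | _ x y => ?_
        constructor
        · intro h
          exact absurd (h.1 x (Sym2.mem_mk_left x y)) (Finset.notMem_empty x)
        · intro h
          exact absurd h (Finset.notMem_empty _)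
      rw [h1]
      have h2 : rs (∅ : Finset (Sym2 V)) (Tr F K a t (n + 1)) = ∅ := by
        ext e
        rw [mem_rs]
        simp
      rw [h2]
      exact empty_tree
    · obtain ⟨x, hx⟩ := hne
      have hfc := hCMP V (K (n + 1)) (hK.fin _)
      obtain ⟨C₁, hC₁, hx₁⟩ := hfc.1 x
      have hsub : C₁ ⊆ C := hfc.2.2.1 C₁ C hC₁ hC ⟨x, hx₁, hx⟩
      have hC₂ : Cl (K (n + 1)) (C \ C₁) := Cl.sdiff hC hC₁.2.1
      have hlt : C \ C₁ ⊂ C := by
        rw [Finset.ssubset_iff_of_subset Finset.sdiff_subset]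
        exact ⟨x, hx, fun h => (Finset.mem_sdiff.1 h).2 hx₁⟩
      have h2 := ihC (C \ C₁) hlt hC₂
      have hedge : ∀ e, e ∈ ed (K (n + 1)) C ↔
          e ∈ ed (K (n + 1)) C₁ ∨ e ∈ ed (K (n + 1)) (C \ C₁) := by
        intro e
        constructor
        · intro he
          rw [mem_ed] at he
          by_cases h : ∃ v ∈ e, v ∈ C₁
          · left
            rw [mem_ed]
            refine ⟨?_, he.2⟩
            obtain ⟨v, hv, hv₁⟩ := h
            intro w hw
            induction e with | _ p q => ?_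
            have hadj : (K (n + 1)).Adj p q := he.2
            have hcl := hC₁.2.1
            rw [Sym2.mem_iff] at hv hw
            rcases hv with rfl | rfl <;> rcases hw with rfl | rfl
            · exact hv₁
            · exact hcl _ hv₁ _ hadj
            · exact hcl _ hv₁ _ hadj.symm
            · exact hv₁
          · right
            rw [mem_ed]
            refine ⟨fun v hv => Finset.mem_sdiff.2 ⟨he.1 v hv, fun hv₁ => h ⟨v, hv, hv₁⟩⟩, he.2⟩
        · rintro (he | he)
          · exact ed_sub hsub he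
          · exact ed_sub Finset.sdiff_subset he
      rw [hP V C₁ (C \ C₁) (ed (K (n + 1)) C₁) (ed (K (n + 1)) (C \ C₁)) _
        (fun v hv h => (Finset.mem_sdiff.1 h).2 hv) (fun e he => (mem_ed.1 he).1)
        (fun e he => (mem_ed.1 he).1) (ed (K (n + 1)) C) hedge]
      refine ⟨?_, ?_, ?_⟩
      · intro e he
        exact rs_sub _ _ he
      · have h3 : rs (ed (K (n + 1)) C₁)
            ((rs (ed (K (n + 1)) C) (Tr F K a t (n + 1)) : Finset (Sym2 V)) : Set (Sym2 V)) =
            rs (ed (K (n + 1)) C₁) (Tr F K a t (n + 1)) := by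
          ext e
          rw [mem_rs, mem_rs, Finset.mem_coe, mem_rs]
          constructor
          · rintro ⟨h, -, h'⟩
            exact ⟨h, h'⟩
          · rintro ⟨h, h'⟩
            exact ⟨h, ed_sub hsub h, h'⟩
        rw [h3]
        exact hcomp C₁ hC₁
      · have h3 : rs (ed (K (n + 1)) (C \ C₁))
            ((rs (ed (K (n + 1)) C) (Tr F K a t (n + 1)) : Finset (Sym2 V)) : Set (Sym2 V)) =
            rs (ed (K (n + 1)) (C \ C₁)) (Tr F K a t (n + 1)) := by
          ext e
          rw [mem_rs, mem_rs, Finset.mem_coe, mem_rs]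
          constructor
          · rintro ⟨h, -, h'⟩
            exact ⟨h, h'⟩
          · rintro ⟨h, h'⟩
            exact ⟨h, ed_sub Finset.sdiff_subset h, h'⟩
        rw [h3]
        exact h2

end Pool.Agent.Q42.UT
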