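import Pool.Agent.Q42.UT.Stm

/-! Project UT: UNI, the law of the trees is uniform for all finite unions of components. -/

set_option autoImplicit false

namespace Pool.Agent.Q42.UT

open MeasureTheory Set Filter Topology
open scoped ENNReal unitInterval
open Pool.Agent.TH968.UST

namespace UNI

theorem mem_empty {V : Type} {S : Finset (Sym2 V)} {E : Finset (Sym2 V)} (hE : E = ∅)
    (hS : S ∈ trees ⊥ E) : S = ∅ := by
  classical
  subst hE
  unfold trees at hS
  exact Finset.subset_empty.1 (Finset.mem_powerset.1 (Finset.mem_filter.1 hS).1)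

theorem empty_case {V : Type} [Countable V] (E : Finset (Sym2 V)) (hE : E = ∅)
    (S : Finset (Sym2 V)) (hS : S ∈ trees ⊥ E) (Q : (V × ℕ → I) → Set (Sym2 V)) :
    lu (V × ℕ) {t | rs E (Q t) = S} = 1 / ((trees ⊥ E).card : ℝ≥0∞) := by
  classical
  have h1 : S = ∅ := mem_empty hE hS
  have h2 : trees ⊥ E = {S} := by
    ext T
    rw [Finset.mem_singleton]
    constructor
    · intro hT
      rw [mem_empty hE hT, h1]
    · rintro rfl
      exact hS
  have h3 : {t : V × ℕ → I | rs E (Q t) = S} = Set.univ := by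
    refine Set.eq_univ_of_forall fun t => ?_
    show rs E (Q t) = S
    subst hE
    rw [h1]
    refine Finset.eq_empty_of_forall_notMem fun e he => ?_
    unfold rs at he
    exact absurd (Finset.mem_filter.1 he).1 (Finset.notMem_empty e)
  rw [h3, h2, Finset.card_singleton, measure_univ]
  simp

theorem ed_bot {V : Type} (C : Finset V) : ed (⊥ : SimpleGraph V) C = ∅ := by
  unfold ed
  ext e
  simp

theorem ed_empty {V : Type} (K : SimpleGraph V) : ed K (∅ : Finset V) = ∅ := by
  unfold ed
  ext e
  simp

end UNI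

theorem t_UNI : S_UNI := by
  classical
  intro cmp stp two hh F hF V _ K hK a ha n
  obtain ⟨trf, trt, prodt, mapt, dep, mt⟩ := hh
  induction n with
  | zero =>
    intro C _ S hS
    refine UNI.empty_case _ ?_ S hS _
    rw [hK.zero]
    exact UNI.ed_bot C
  | succ n ih =>
    intro C
    induction C using Finset.strongInduction with
    | H C ihC =>
      intro hC
      rcases C.eq_empty_or_nonempty with rfl | ⟨x, hx⟩
      · intro S hS
        exact UNI.empty_case _ (UNI.ed_empty _) S hS _
      · obtain ⟨h1, h2, h3, h4⟩ := cmp V (K (n + 1)) (hK.fin (n + 1))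
        obtain ⟨C₁, hC₁, hx₁⟩ := h1 x
        have hsub : C₁ ⊆ C := h3 C₁ C hC₁ hC ⟨x, hx₁, hx⟩
        have hcl1 : Cl (K (n + 1)) C₁ := hC₁.2.1
        have hcl1n : Cl (K n) C₁ := fun y hy z hyz => hcl1 y hy z (hK.mono n hyz)
        have hcl2 : Cl (K (n + 1)) (C \ C₁) := by
          intro y hy z hyz
          rw [Finset.mem_sdiff] at hy ⊢
          exact ⟨hC y hy.1 z hyz, fun hz => hy.2 (hcl1 z hz y hyz.symm)⟩
        have hss : C \ C₁ ⊂ C := by
          refine Finset.ssubset_iff_subset_ne.2 ⟨Finset.sdiff_subset, fun h => ?_⟩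
          have h5 : x ∈ C \ C₁ := by rw [h]; exact hx
          exact (Finset.mem_sdiff.1 h5).2 hx₁
        have law1 := stp cmp trf trt prodt mapt dep mt F hF V K hK a ha n C₁ hC₁
          (fun S hS => ih C₁ hcl1n S hS)
        have law2 := ihC (C \ C₁) hss hcl2
        exact two cmp prodt dep trf mt F hF V K hK a ha (n + 1) C₁ (C \ C₁) C hcl1 hcl2
          (fun v hv hv2 => (Finset.mem_sdiff.1 hv2).2 hv)
          (fun v => ⟨fun hv => by
            by_cases h5 : v ∈ C₁
            · exact Or.inl h5
            · exact Or.inr (Finset.mem_sdiff.2 ⟨hv, h5⟩),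
            fun hv => hv.elim (fun h5 => hsub h5) (fun h5 => (Finset.mem_sdiff.1 h5).1)⟩)
          law1 law2

end Pool.Agent.Q42.UT
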