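import Pool.Agent.Q42.UT.Stm2
import Pool.Agent.Q42.UT.RC0

/-!
# Project UT (helper42), job WPR (helper110): the probability to win
-/

set_option autoImplicit false

namespace Pool.Agent.Q42.UT.WPR

open MeasureTheory Set Filter Topology
open scoped ENNReal unitInterval
open Pool.Agent.TH968.UST

theorem sum_fin {V : Type} (p : V → ℝ≥0∞) (hfin : {z | p z ≠ 0}.Finite) (hsum : ∑' z, p z = 1) :
    ∑ z ∈ hfin.toFinset, p z = 1 := by
  rw [← hsum, tsum_eq_sum]
  intro b hb
  by_contra h
  exact hb (hfin.mem_toFinset.2 h)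

theorem lt_of_win {a b x y : ℝ} (hx : 0 ≤ x) (hy : 0 ≤ y) (ha : 0 < a) (h : x ^ a < y ^ b) :
    x < y ^ (b / a) := by
  have h1 := Real.rpow_lt_rpow (Real.rpow_nonneg hx a) h (inv_pos.2 ha)
  rw [← Real.rpow_mul hx, ← Real.rpow_mul hy, mul_inv_cancel₀ ha.ne', Real.rpow_one] at h1
  rwa [div_eq_mul_inv]

end Pool.Agent.Q42.UT.WPR

namespace Pool.Agent.Q42.UT

open MeasureTheory Set Filter Topology
open scoped ENNReal unitInterval
open Pool.Agent.TH968.UST

theorem t_WPR : S_WPR := by
  classical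
  intro hRC1 V _ p hfin hsum z
  have h := hRC1 t_RC0
  by_cases hz : p z = 0
  · have : {U : V → I | Win p U z} = ∅ := by
      ext U
      simp [Win, hz]
    rw [this, measure_empty]
    exact bot_le
  · have hs := WPR.sum_fin p hfin hsum
    have hzm : z ∈ hfin.toFinset := hfin.mem_toFinset.2 hz
    have hle : ∀ w, p w ≤ 1 := fun w => hsum ▸ ENNReal.le_tsum w
    have htop : ∀ w, p w ≠ ∞ := fun w => ((hle w).trans_lt ENNReal.one_lt_top).ne
    have hzpos : 0 < (p z).toReal := ENNReal.toReal_pos hz (htop z)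
    set S := hfin.toFinset.erase z with hS
    have hsR : (p z).toReal + ∑ w ∈ S, (p w).toReal = 1 := by
      rw [hS, Finset.add_sum_erase _ (fun w => (p w).toReal) hzm,
        ← ENNReal.toReal_sum (fun w _ => htop w), hs, ENNReal.toReal_one]
    have h1 := h V z S (fun w => (p w).toReal / (p z).toReal) (Finset.notMem_erase _ _)
      (fun w => by positivity)
    have h2 : {U : V → I | Win p U z} ⊆
        {U | ∀ w ∈ S, ((U w : I) : ℝ) < ((U z : I) : ℝ) ^ ((p w).toReal / (p z).toReal)} := by
      intro U hU w hw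
      rw [hS, Finset.mem_erase, hfin.mem_toFinset] at hw
      rcases hU.2 w hw.1 with h3 | h3
      · exact absurd h3 hw.2
      · exact WPR.lt_of_win (U w).2.1 (U z).2.1 hzpos h3
    refine (measure_mono h2).trans ?_
    rw [h1]
    have h4 : (1 : ℝ) / (1 + ∑ w ∈ S, (p w).toReal / (p z).toReal) = (p z).toReal := by
      rw [← Finset.sum_div]
      have h5 : ∑ w ∈ S, (p w).toReal = 1 - (p z).toReal := by linarith
      rw [h5]
      field_simp
      ring
    rw [h4, ENNReal.ofReal_toReal (htop z)]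

end Pool.Agent.Q42.UT
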