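import Pool.Agent.Q42.UT.Fin
import Pool.Agent.Q42.UT.CPL
import Pool.Agent.Q42.UT.PRODT
import Pool.Agent.Q42.UT.MAPT
import Pool.Agent.Q42.UT.EVD
import Pool.Agent.Q42.UT.NRG
import Pool.Agent.Q42.UT.EDD
import Pool.Agent.Q42.UT.TCH
import Pool.Agent.Q42.UT.CONV
import Pool.Agent.Q42.UT.RC0
import Pool.Agent.Q42.UT.RC1
import Pool.Agent.Q42.UT.RACE
import Pool.Agent.Q42.UT.HIT
import Pool.Agent.Q42.UT.GRN
import Pool.Agent.Q42.UT.REI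
import Pool.Agent.Q42.UT.NUP
import Pool.Agent.Q42.UT.OPN
import Pool.Agent.Q42.UT.WUN
import Pool.Agent.Q42.UT.MNU
import Pool.Agent.Q42.UT.MW
import Pool.Agent.Q42.UT.IW
import Pool.Agent.Q42.UT.TOW
import Pool.Agent.Q42.UT.INJ
import Pool.Agent.Q42.UT.CMP
import Pool.Agent.Q42.UT.TRF
import Pool.Agent.Q42.UT.TRT
import Pool.Agent.Q42.UT.DEC
import Pool.Agent.Q42.UT.DEP
import Pool.Agent.Q42.UT.STP
import Pool.Agent.Q42.UT.TWO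
import Pool.Agent.Q42.UT.UNI
import Pool.Agent.Q42.UT.LIM
import Pool.Agent.Q42.UT.MT
import Pool.Agent.Q42.UT.MPH
import Pool.Agent.Q42.UT.EPH
import Pool.Agent.Q42.UT.SPL
import Pool.Agent.Q42.UT.REV
import Pool.Agent.Q42.UT.WPR
import Pool.Agent.Q42.UT.FCX
import Pool.Agent.Q42.UT.DCX
import Pool.Agent.Q42.UT.BCX

/-!
# Project UT (MP_688e31_pr): everything together
-/

set_option autoImplicit false

namespace Pool.Agent.Q42.UT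

theorem final : Final :=
  final_of t_CPL (t_DCX t_OPN (t_RACE0 t_RC0) t_RC1 t_REI t_HIT t_GRN t_NUP t_MNU) t_BCX
    (t_FCX t_WPR t_RC1 t_REV t_NUP) t_WUN t_TOW t_INJ (t_MPH t_MNU t_MW) (t_EPH t_IW) t_SPL
    (t_LIM ⟨t_CMP, t_TRF, t_TRT, t_PRODT, t_MAPT, t_DEP, t_MT, t_DEC⟩
      (t_UNI t_CMP t_STP t_TWO ⟨t_TRF, t_TRT, t_PRODT, t_MAPT, t_DEP, t_MT⟩)
      (t_CONV t_EVD (fun _ => t_EDD) t_NRG t_TCH))

end Pool.Agent.Q42.UT
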