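import Pool.Agent.Q42.UT.Stm

/-!
Job UT-BC (project UT of helper42): Borel-Cantelli at the root.
-/

set_option autoImplicit false

namespace Pool.Agent.Q42.UT

open MeasureTheory Set Filter Topology
open scoped ENNReal unitInterval
open Pool.Agent.TH968.UST

namespace BC

lemma mp_slice (V : Type) (j : ℕ) :
    MeasurePreserving (fun (r : V × ℕ → I) (v : V) => r (v, j)) (lu (V × ℕ)) (lu V) := by
  classical
  have hm : Measurable (fun (r : V × ℕ → I) (v : V) => r (v, j)) :=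
    measurable_pi_iff.2 fun v => measurable_pi_apply _
  refine ⟨hm, Measure.eq_infinitePi _ fun s t ht => ?_⟩
  rw [Measure.map_apply hm (MeasurableSet.pi s.countable_toSet fun i _ => ht i)]
  have h1 : (fun (r : V × ℕ → I) (v : V) => r (v, j)) ⁻¹' (Set.pi s t) =
      Set.pi ((s.map ⟨fun v => (v, j), fun a b h => (Prod.mk.inj h).1⟩ : Finset (V × ℕ)) :
        Set (V × ℕ)) (fun p => t p.1) := by
    ext r
    simp [Set.mem_pi]
    exact Iff.rfl
  rw [h1, Measure.infinitePi_pi _ (fun i _ => ht i.1)]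
  rw [Finset.prod_map]
  rfl

end BC

theorem t_BC : S_BC := by
  intro hE hM hN hW hI V Ω _ _ P G ρ hU Ns hb
  have hP := hU.prob
  let bad : SimpleGraph V → (V × ℕ → I) → V → Prop := fun g r v =>
    ∃ y, g.Adj v y ∧ ∀ n, ∃ j, n ≤ j ∧ ¬ ∃ z, WinJ Ns g r j v z ∧ WinJ Ns g r j y z
  have hmeas : ∀ v, MeasurableSet {q : SimpleGraph V × (V × ℕ → I) | bad q.1 q.2 v} := by
    intro v
    have h0 : {q : SimpleGraph V × (V × ℕ → I) | bad q.1 q.2 v} =
        ⋃ y, ({q : SimpleGraph V × (V × ℕ → I) | q.1.Adj v y} ∩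
          ⋂ n : ℕ, ⋃ j : ℕ, ⋃ (_ : n ≤ j), (⋃ z,
            ({q : SimpleGraph V × (V × ℕ → I) | WinJ Ns q.1 q.2 j v z} ∩
              {q : SimpleGraph V × (V × ℕ → I) | WinJ Ns q.1 q.2 j y z}))ᶜ) := by
      ext q
      simp only [bad, Set.mem_ofPred_eq, Set.mem_iUnion, Set.mem_inter_iff, Set.mem_iInter,
        Set.mem_compl_iff, exists_prop]
    rw [h0]
    refine MeasurableSet.iUnion fun y => MeasurableSet.inter ?_ (MeasurableSet.iInter fun n =>
      MeasurableSet.iUnion fun j => MeasurableSet.iUnion fun _ => (MeasurableSet.iUnion fun z =>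
        (hW hN V Ns j v z).inter (hW hN V Ns j y z)).compl)
    exact measurable_fst (measurableSet_adj v y)
  have hinv : ∀ (s : Equiv.Perm V) (g : SimpleGraph V) (r : V × ℕ → I) (v : V),
      bad (g.comap s) (fun p => r (s p.1, p.2)) v ↔ bad g r (s v) := by
    intro s g r v
    simp only [bad, hI V Ns s, SimpleGraph.comap_adj]
    constructor
    · rintro ⟨y, h1, h2⟩
      refine ⟨s y, h1, fun n => ?_⟩
      obtain ⟨j, hj, h3⟩ := h2 n
      refine ⟨j, hj, fun ⟨z, hz⟩ => h3 ⟨s.symm z, ?_⟩⟩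
      rw [Equiv.apply_symm_apply]
      exact hz
    · rintro ⟨y, h1, h2⟩
      refine ⟨s.symm y, by rw [Equiv.apply_symm_apply]; exact h1, fun n => ?_⟩
      obtain ⟨j, hj, h3⟩ := h2 n
      refine ⟨j, hj, fun ⟨z, hz⟩ => h3 ⟨s z, ?_⟩⟩
      rw [Equiv.apply_symm_apply] at hz
      exact hz
  have hroot : ∀ᵐ q ∂(P.prod (lu (V × ℕ))), ¬ bad (G q.1) q.2 (ρ q.1) := by
    let B : ℕ → Set (Ω × (V → I)) := fun j => {q | ∃ y, (G q.1).Adj (ρ q.1) y ∧
      ¬ ∃ z, Win (nu (G q.1) (Ns j) (ρ q.1)) q.2 z ∧ Win (nu (G q.1) (Ns j) y) q.2 z}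
    let f : ℕ → Ω × (V × ℕ → I) → Ω × (V → I) := fun j =>
      Prod.map id (fun (r : V × ℕ → I) (v : V) => r (v, j))
    have hf : ∀ j, MeasurePreserving (f j) (P.prod (lu (V × ℕ))) (P.prod (lu V)) := fun j =>
      (MeasurePreserving.id P).prod (BC.mp_slice V j)
    have hle : ∀ j, (P.prod (lu (V × ℕ))) (f j ⁻¹' B j) ≤ (2 : ℝ≥0∞)⁻¹ ^ j := by
      intro j
      refine (Measure.le_map_apply (hf j).measurable.aemeasurable (B j)).trans ?_
      rw [(hf j).map_eq]
      exact hb j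
    have hsum : ∑' j, (P.prod (lu (V × ℕ))) (f j ⁻¹' B j) ≠ ∞ := by
      refine ne_top_of_le_ne_top ?_ (ENNReal.tsum_le_tsum hle)
      rw [ENNReal.tsum_geometric]
      norm_num
    filter_upwards [ae_eventually_notMem hsum] with q hq
    rintro ⟨y, h1, h2⟩
    obtain ⟨n, hn⟩ := eventually_atTop.1 hq
    obtain ⟨j, hj, h3⟩ := h2 n
    exact hn j hj ⟨y, h1, h3⟩
  filter_upwards [hE hM V Ω P G ρ hU bad hmeas hinv hroot] with q hq
  intro x y hxy
  by_contra hcon
  refine hq x ⟨y, hxy, fun n => ?_⟩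
  by_contra h2
  refine hcon ⟨n, fun j hj => ?_⟩
  by_contra h3
  exact h2 ⟨j, hj, h3⟩

end Pool.Agent.Q42.UT
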