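import Pool.Agent.Q42.UT.Stm

/-!
# Project UT, job DCT: choice of the times
-/

set_option autoImplicit false

open MeasureTheory Set Filter Topology
open scoped ENNReal unitInterval

namespace Pool.Agent.Q42.UT.DCT

open Pool.Agent.Q42.UT

theorem meas_win (hMNU : S_MNU) (V : Type) [Countable V] (N : ℕ) (x z : V) :
    MeasurableSet {q : SimpleGraph V × (V → I) | Win (nu q.1 N x) q.2 z} := by
  have hn : ∀ z, Measurable fun q : SimpleGraph V × (V → I) => nu q.1 N x z := fun z =>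
    (hMNU V N x z).comp measurable_fst
  have hp : ∀ w w' : V, Measurable fun q : SimpleGraph V × (V → I) => ((q.2 w : I) : ℝ) ^ (nu q.1 N x w').toReal :=
    fun w w' => (measurable_subtype_coe.comp ((measurable_pi_apply w).comp measurable_snd)).pow
      ((hn w').ennreal_toReal)
  have e : {q : SimpleGraph V × (V → I) | Win (nu q.1 N x) q.2 z} =
      {q | nu q.1 N x z ≠ 0} ∩ ⋂ w : V, {q | w ≠ z → (nu q.1 N x w = 0 ∨
        ((q.2 w : I) : ℝ) ^ (nu q.1 N x z).toReal < ((q.2 z : I) : ℝ) ^ (nu q.1 N x w).toReal)} := by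
    ext q
    simp only [Win, Set.mem_ofPred_eq, Set.mem_inter_iff, Set.mem_iInter]
  rw [e]
  refine MeasurableSet.inter (hn z (measurableSet_singleton (0 : ℝ≥0∞))).compl (MeasurableSet.iInter fun w => ?_)
  by_cases h : w = z
  · simp [h]
  · have e2 : {q : SimpleGraph V × (V → I) | w ≠ z → (nu q.1 N x w = 0 ∨
        ((q.2 w : I) : ℝ) ^ (nu q.1 N x z).toReal < ((q.2 z : I) : ℝ) ^ (nu q.1 N x w).toReal)} =
        {q | nu q.1 N x w = 0} ∪ {q | ((q.2 w : I) : ℝ) ^ (nu q.1 N x z).toReal <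
          ((q.2 z : I) : ℝ) ^ (nu q.1 N x w).toReal} := by
      ext q
      simp [h]
    rw [e2]
    exact (hn w (measurableSet_singleton (0 : ℝ≥0∞))).union (measurableSet_lt (hp w z) (hp z w))

theorem meas_ev (hMNU : S_MNU) {V Ω : Type} [Countable V] [MeasurableSpace Ω] {P : Measure Ω}
    {G : Ω → SimpleGraph V} {ρ : Ω → V} (hG : IsURG P G ρ) (N : ℕ) :
    MeasurableSet {q : Ω × (V → I) | ∃ y, (G q.1).Adj (ρ q.1) y ∧
      ¬ ∃ z, Win (nu (G q.1) N (ρ q.1)) q.2 z ∧ Win (nu (G q.1) N y) q.2 z} := by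
  have hgm : Measurable fun q : Ω × (V → I) => (G q.1, q.2) := (hG.mG.comp measurable_fst).prodMk measurable_snd
  have hw : ∀ x z, MeasurableSet {q : Ω × (V → I) | Win (nu (G q.1) N x) q.2 z} := fun x z =>
    hgm (meas_win hMNU V N x z)
  have e : {q : Ω × (V → I) | ∃ y, (G q.1).Adj (ρ q.1) y ∧
      ¬ ∃ z, Win (nu (G q.1) N (ρ q.1)) q.2 z ∧ Win (nu (G q.1) N y) q.2 z} =
      ⋃ v : V, ⋃ y : V, ({q | ρ q.1 = v} ∩ {q | (G q.1).Adj v y}) ∩
        (⋃ z : V, ({q | Win (nu (G q.1) N v) q.2 z} ∩ {q | Win (nu (G q.1) N y) q.2 z}))ᶜ := by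
    ext q
    simp only [Set.mem_ofPred_eq, Set.mem_iUnion, Set.mem_inter_iff, Set.mem_compl_iff]
    constructor
    · rintro ⟨y, h1, h2⟩
      exact ⟨ρ q.1, y, ⟨rfl, h1⟩, h2⟩
    · rintro ⟨v, y, ⟨rfl, h1⟩, h2⟩
      exact ⟨y, h1, h2⟩
  rw [e]
  refine MeasurableSet.iUnion fun v => MeasurableSet.iUnion fun y => ?_
  refine ((measurable_fst (hG.mρ v)).inter (hG.mG.comp measurable_fst (measurableSet_adj v y))).inter ?_
  exact (MeasurableSet.iUnion fun z => (hw v z).inter (hw y z)).compl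

end DCT

open DCT in
/-- job DCT -/
theorem t_DCT : S_DCT := by
  intro hOPN hRACE hRC1 hREI hHIT hGRN hNUP hMNU V Ω _ _ P G ρ hG hrec
  have hP := hG.prob
  set E : ℕ → Set (Ω × (V → I)) := fun N => {q | ∃ y, (G q.1).Adj (ρ q.1) y ∧
      ¬ ∃ z, Win (nu (G q.1) N (ρ q.1)) q.2 z ∧ Win (nu (G q.1) N y) q.2 z} with hE
  have hEm : ∀ N, MeasurableSet (E N) := fun N => meas_ev hMNU hG N
  have hlim : Tendsto (fun N => (P.prod (lu V)) (E N)) atTop (𝓝 0) := by
    have e : ∀ N, (P.prod (lu V)) (E N) = ∫⁻ ω, lu V (Prod.mk ω ⁻¹' E N) ∂P := fun N =>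
      Measure.prod_apply (hEm N)
    simp only [e]
    rw [← lintegral_zero (μ := P)]
    refine tendsto_lintegral_of_dominated_convergence (fun _ => 1) (fun N => measurable_measure_prodMk_left (hEm N))
      (fun N => ae_of_all _ fun ω => prob_le_one) (by simp) ?_
    filter_upwards [hrec] with ω hω
    obtain ⟨h1, h2, h3⟩ := hω
    have hfin := h1 (ρ ω)
    have h4 : ∀ N, lu V (Prod.mk ω ⁻¹' E N) ≤ ∑ y ∈ hfin.toFinset,
        lu V {U | ¬ ∃ z, Win (nu (G ω) N (ρ ω)) U z ∧ Win (nu (G ω) N y) U z} := by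
      intro N
      refine (measure_mono ?_).trans (measure_biUnion_finset_le _ _)
      intro U hU
      obtain ⟨y, hy1, hy2⟩ := hU
      simp only [Set.mem_iUnion]
      exact ⟨y, hfin.mem_toFinset.2 hy1, hy2⟩
    have h5 : Tendsto (fun N => ∑ y ∈ hfin.toFinset,
        lu V {U | ¬ ∃ z, Win (nu (G ω) N (ρ ω)) U z ∧ Win (nu (G ω) N y) U z}) atTop (𝓝 0) := by
      have := tendsto_finsetSum hfin.toFinset (f := fun y N =>
        lu V {U | ¬ ∃ z, Win (nu (G ω) N (ρ ω)) U z ∧ Win (nu (G ω) N y) U z}) (a := fun _ => 0)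
        (x := atTop) fun y hy => hOPN hRACE hRC1 hREI hHIT hGRN hNUP V (G ω) h1 h2 h3 (ρ ω) y (hfin.mem_toFinset.1 hy)
      simpa using this
    exact tendsto_of_tendsto_of_tendsto_of_le_of_le tendsto_const_nhds h5 (fun _ => zero_le) h4
  have hex : ∀ j : ℕ, ∃ N, (P.prod (lu V)) (E N) ≤ (2 : ℝ≥0∞)⁻¹ ^ j := by
    intro j
    have hpos : (0 : ℝ≥0∞) < (2 : ℝ≥0∞)⁻¹ ^ j := ENNReal.pow_pos (ENNReal.inv_pos.2 (by norm_num)) j
    exact ((hlim.eventually (ge_mem_nhds hpos))).exists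
  choose Ns hNs using hex
  exact ⟨Ns, hNs⟩

end Pool.Agent.Q42.UT
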