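import Mathlib
import Pool.Agent.TH968.UST.Defs
import Pool.Agent.TH830.J73
import Pool.Agent.TH830.J74

/-!
# Project UT (MP_688e31_pr): definitions

Wired uniform spanning trees of recurrent unimodular random graphs are factors of i.i.d. labels.
The trees of a finite edge set `trees`, `Conn`, `wired`, `touch`, `ustProb`, `avg`, `hit`, `Recurrent`,
`energy` are those of `Pool.Agent.TH968.UST.Defs`.
-/

set_option autoImplicit false

namespace Pool.Agent.Q42.UT

open MeasureTheory Set Filter Topology
open scoped ENNReal unitInterval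
open Pool.Agent.TH968.UST

/-- The σ-algebra on the set of graphs with vertex set `V` generated by the adjacency relations. -/
instance gms (V : Type) : MeasurableSpace (SimpleGraph V) :=
  MeasurableSpace.comap (fun (g : SimpleGraph V) (p : V × V) => g.Adj p.1 p.2) MeasurableSpace.pi

theorem measurableSet_adj {V : Type} (x y : V) :
    MeasurableSet {g : SimpleGraph V | g.Adj x y} := by
  have h : Measurable (fun (g : SimpleGraph V) (p : V × V) => g.Adj p.1 p.2) :=
    comap_measurable _
  have h2 := (measurable_pi_apply (x, y)).comp h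
  exact measurableSet_setOfPred.2 h2

theorem measurable_graph {V X : Type} [MeasurableSpace X] {G : X → SimpleGraph V}
    (h : ∀ x y, MeasurableSet {q | (G q).Adj x y}) : Measurable G := by
  refine measurable_comap_iff.2 (measurable_pi_iff.2 fun p => ?_)
  exact measurableSet_setOfPred.1 (h p.1 p.2)

/-- The product of copies of Lebesgue measure on the unit interval. -/
noncomputable abbrev lu (ι : Type) : Measure (ι → I) := Measure.infinitePi fun _ => volume

/-- Local finiteness. -/
def LF {V : Type} (g : SimpleGraph V) : Prop := ∀ v, {w | g.Adj v w}.Finite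

/-- There are no isolated vertices. -/
def NI {V : Type} (g : SimpleGraph V) : Prop := ∀ v, ∃ w, g.Adj v w

/-- `(G, ρ)` is a unimodular random rooted graph with vertex set `V`: mass transport principle. -/
structure IsURG {Ω V : Type} [MeasurableSpace Ω] (P : Measure Ω) (G : Ω → SimpleGraph V)
    (ρ : Ω → V) : Prop where
  prob : IsProbabilityMeasure P
  mG : Measurable G
  mρ : ∀ v, MeasurableSet {ω | ρ ω = v}
  mtp : ∀ f : SimpleGraph V → V → V → ℝ≥0∞, (∀ x y, Measurable fun g => f g x y) →
    (∀ (s : Equiv.Perm V) (g : SimpleGraph V) (x y : V), f (g.comap s) x y = f g (s x) (s y)) →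
    ∫⁻ ω, ∑' y, f (G ω) (ρ ω) y ∂P = ∫⁻ ω, ∑' x, f (G ω) x (ρ ω) ∂P

/-! ### Simple random walk -/

open Classical in
/-- `pn g n x z`: the probability that simple random walk on `g` started at `x` is at `z` at
time `n`. -/
noncomputable def pn {V : Type} (g : SimpleGraph V) : ℕ → V → V → ℝ≥0∞
  | 0, x, z => if x = z then 1 else 0
  | n + 1, x, z => avg g (fun w => pn g n w z) x

/-- Average of the laws at the times `0, ..., N - 1`. -/
noncomputable def nu {V : Type} (g : SimpleGraph V) (N : ℕ) (x z : V) : ℝ≥0∞ :=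
  (∑ n ∈ Finset.range N, pn g n x z) / N

/-- The `ℓ¹` distance. -/
noncomputable def d1 {V : Type} (p q : V → ℝ≥0∞) : ℝ≥0∞ := ∑' z, ((p z - q z) + (q z - p z))

/-! ### The race -/

/-- `z` wins the race with speeds `p`, when the vertices carry the labels `U`: the number
`(U z) ^ (1 / p z)` is larger than all other `(U w) ^ (1 / p w)`. -/
def Win {V : Type} (p : V → ℝ≥0∞) (U : V → I) (z : V) : Prop :=
  p z ≠ 0 ∧ ∀ w, w ≠ z → p w = 0 ∨ ((U w : ℝ) ^ (p z).toReal < (U z : ℝ) ^ (p w).toReal)

/-- The races of stage `j`, with labels `r (·, j)`. -/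
def WinJ {V : Type} (Ns : ℕ → ℕ) (g : SimpleGraph V) (r : V × ℕ → I) (j : ℕ) (x z : V) : Prop :=
  Win (nu g (Ns j) x) (fun v => r (v, j)) z

/-- Edges of `g` whose endpoints have the same winner in all stages from `n` on. -/
def Hg {V : Type} (Ns : ℕ → ℕ) (g : SimpleGraph V) (r : V × ℕ → I) (n : ℕ) : SimpleGraph V where
  Adj x y := g.Adj x y ∧ ∀ j, n ≤ j → ∃ z, WinJ Ns g r j x z ∧ WinJ Ns g r j y z
  symm := ⟨fun x y h => ⟨h.1.symm, fun j hj => (h.2 j hj).imp fun _ h => ⟨h.2, h.1⟩⟩⟩
  loopless := ⟨fun x h => g.loopless.irrefl x h.1⟩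

/-- The tower `⊥ ≤ Hg 0 ≤ Hg 1 ≤ ...`. -/
def tw {V : Type} (Ns : ℕ → ℕ) (g : SimpleGraph V) (r : V × ℕ → I) : ℕ → SimpleGraph V
  | 0 => ⊥
  | n + 1 => Hg Ns g r n

/-! ### Finite sets of vertices -/

open Classical in
/-- The edges of `K` inside `C`. -/
noncomputable def ed {V : Type} (K : SimpleGraph V) (C : Finset V) : Finset (Sym2 V) :=
  C.sym2.filter (fun e => e ∈ K.edgeSet)

open Classical in
/-- The rank of the label of `v` among the labels of the members of `C`. -/
noncomputable def rk {V : Type} (a : V → I) (C : Finset V) (v : V) : ℕ :=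
  (C.filter fun w => a w < a v).card

open Classical in
/-- Translation of a set of edges inside `C` to a set of pairs of natural numbers. -/
noncomputable def code {V : Type} (a : V → I) (C : Finset V) (S : Finset (Sym2 V)) :
    Finset (Sym2 ℕ) :=
  S.image (Sym2.map (rk a C))

/-- `C` is a union of components of `K`. -/
def Cl {V : Type} (K : SimpleGraph V) (C : Finset V) : Prop := ∀ x ∈ C, ∀ y, K.Adj x y → y ∈ C

/-- `C` is a component of `K`. -/
def IsComp {V : Type} (K : SimpleGraph V) (C : Finset V) : Prop :=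
  C.Nonempty ∧ Cl K C ∧ ∀ x ∈ C, ∀ y ∈ C, K.Reachable x y

/-- All components are finite. -/
def FinComp {V : Type} (K : SimpleGraph V) : Prop := ∀ x, {y | K.Reachable x y}.Finite

/-- The type of coupling functions. -/
abbrev CF : Type :=
  Finset (Sym2 ℕ) → Finset (Sym2 ℕ) → Finset (Sym2 ℕ) → I → Finset (Sym2 ℕ)

/-- `F E E' T' t` turns a uniform tree `T'` of `E' ⊆ E` and a uniform number `t` into a uniform
tree `T` of `E` with `T ∩ E' ⊆ T'`. -/
structure IsCpl (F : CF) : Prop where
  tree : ∀ E E' T' t, E' ⊆ E → T' ∈ trees ⊥ E' → F E E' T' t ∈ trees ⊥ E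
  sub : ∀ E E' T' t, E' ⊆ E → T' ∈ trees ⊥ E' → ∀ e ∈ F E E' T' t, e ∈ E' → e ∈ T'
  meas : ∀ E E' T' T, MeasurableSet {t : I | F E E' T' t = T}
  law : ∀ E E', E' ⊆ E → ∀ T ∈ trees ⊥ E,
    ∑ T' ∈ trees ⊥ E', volume {t : I | F E E' T' t = T} =
      ((trees ⊥ E').card : ℝ≥0∞) / (trees ⊥ E).card

open Classical in
/-- The random trees of the tower `K`: `Tr F K a t n` is the union of the trees of the components
of `K n`. The order labels are `a`, the sampling labels of stage `n` are `t (·, n)`; the label of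
the first vertex of a component is used. -/
noncomputable def Tr {V : Type} (F : CF) (K : ℕ → SimpleGraph V) (a : V → I) (t : V × ℕ → I) :
    ℕ → Set (Sym2 V)
  | 0 => ∅
  | n + 1 => {e | ∃ C : Finset V, IsComp (K (n + 1)) C ∧ e ∈ ed (K (n + 1)) C ∧
      ∃ v ∈ C, rk a C v = 0 ∧
        Sym2.map (rk a C) e ∈ F (code a C (ed (K (n + 1)) C)) (code a C (ed (K n) C))
          (code a C ((ed (K n) C).filter (fun e' => e' ∈ Tr F K a t n))) (t (v, n))}

/-- The limit. -/
def Tinf {V : Type} (F : CF) (K : ℕ → SimpleGraph V) (a : V → I) (t : V × ℕ → I) :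
    Set (Sym2 V) :=
  {e | ∃ n, ∀ m, n ≤ m → e ∈ Tr F K a t m}

open Classical in
/-- The part of `S` inside the finite set `E`. -/
noncomputable def rs {V : Type} (E : Finset (Sym2 V)) (S : Set (Sym2 V)) : Finset (Sym2 V) :=
  E.filter (fun e => e ∈ S)

/-- A tower of graphs with finite components. -/
structure IsTower {V : Type} (K : ℕ → SimpleGraph V) : Prop where
  zero : K 0 = ⊥
  mono : ∀ n, K n ≤ K (n + 1)
  fin : ∀ n, FinComp (K n)

end Pool.Agent.Q42.UT
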