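import Pool.Agent.Q42.UT.MTP

/-!
# Project UT, job EVE: what almost surely does not happen at the root does not happen anywhere
-/

set_option autoImplicit false

open MeasureTheory Set Filter Topology
open scoped ENNReal unitInterval

namespace Pool.Agent.Q42.UT

/-- job EVE -/
theorem t_EVE : S_EVE := by
  intro hMTP V Ω _ _ P G ρ hG bad hb hinv hroot
  classical
  have hP := hG.prob
  set f : SimpleGraph V → (V × ℕ → I) → V → V → ℝ≥0∞ := fun g r x _ => if bad g r x then 1 else 0 with hf
  have hfm : ∀ x y, Measurable fun q : SimpleGraph V × (V × ℕ → I) => f q.1 q.2 x y := fun x _ =>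
    Measurable.ite (hb x) measurable_const measurable_const
  have h1 := hMTP V Ω P G ρ hG f hfm (fun s g r x _ => by
    simp only [hf]
    exact if_congr (hinv s g r x) rfl rfl)
  have h2 : ∫⁻ q, ∑' y, f (G q.1) q.2 (ρ q.1) y ∂(P.prod (lu (V × ℕ))) = 0 := by
    rw [← lintegral_zero (μ := P.prod (lu (V × ℕ)))]
    refine lintegral_congr_ae ?_
    filter_upwards [hroot] with q hq
    simp [hf, hq]
  rw [h2] at h1
  have hm : ∀ x, Measurable fun q : Ω × (V × ℕ → I) => f (G q.1) q.2 x (ρ q.1) := fun x =>
    Measurable.ite (((hG.mG.comp measurable_fst).prodMk measurable_snd) (hb x)) measurable_const measurable_const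
  have h3 := (lintegral_eq_zero_iff (Measurable.tsum hm)).1 h1.symm
  filter_upwards [h3] with q hq v hv
  have h4 : ∑' x, f (G q.1) q.2 x (ρ q.1) = 0 := hq
  have h5 := ENNReal.tsum_eq_zero.1 h4 v
  simp [hf, hv] at h5

end Pool.Agent.Q42.UT
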