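import Pool.Agent.Q42.UT.MTP

/-!
# Project UT, job FCL: finite clusters
-/

set_option autoImplicit false

open MeasureTheory Set Filter Topology
open scoped ENNReal unitInterval

namespace Pool.Agent.Q42.UT.FCL

theorem fin_iff {V : Type} (A : Set V) : ∑' x, A.indicator (1 : V → ℝ≥0∞) x ≠ ∞ ↔ A.Finite := by
  rw [← tsum_subtype]
  constructor
  · intro h
    by_contra hinf
    have : Infinite A := Set.infinite_coe_iff.2 hinf
    exact h (ENNReal.tsum_const_eq_top_of_ne_zero one_ne_zero)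
  · intro h
    have := h.fintype
    rw [tsum_fintype]
    simp

end FCL

open FCL in
/-- job FCL -/
theorem t_FCL : S_FCL := by
  intro hMTP hEVE hWUN hMNU hMW hIW V Ω _ _ P G ρ hG Ns
  classical
  have hP := hG.prob
  rw [ae_all_iff]
  intro j
  have hw := hMW hMNU V Ns j
  have hs : ∀ (q : SimpleGraph V × (V × ℕ → I)) (z : V), ∑' x, (if WinJ Ns q.1 q.2 j x z then 1 else 0 : ℝ≥0∞) ≠ ∞ ↔
      {x | WinJ Ns q.1 q.2 j x z}.Finite := by
    intro q z
    rw [← fin_iff]
    have e : ∀ x, (if WinJ Ns q.1 q.2 j x z then 1 else 0 : ℝ≥0∞) =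
        {x | WinJ Ns q.1 q.2 j x z}.indicator (1 : V → ℝ≥0∞) x := fun x => by
      by_cases h : WinJ Ns q.1 q.2 j x z <;> simp [h]
    simp only [e]
  have hm : ∀ z, Measurable fun q : SimpleGraph V × (V × ℕ → I) =>
      ∑' x, (if WinJ Ns q.1 q.2 j x z then 1 else 0 : ℝ≥0∞) := fun z =>
    Measurable.tsum fun x => Measurable.ite (hw x z) measurable_const measurable_const
  have hbad : ∀ z, MeasurableSet {q : SimpleGraph V × (V × ℕ → I) | ¬ {x | WinJ Ns q.1 q.2 j x z}.Finite} := by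
    intro z
    have e : {q : SimpleGraph V × (V × ℕ → I) | ¬ {x | WinJ Ns q.1 q.2 j x z}.Finite} =
        (fun q : SimpleGraph V × (V × ℕ → I) => ∑' x, (if WinJ Ns q.1 q.2 j x z then 1 else 0 : ℝ≥0∞)) ⁻¹' {∞} := by
      ext q
      rw [Set.mem_ofPred_eq, ← hs]
      simp
    rw [e]
    exact hm z (measurableSet_singleton _)
  have h1 := hEVE hMTP V Ω P G ρ hG (fun g r z => ¬ {x | WinJ Ns g r j x z}.Finite) hbad (by
    intro s g r z
    rw [not_iff_not]
    have e : {x | WinJ Ns (g.comap s) (fun p => r (s p.1, p.2)) j x z} = s ⁻¹' {x | WinJ Ns g r j x (s z)} := by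
      ext x
      exact hIW V Ns s g r j x z
    rw [e]
    exact ⟨fun h => h.of_preimage s.surjective, fun h => h.preimage s.injective.injOn⟩)
  have h2 : ∀ᵐ q ∂(P.prod (lu (V × ℕ))), ¬ ¬ {x | WinJ Ns (G q.1) q.2 j x (ρ q.1)}.Finite := by
    have h3 := hMTP V Ω P G ρ hG (fun g r x z => if WinJ Ns g r j x z then 1 else 0)
      (fun x y => Measurable.ite (hw x y) measurable_const measurable_const)
      (fun s g r x y => if_congr (hIW V Ns s g r j x y) rfl rfl)
    have h4 : ∫⁻ q, ∑' y, (if WinJ Ns (G q.1) q.2 j (ρ q.1) y then 1 else 0 : ℝ≥0∞) ∂(P.prod (lu (V × ℕ))) ≤ 1 := by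
      have h5 : ∀ q : Ω × (V × ℕ → I), ∑' y, (if WinJ Ns (G q.1) q.2 j (ρ q.1) y then 1 else 0 : ℝ≥0∞) ≤ 1 := by
        intro q
        by_cases h : ∃ z, WinJ Ns (G q.1) q.2 j (ρ q.1) z
        · obtain ⟨z, hz⟩ := h
          rw [tsum_eq_single z]
          · rw [if_pos hz]
          · intro y hy
            rw [if_neg]
            intro h'
            exact hy (hWUN V _ _ y z h' hz)
        · push Not at h
          simp [h]
      refine (lintegral_mono h5).trans ?_
      rw [lintegral_one, measure_univ]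
    rw [h3] at h4
    have hm' : Measurable fun q : Ω × (V × ℕ → I) =>
        ∑' x, (if WinJ Ns (G q.1) q.2 j x (ρ q.1) then 1 else 0 : ℝ≥0∞) :=
      MTP.meas_root (h := fun v q => ∑' x, (if WinJ Ns (G q.1) q.2 j x v then 1 else 0 : ℝ≥0∞)) hG.mρ fun v =>
        (hm v).comp ((hG.mG.comp measurable_fst).prodMk measurable_snd)
    filter_upwards [ae_lt_top hm' (h4.trans_lt ENNReal.one_lt_top).ne] with q hq
    rw [not_not]
    exact (hs (G q.1, q.2) (ρ q.1)).1 hq.ne
  filter_upwards [h1 h2] with q hq z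
  exact not_not.1 (hq z)

end Pool.Agent.Q42.UT
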