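import Pool.Agent.Q42.UT.Stm2

/-!
# Project UT (MP_688e31_pr): assembly
-/

set_option autoImplicit false

namespace Pool.Agent.Q42.UT

open MeasureTheory Set Filter Topology
open scoped ENNReal unitInterval
open Pool.Agent.TH968.UST

/-- The statement of the theorem. -/
def Final : Prop :=
  ∀ (V : Type) [Countable V] [Nontrivial V] (Ω : Type) [MeasurableSpace Ω] (P : Measure Ω)
    [IsProbabilityMeasure P] (G : Ω → SimpleGraph V), Measurable G →
    (∀ᵐ ω ∂P, (G ω).Connected ∧ LF (G ω) ∧ Recurrent (G ω)) →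
    ∃ Φ : SimpleGraph V → (V → I) → Set (Sym2 V),
      (∀ e, MeasurableSet {q : SimpleGraph V × (V → I) | e ∈ Φ q.1 q.2}) ∧
      (∀ (s : Equiv.Perm V) (g : SimpleGraph V) (u : V → I) (e : Sym2 V),
        e ∈ Φ (g.comap s) (fun v => u (s v)) ↔ Sym2.map s e ∈ Φ g u) ∧
      ∀ᵐ ω ∂P, ∀ B : ℕ → Finset V, Monotone B → (∀ v, ∃ n, v ∈ B n) →
        ∀ S A : Finset (Sym2 V),
          Tendsto (fun n => ustProb (wired (B n)) (touch (G ω) (B n)) (S : Set (Sym2 V))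
            (A : Set (Sym2 V))) atTop (𝓝 ((lu V).real {u | Φ (G ω) u ∩ S = A}))

theorem ni_of {V : Type} [Nontrivial V] {g : SimpleGraph V} (h : g.Connected) : NI g := by
  intro v
  obtain ⟨w, hw⟩ := exists_ne v
  obtain ⟨p⟩ := h.preconnected v w
  cases p with
  | nil => exact absurd rfl hw
  | cons h' _ => exact ⟨_, h'⟩

theorem meas_tinf {V : Type} [Countable V] {F : CF} (hF : IsCpl F) {Ns : ℕ → ℕ}
    (hM : ∀ e : Sym2 V, MeasurableSet {q : SimpleGraph V × (V → I) × (V × ℕ → I) × (V × ℕ → I) |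
      e ∈ Tinf F (tw Ns q.1 q.2.2.1) q.2.1 q.2.2.2}) (S A : Finset (Sym2 V)) :
    MeasurableSet {q : SimpleGraph V × (V → I) × (V × ℕ → I) × (V × ℕ → I) |
      Tinf F (tw Ns q.1 q.2.2.1) q.2.1 q.2.2.2 ∩ S = A} := by
  have : {q : SimpleGraph V × (V → I) × (V × ℕ → I) × (V × ℕ → I) |
      Tinf F (tw Ns q.1 q.2.2.1) q.2.1 q.2.2.2 ∩ S = A} =
      ⋂ e : Sym2 V, {q | (e ∈ Tinf F (tw Ns q.1 q.2.2.1) q.2.1 q.2.2.2 ∧ e ∈ (S : Set (Sym2 V)))
        ↔ e ∈ (A : Set (Sym2 V))} := by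
    ext q
    simp only [mem_ofPred_eq, mem_iInter, Set.ext_iff, mem_inter_iff]
  rw [this]
  refine MeasurableSet.iInter fun e => ?_
  by_cases h1 : e ∈ (S : Set (Sym2 V)) <;> by_cases h2 : e ∈ (A : Set (Sym2 V))
  · simpa [h1, h2] using hM e
  · have h3 : {q : SimpleGraph V × (V → I) × (V × ℕ → I) × (V × ℕ → I) |
        (e ∈ Tinf F (tw Ns q.1 q.2.2.1) q.2.1 q.2.2.2 ∧ e ∈ (S : Set (Sym2 V))) ↔
          e ∈ (A : Set (Sym2 V))} = {q | e ∈ Tinf F (tw Ns q.1 q.2.2.1) q.2.1 q.2.2.2}ᶜ := by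
      ext q
      simp [h1, h2]
    rw [h3]
    exact (hM e).compl
  · simp [h1, h2]
  · simp [h1, h2]

theorem final_of (hCPL : S_CPL) (hDCX : ∀ (V Ω : Type) [Countable V] [MeasurableSpace Ω]
    (P : Measure Ω) [IsProbabilityMeasure P]
    (G : Ω → SimpleGraph V), Measurable G → (∀ᵐ ω ∂P, LF (G ω) ∧ NI (G ω) ∧ Recurrent (G ω)) →
    ∀ c : V → ℕ, Function.Injective c →
    ∃ Ns : ℕ → ℕ, ∀ j, (P.prod (lu V)) {q | ∃ x y, c x ≤ j ∧ c y ≤ j ∧ (G q.1).Adj x y ∧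
      ¬ ∃ z, Win (nu (G q.1) (Ns j) x) q.2 z ∧ Win (nu (G q.1) (Ns j) y) q.2 z} ≤ (2 : ℝ≥0∞)⁻¹ ^ j)
    (hBCX : S_BCX)
    (hFCX : ∀ (V : Type) [Countable V] (g : SimpleGraph V), LF g → NI g → ∀ Ns : ℕ → ℕ,
      ∀ᵐ r ∂(lu (V × ℕ)), ∀ j z, {x | WinJ Ns g r j x z}.Finite)
    (hWUN : S_WUN) (hTOW : S_TOW) (hINJ : S_INJ)
    (hMPH : ∀ (F : CF), IsCpl F → ∀ (V : Type) [Countable V] (Ns : ℕ → ℕ)
      (e : Sym2 V), MeasurableSet {q : SimpleGraph V × (V → I) × (V × ℕ → I) × (V × ℕ → I) |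
        e ∈ Tinf F (tw Ns q.1 q.2.2.1) q.2.1 q.2.2.2})
    (hEPH : ∀ (F : CF) (V : Type) (Ns : ℕ → ℕ) (s : Equiv.Perm V)
      (g : SimpleGraph V) (a : V → I) (r t : V × ℕ → I) (e : Sym2 V),
      (e ∈ Tinf F (tw Ns (g.comap s) (fun p => r (s p.1, p.2))) (fun v => a (s v))
          (fun p => t (s p.1, p.2)) ↔
        Sym2.map s e ∈ Tinf F (tw Ns g r) a t))
    (hSPL : S_SPL)
    (hLIM : ∀ (F : CF), IsCpl F → ∀ (V : Type) [Countable V] (g : SimpleGraph V), g.Connected →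
      LF g → NI g → Recurrent g → ∀ (K : ℕ → SimpleGraph V), IsTower K → (∀ n, K n ≤ g) →
      (∀ x y, g.Adj x y → ∃ n, (K n).Adj x y) → ∀ a : V → I, Function.Injective a →
      ∀ B : ℕ → Finset V, Monotone B → (∀ v, ∃ n, v ∈ B n) → ∀ S A : Finset (Sym2 V),
      Tendsto (fun n => ustProb (wired (B n)) (touch g (B n)) (S : Set (Sym2 V))
        (A : Set (Sym2 V))) atTop (𝓝 ((lu (V × ℕ)).real {t | Tinf F K a t ∩ S = A}))) :
    Final := by
  intro V _ _ Ω _ P _ G hGm hG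
  obtain ⟨F, hF⟩ := hCPL
  obtain ⟨c, hc⟩ := exists_injective_nat V
  have hG' : ∀ᵐ ω ∂P, LF (G ω) ∧ NI (G ω) ∧ Recurrent (G ω) := by
    filter_upwards [hG] with ω h using ⟨h.2.1, ni_of h.1, h.2.2⟩
  obtain ⟨Ns, hNs⟩ := hDCX V Ω P G hGm hG' c hc
  have h1 := Measure.ae_ae_of_ae_prod (hBCX V Ω P G c hc Ns hNs)
  have h4 : ∀ᵐ ω ∂P, ∀ᵐ r ∂(lu (V × ℕ)), IsTower (tw Ns (G ω) r) ∧
      (∀ n, tw Ns (G ω) r n ≤ G ω) ∧
      ∀ x y, (G ω).Adj x y → ∃ n, (tw Ns (G ω) r n).Adj x y := by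
    filter_upwards [h1, hG'] with ω h1 hω
    filter_upwards [h1, hFCX V (G ω) hω.1 hω.2.1 Ns] with r h1 h2
    exact hTOW hWUN V Ns (G ω) r h2 h1
  obtain ⟨φ₀, φ₁, φ₂, m0, m1, m2, hφ⟩ := hSPL
  let Φ : SimpleGraph V → (V → I) → Set (Sym2 V) := fun g u =>
    Tinf F (tw Ns g (fun p => φ₁ (u p.1) p.2)) (fun v => φ₀ (u v)) (fun p => φ₂ (u p.1) p.2)
  have mv : ∀ p : V × ℕ, Measurable fun u : V → I => φ₁ (u p.1) p.2 := fun p =>
    (measurable_pi_apply p.2).comp (m1.comp (measurable_pi_apply p.1))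
  have mv2 : ∀ p : V × ℕ, Measurable fun u : V → I => φ₂ (u p.1) p.2 := fun p =>
    (measurable_pi_apply p.2).comp (m2.comp (measurable_pi_apply p.1))
  have mT : Measurable (fun u : V → I => ((fun v => φ₀ (u v) : V → I),
      (fun p => φ₁ (u p.1) p.2 : V × ℕ → I), (fun p => φ₂ (u p.1) p.2 : V × ℕ → I))) := by
    refine Measurable.prodMk (measurable_pi_iff.2 fun v => m0.comp (measurable_pi_apply v)) ?_
    exact Measurable.prodMk (measurable_pi_iff.2 mv) (measurable_pi_iff.2 mv2)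
  refine ⟨Φ, ?_, ?_, ?_⟩
  · intro e
    have h5 := hMPH F hF V Ns e
    have h6 : Measurable (fun q : SimpleGraph V × (V → I) => (q.1, ((fun v => φ₀ (q.2 v) : V → I),
      (fun p => φ₁ (q.2 p.1) p.2 : V × ℕ → I), (fun p => φ₂ (q.2 p.1) p.2 : V × ℕ → I)))) :=
      Measurable.prodMk measurable_fst (mT.comp measurable_snd)
    exact h6 h5
  · intro s g u e
    exact hEPH F V Ns s g (fun v => φ₀ (u v)) (fun p => φ₁ (u p.1) p.2) (fun p => φ₂ (u p.1) p.2) e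
  · filter_upwards [hG, h4] with ω hω h5 B hB hB' S A
    have hni := ni_of hω.1
    -- the limit is the same for almost all `r`, `a`
    have h6 : ∀ᵐ r ∂(lu (V × ℕ)), ∀ᵐ a ∂(lu V),
        Tendsto (fun n => ustProb (wired (B n)) (touch (G ω) (B n)) (S : Set (Sym2 V))
          (A : Set (Sym2 V))) atTop
          (𝓝 ((lu (V × ℕ)).real {t | Tinf F (tw Ns (G ω) r) a t ∩ S = A})) := by
      filter_upwards [h5] with r hr
      filter_upwards [hINJ V] with a ha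
      exact hLIM F hF V (G ω) hω.1 hω.2.1 hni hω.2.2 _ hr.1 hr.2.1 hr.2.2 a ha B hB hB' S A
    obtain ⟨L, hL⟩ : ∃ L : ℝ, Tendsto (fun n => ustProb (wired (B n)) (touch (G ω) (B n))
        (S : Set (Sym2 V)) (A : Set (Sym2 V))) atTop (𝓝 L) := by
      obtain ⟨r, hr⟩ := h6.exists
      obtain ⟨a, ha⟩ := hr.exists
      exact ⟨_, ha⟩
    have h7 : ∀ᵐ r ∂(lu (V × ℕ)), ∀ᵐ a ∂(lu V),
        (lu (V × ℕ)) {t | Tinf F (tw Ns (G ω) r) a t ∩ S = A} = ENNReal.ofReal L := by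
      filter_upwards [h6] with r hr
      filter_upwards [hr] with a ha
      rw [← tendsto_nhds_unique ha hL, ofReal_measureReal]
    have hms := meas_tinf hF (hMPH F hF V Ns) S A
    have hms2 : MeasurableSet {q : (V → I) × (V × ℕ → I) × (V × ℕ → I) |
        Tinf F (tw Ns (G ω) q.2.1) q.1 q.2.2 ∩ S = A} := by
      have h8 : Measurable (fun q : (V → I) × (V × ℕ → I) × (V × ℕ → I) => (G ω, q)) :=
        Measurable.prodMk measurable_const measurable_id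
      exact h8 hms
    have h9 : (lu V) {u | Φ (G ω) u ∩ S = A} = ENNReal.ofReal L := by
      have h10 : (lu V) {u | Φ (G ω) u ∩ S = A} =
          ((lu V).prod ((lu (V × ℕ)).prod (lu (V × ℕ)))) {q : (V → I) × (V × ℕ → I) × (V × ℕ → I) |
            Tinf F (tw Ns (G ω) q.2.1) q.1 q.2.2 ∩ S = A} := by
        rw [← hφ V, Measure.map_apply mT hms2]
        rfl
      rw [h10, Measure.prod_apply hms2]
      have h11 : ∀ a : V → I, ((lu (V × ℕ)).prod (lu (V × ℕ))) (Prod.mk a ⁻¹' {q : (V → I) ×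
          (V × ℕ → I) × (V × ℕ → I) | Tinf F (tw Ns (G ω) q.2.1) q.1 q.2.2 ∩ S = A}) =
          ∫⁻ r, (lu (V × ℕ)) {t | Tinf F (tw Ns (G ω) r) a t ∩ S = A} ∂(lu (V × ℕ)) := by
        intro a
        rw [Measure.prod_apply (measurable_prodMk_left hms2)]
        rfl
      simp_rw [h11]
      rw [lintegral_lintegral_swap]
      · calc ∫⁻ r, ∫⁻ a, (lu (V × ℕ)) {t | Tinf F (tw Ns (G ω) r) a t ∩ S = A} ∂(lu V)
              ∂(lu (V × ℕ)) = ∫⁻ r, ENNReal.ofReal L ∂(lu (V × ℕ)) := by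
              refine lintegral_congr_ae ?_
              filter_upwards [h7] with r hr
              calc _ = ∫⁻ a, ENNReal.ofReal L ∂(lu V) := lintegral_congr_ae hr
                _ = _ := by simp
          _ = _ := by simp
      · have h12 : Measurable (fun x : ((V → I) × (V × ℕ → I)) × (V × ℕ → I) =>
            (x.1.1, x.1.2, x.2)) := by fun_prop
        have h13 := measurable_measure_prodMk_left (ν := lu (V × ℕ)) (h12 hms2)
        exact h13.aemeasurable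
    rw [measureReal_def, h9, ENNReal.toReal_ofReal]
    · exact hL
    · refine ge_of_tendsto' hL fun n => ?_
      unfold ustProb
      positivity

end Pool.Agent.Q42.UT
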