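import Pool.Agent.Q42.UT.SPL

/-!
# Project UT, job MTP: mass transport with labels
-/

set_option autoImplicit false

open MeasureTheory Set Filter Topology
open scoped ENNReal unitInterval

namespace Pool.Agent.Q42.UT.MTP

open Pool.Agent.Q42.UT

theorem meas_root {V Ω X : Type} [Countable V] [MeasurableSpace Ω] [MeasurableSpace X] {ρ : Ω → V}
    (hρ : ∀ v, MeasurableSet {ω | ρ ω = v}) {h : V → Ω × X → ℝ≥0∞} (hh : ∀ v, Measurable (h v)) :
    Measurable fun q : Ω × X => h (ρ q.1) q := by
  have e : (fun q : Ω × X => h (ρ q.1) q) = fun q => ∑' v, Set.indicator {q : Ω × X | ρ q.1 = v} (h v) q := by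
    funext q
    rw [tsum_eq_single (ρ q.1)]
    · simp
    · intro v hv
      rw [Set.indicator_of_notMem]
      exact fun h => hv h.symm
  rw [e]
  exact Measurable.tsum fun v => (hh v).indicator (measurable_fst (hρ v))

end MTP

open MTP in
/-- job MTP -/
theorem t_MTP : S_MTP := by
  intro V Ω _ _ P G ρ hG f hf hinv
  have hP := hG.prob
  set F : SimpleGraph V → V → V → ℝ≥0∞ := fun g x y => ∫⁻ r, f g r x y ∂(lu (V × ℕ)) with hF
  have hFm : ∀ x y, Measurable fun g => F g x y := fun x y => (hf x y).lintegral_prod_right'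
  have hFi : ∀ (s : Equiv.Perm V) (g : SimpleGraph V) (x y : V), F (g.comap s) x y = F g (s x) (s y) := by
    intro s g x y
    have hinj : Function.Injective (fun p : V × ℕ => (s p.1, p.2)) := by
      rintro ⟨a, n⟩ ⟨b, m⟩ h
      simp only [Prod.mk.injEq, EmbeddingLike.apply_eq_iff_eq] at h
      exact Prod.ext h.1 h.2
    have h1 := SPL.map_inj _ hinj
    have h0 : Measurable fun r => f (g.comap s) r x y := (hf x y).comp (measurable_const.prodMk measurable_id)
    simp only [hF]
    conv_lhs => rw [← h1]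
    rw [lintegral_map h0 (by fun_prop)]
    exact lintegral_congr fun r => hinv s g r x y
  have hm : ∀ x y, Measurable fun q : Ω × (V × ℕ → I) => f (G q.1) q.2 x y := fun x y =>
    (hf x y).comp ((hG.mG.comp measurable_fst).prodMk measurable_snd)
  rw [lintegral_prod _ (Measurable.tsum fun y =>
      meas_root (h := fun v q => f (G q.1) q.2 v y) hG.mρ fun v => hm v y).aemeasurable,
    lintegral_prod _ (Measurable.tsum fun x =>
      meas_root (h := fun v q => f (G q.1) q.2 x v) hG.mρ fun v => hm x v).aemeasurable]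
  have h2 : ∀ (g : SimpleGraph V) (x y : V), Measurable fun r => f g r x y := fun g x y =>
    (hf x y).comp (measurable_const.prodMk measurable_id)
  have h3 : ∀ ω, ∫⁻ r, ∑' y, f (G ω) r (ρ ω) y ∂(lu (V × ℕ)) = ∑' y, F (G ω) (ρ ω) y := fun ω =>
    lintegral_tsum fun y => (h2 _ _ _).aemeasurable
  have h4 : ∀ ω, ∫⁻ r, ∑' x, f (G ω) r x (ρ ω) ∂(lu (V × ℕ)) = ∑' x, F (G ω) x (ρ ω) := fun ω =>
    lintegral_tsum fun x => (h2 _ _ _).aemeasurable
  simp only [h3, h4]
  exact hG.mtp F hFm hFi

end Pool.Agent.Q42.UT
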