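import Pool.Agent.Q42.UT.Stm

/-!
# Project UT (helper42), MP_688e31_pr: the averaged laws of neighbouring starting points
-/

set_option autoImplicit false

namespace Pool.Agent.Q42.UT

open MeasureTheory Set Filter Topology
open scoped ENNReal unitInterval
open Pool.Agent.TH968.UST

namespace REI

theorem avg_le {V : Type} (g : SimpleGraph V) (f : V → ℝ≥0∞) (hf : ∀ v, f v ≤ 1) (v : V) :
    avg g f v ≤ 1 := by
  classical
  unfold avg
  refine ENNReal.div_le_of_le_mul ?_
  rw [one_mul]
  refine ENNReal.tsum_le_tsum fun w => ?_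
  split_ifs
  · exact hf w
  · exact le_rfl

theorem hit_le {V : Type} (g : SimpleGraph V) (x : V) : ∀ (n : ℕ) (v : V), hit g x n v ≤ 1 := by
  classical
  intro n
  induction n with
  | zero =>
    intro v
    unfold hit
    split_ifs
    · exact le_rfl
    · exact bot_le
  | succ n ih =>
    intro v
    unfold hit
    split_ifs
    · exact le_rfl
    · exact avg_le g _ ih v

theorem d1_div {V : Type} (p q : V → ℝ≥0∞) (N : ℕ) (hN : N ≠ 0) :
    d1 (fun z => p z / N) (fun z => q z / N) = d1 p q / N := by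
  have hN' : (N : ℝ≥0∞) ≠ 0 := by exact_mod_cast hN
  unfold d1
  rw [div_eq_mul_inv, ← ENNReal.tsum_mul_right]
  refine tsum_congr fun z => ?_
  rw [← ENNReal.sub_div fun _ _ => hN', ← ENNReal.sub_div fun _ _ => hN', add_mul,
    div_eq_mul_inv, div_eq_mul_inv]

/-- Averages of a null sequence. -/
theorem cesaro (u : ℕ → ℝ≥0∞) (h1 : ∀ n, u n ≤ 1) (h : Tendsto u atTop (𝓝 0)) :
    Tendsto (fun N : ℕ => (2 * ∑ n ∈ Finset.range N, u n) / N) atTop (𝓝 0) := by
  have hr : Tendsto (fun n => (u n).toReal) atTop (𝓝 0) := by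
    have := (ENNReal.tendsto_toReal ENNReal.zero_ne_top).comp h
    rw [ENNReal.toReal_zero] at this
    exact this
  have hc := hr.cesaro.const_mul 2
  rw [mul_zero] at hc
  have h2 := ENNReal.tendsto_ofReal hc
  rw [ENNReal.ofReal_zero] at h2
  refine h2.congr' ?_
  filter_upwards [eventually_ge_atTop 1] with N hN
  have hne : ∀ n, u n ≠ ∞ := fun n => ne_top_of_le_ne_top ENNReal.one_ne_top (h1 n)
  have hN0 : (0 : ℝ) < N := by exact_mod_cast hN
  have e1 : ∑ n ∈ Finset.range N, u n = ENNReal.ofReal (∑ n ∈ Finset.range N, (u n).toReal) := by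
    rw [ENNReal.ofReal_sum_of_nonneg fun _ _ => ENNReal.toReal_nonneg]
    exact Finset.sum_congr rfl fun n _ => (ENNReal.ofReal_toReal (hne n)).symm
  rw [e1]
  have e2 : (2 : ℝ≥0∞) = ENNReal.ofReal 2 := by norm_num
  have e3 : (N : ℝ≥0∞) = ENNReal.ofReal N := by rw [ENNReal.ofReal_natCast]
  rw [e2, e3, ← ENNReal.ofReal_mul (by norm_num), ← ENNReal.ofReal_div_of_pos hN0]
  congr 1
  ring

end REI

open REI in
theorem t_REI : S_REI := by
  intro hHIT hGRN V _ g hLF hNI hrec x y hxy
  have h1 := hHIT V g hLF hrec x y hxy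
  have h2 : Tendsto (fun n => 1 - hit g x n y) atTop (𝓝 0) := by
    have := ENNReal.Tendsto.sub (tendsto_const_nhds (x := (1 : ℝ≥0∞)) (f := (atTop : Filter ℕ))) h1
      (Or.inl ENNReal.one_ne_top)
    simpa using this
  have h3 := cesaro (fun n => 1 - hit g x n y) (fun n => tsub_le_self) h2
  refine tendsto_of_tendsto_of_tendsto_of_le_of_le' tendsto_const_nhds h3
    (Eventually.of_forall fun _ => bot_le) ?_
  filter_upwards [eventually_ge_atTop 1] with N hN
  have h4 := d1_div (fun z => ∑ n ∈ Finset.range N, pn g n x z)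
    (fun z => ∑ n ∈ Finset.range N, pn g n y z) N (by omega)
  have e : d1 (nu g N x) (nu g N y) = d1 (fun z => (∑ n ∈ Finset.range N, pn g n x z) / N)
    (fun z => (∑ n ∈ Finset.range N, pn g n y z) / N) := rfl
  rw [e, h4]
  exact ENNReal.div_le_div_right (hGRN V g hLF hNI x y N) _

end Pool.Agent.Q42.UT
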