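import Pool.Agent.Q42.UT.Stm

/-!
# Project UT (MP_688e31_pr): averages over neighbours and random walk (helper198)
-/

set_option autoImplicit false

namespace Pool.Agent.Q42.UT.RwBas

open MeasureTheory Set Filter Topology
open scoped ENNReal unitInterval
open Pool.Agent.TH968.UST Pool.Agent.Q42.UT

variable {V : Type} {g : SimpleGraph V}

open Classical in
/-- the degree as an extended real number -/
noncomputable def dg (g : SimpleGraph V) (v : V) : ℝ≥0∞ := ∑' w, if g.Adj v w then 1 else 0

/-- the finite set of the neighbours -/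
noncomputable def nb (h : LF g) (v : V) : Finset V := (h v).toFinset

lemma mem_nb (h : LF g) (v w : V) : w ∈ nb h v ↔ g.Adj v w := by
  unfold nb
  rw [Set.Finite.mem_toFinset]
  exact Iff.rfl

open Classical in
lemma tsum_nb (h : LF g) (v : V) (f : V → ℝ≥0∞) :
    (∑' w, if g.Adj v w then f w else 0) = ∑ w ∈ nb h v, f w := by
  rw [tsum_eq_sum (s := nb h v)]
  · refine Finset.sum_congr rfl fun w hw => ?_
    rw [if_pos ((mem_nb h v w).1 hw)]
  · intro w hw
    rw [if_neg fun h' => hw ((mem_nb h v w).2 h')]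

lemma dg_eq (h : LF g) (v : V) : dg g v = (nb h v).card := by
  unfold dg
  rw [tsum_nb h v]
  simp

lemma card_pos (h : LF g) (hn : NI g) (v : V) : 0 < (nb h v).card := by
  obtain ⟨w, hw⟩ := hn v
  exact Finset.card_pos.2 ⟨w, (mem_nb h v w).2 hw⟩

lemma dg_ne_top (h : LF g) (v : V) : dg g v ≠ ⊤ := by
  rw [dg_eq h]
  exact ENNReal.natCast_ne_top _

lemma dg_ne_zero (h : LF g) (hn : NI g) (v : V) : dg g v ≠ 0 := by
  rw [dg_eq h]
  exact_mod_cast (card_pos h hn v).ne'

lemma avg_eq (h : LF g) (v : V) (f : V → ℝ≥0∞) :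
    avg g f v = (∑ w ∈ nb h v, f w) / (nb h v).card := by
  unfold avg
  rw [tsum_nb h v f]
  congr 1
  exact dg_eq h v

lemma avg_mono (v : V) {f k : V → ℝ≥0∞} (hfk : ∀ w, f w ≤ k w) : avg g f v ≤ avg g k v := by
  unfold avg
  refine ENNReal.div_le_div_right (ENNReal.tsum_le_tsum fun w => ?_) _
  split_ifs
  · exact hfk w
  · exact le_rfl

lemma avg_le_one (v : V) {f : V → ℝ≥0∞} (hf : ∀ w, f w ≤ 1) : avg g f v ≤ 1 := by
  unfold avg
  refine ENNReal.div_le_of_le_mul ?_
  rw [one_mul]
  refine ENNReal.tsum_le_tsum fun w => ?_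
  split_ifs
  · exact hf w
  · exact le_rfl

lemma avg_add (v : V) (f k : V → ℝ≥0∞) : avg g (fun w => f w + k w) v = avg g f v + avg g k v := by
  unfold avg
  rw [← ENNReal.add_div, ← ENNReal.tsum_add]
  congr 1
  refine tsum_congr fun w => ?_
  split_ifs
  · rfl
  · rw [add_zero]

lemma avg_mul (v : V) (c : ℝ≥0∞) (f : V → ℝ≥0∞) :
    avg g (fun w => c * f w) v = c * avg g f v := by
  unfold avg
  rw [← mul_div_assoc, ← ENNReal.tsum_mul_left]
  congr 1
  refine tsum_congr fun w => ?_
  split_ifs
  · rfl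
  · rw [mul_zero]

lemma avg_zero (v : V) : avg g (fun _ => 0) v = 0 := by
  unfold avg
  simp

lemma avg_const (h : LF g) (hn : NI g) (v : V) (c : ℝ≥0∞) : avg g (fun _ => c) v = c := by
  have h1 : avg g (fun _ => c) v = c * avg g (fun _ => 1) v := by
    rw [← avg_mul]
    simp
  rw [h1]
  have h2 : avg g (fun _ => (1 : ℝ≥0∞)) v = 1 :=
    ENNReal.div_self (dg_ne_zero h hn v) (dg_ne_top h v)
  rw [h2, mul_one]

lemma avg_sum {ι : Type} (s : Finset ι) (v : V) (f : ι → V → ℝ≥0∞) :
    avg g (fun w => ∑ n ∈ s, f n w) v = ∑ n ∈ s, avg g (f n) v := by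
  classical
  induction s using Finset.induction_on with
  | empty => simpa using avg_zero (g := g) v
  | insert a s ha ih =>
    simp_rw [Finset.sum_insert ha]
    rw [avg_add, ih]

lemma tsum_avg (v : V) (f : V → V → ℝ≥0∞) :
    ∑' z, avg g (fun w => f w z) v = avg g (fun w => ∑' z, f w z) v := by
  unfold avg
  simp_rw [div_eq_mul_inv]
  rw [ENNReal.tsum_mul_right, ENNReal.tsum_comm]
  congr 1
  refine tsum_congr fun w => ?_
  split_ifs
  · rfl
  · exact tsum_zero

lemma hit_le_one (o : V) (n : ℕ) (v : V) : hit g o n v ≤ 1 := by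
  induction n generalizing v with
  | zero =>
    unfold hit
    split_ifs <;> simp
  | succ n ih =>
    unfold hit
    split_ifs
    · exact le_rfl
    · exact avg_le_one v ih

lemma hit_mono (o : V) (n : ℕ) (v : V) : hit g o n v ≤ hit g o (n + 1) v := by
  induction n generalizing v with
  | zero =>
    unfold hit
    split_ifs <;> simp
  | succ n ih =>
    unfold hit
    split_ifs
    · exact le_rfl
    · exact avg_mono v ih

lemma hit_self (o : V) (n : ℕ) : hit g o n o = 1 := by
  cases n with
  | zero => simp [hit]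
  | succ n => simp [hit]

lemma hit_succ {o v : V} (h : v ≠ o) (n : ℕ) : hit g o (n + 1) v = avg g (hit g o n) v := by
  conv_lhs => unfold hit
  rw [if_neg h]

lemma tsum_pn (h : LF g) (hn : NI g) (n : ℕ) (x : V) : ∑' z, pn g n x z = 1 := by
  classical
  induction n generalizing x with
  | zero =>
    have h1 : ∀ z, pn g 0 x z = if z = x then 1 else 0 := by
      intro z
      unfold pn
      by_cases hz : x = z
      · rw [if_pos hz, if_pos hz.symm]
      · rw [if_neg hz, if_neg (Ne.symm hz)]
    simp_rw [h1]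
    rw [tsum_ite_eq]
  | succ n ih =>
    have h1 : ∀ z, pn g (n + 1) x z = avg g (fun w => pn g n w z) x := fun z => rfl
    simp_rw [h1]
    rw [tsum_avg]
    simp_rw [ih]
    exact avg_const h hn x 1

lemma pn_fin (h : LF g) (n : ℕ) (x : V) : {z | pn g n x z ≠ 0}.Finite := by
  classical
  induction n generalizing x with
  | zero =>
    refine (Set.finite_singleton x).subset fun z hz => ?_
    by_contra hne
    refine hz ?_
    unfold pn
    rw [if_neg fun e => hne e.symm]
  | succ n ih =>
    refine ((nb h x).finite_toSet.biUnion fun w _ => ih w).subset fun z hz => ?_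
    by_contra hne
    simp only [Set.mem_iUnion, not_exists] at hne
    refine hz ?_
    have h1 : pn g (n + 1) x z = avg g (fun w => pn g n w z) x := rfl
    rw [h1, avg_eq h, Finset.sum_eq_zero, ENNReal.zero_div]
    intro w hw
    by_contra hw0
    exact hne w hw hw0

end Pool.Agent.Q42.UT.RwBas
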