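import Pool.Agent.Q42.UT.Defs

/-!
# Project UT (MP_688e31_pr): statements of the parts

`trees r E` is the finite set of the spanning trees (maximal spanning forests) of the finite edge
set `E` with `r`-equivalent vertices identified; `⊥` is the trivial setoid (no identification).
Tools from the library: `Pool.Agent.TH830.UST` (file `Pool.Agent.TH830.UBase`: `mem_trees`,
`trees_nonempty`, `exists_tree_ge`, `exchange`, ...), `Pool.Agent.TH830.J73.K1`, `K2`, `RM`
(Kirchhoff / Thomson / Rayleigh), `Pool.Agent.TH830.J74.dom` (Feder-Mihail; its hypothesis `RM` is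
`Pool.Agent.TH830.J73.RM`).
-/

set_option autoImplicit false

namespace Pool.Agent.Q42.UT

open MeasureTheory Set Filter Topology
open scoped ENNReal unitInterval
open Pool.Agent.TH968.UST

/-! ### A. Finite graphs -/

/-- CPL. Coupling functions exist. Proof: fix `E' ⊆ E`; put `N = #(trees ⊥ E)`,
`N' = #(trees ⊥ E')` (both positive, `trees_nonempty`). Hall's marriage theorem
(`Finset.all_card_le_biUnion_card_iff_exists_injective`) for `(trees ⊥ E) × Fin N'` on the left and
`(trees ⊥ E') × Fin N` on the right, `(T, i)` joined with `(T', j)` if `T ∩ E' ⊆ T'`: for a set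
`S` on the left let `A` be the set of its first coordinates and `g T = 1` if `∃ T₁ ∈ A, T₁ ∩ E' ⊆ T`
and `0` otherwise (increasing); `#S ≤ N' * ∑_{T ∈ trees ⊥ E} g (T ∩ E')` and the neighbourhood has
`N * ∑_{T' ∈ trees ⊥ E'} g T'` elements, so `Pool.Agent.TH830.J74.dom` (with `r = r' = ⊥` and
`RM := fun r r' hr E E' hE e he => Pool.Agent.TH830.J73.RM r r' hr E E' hE e he`) gives Hall's condition.
The injection is a bijection `m` (both sides have `N * N'` elements). For `T' ∈ trees ⊥ E'` and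
`t : I` let `j = min ⌊N t⌋ (N - 1)` and `F E E' T' t = (m⁻¹ (T', j)).1` (for other arguments `∅`).
`volume {t | j = k} = 1 / N` for each `k < N` (the interval `[k / N, (k + 1) / N)`), and
`#{(T', j) | (m⁻¹ (T', j)).1 = T} = N'`, so the sum in `law` is `N' / N`. For `meas`: the set is a
finite union of sets `{t | j = k}` or everything or empty. -/
def S_CPL : Prop := ∃ F : CF, IsCpl F

/-- PRODT. Trees of a disjoint union: for `T ⊆ E₁ ∪ E₂` (vertex supports in disjoint sets) a path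
in `T` starting in `C₁` stays in `C₁` and uses edges of `T ∩ E₁` only (a vertex outside of `C₁ ∪ C₂`
is isolated). `trees` is characterised by `mem_trees` / `IsSpan`. -/
def S_PRODT : Prop := ∀ (V : Type) (C₁ C₂ : Finset V) (E₁ E₂ T : Finset (Sym2 V)),
  (∀ v ∈ C₁, v ∉ C₂) → (∀ e ∈ E₁, ∀ v ∈ e, v ∈ C₁) → (∀ e ∈ E₂, ∀ v ∈ e, v ∈ C₂) →
  ∀ (E : Finset (Sym2 V)), (∀ e, e ∈ E ↔ e ∈ E₁ ∨ e ∈ E₂) →
  (T ∈ trees ⊥ E ↔ (T : Set (Sym2 V)) ⊆ E ∧ rs E₁ (T : Set (Sym2 V)) ∈ trees ⊥ E₁ ∧
    rs E₂ (T : Set (Sym2 V)) ∈ trees ⊥ E₂)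

/-- MAPT. Trees and an injective renaming of the vertices of `E` (see `trees_image` in
`Pool.Agent.TH902.WT.Gr` for a similar statement). -/
def S_MAPT : Prop := ∀ (V W : Type) (i : V → W) (C : Finset V) (E T : Finset (Sym2 V)),
  (∀ x ∈ C, ∀ y ∈ C, i x = i y → x = y) → (∀ e ∈ E, ∀ v ∈ e, v ∈ C) → T ⊆ E →
  ∀ (E' T' : Finset (Sym2 W)), (∀ e, e ∈ E' ↔ ∃ e₀ ∈ E, Sym2.map i e₀ = e) →
    (∀ e, e ∈ T' ↔ ∃ e₀ ∈ T, Sym2.map i e₀ = e) →
  (T' ∈ trees ⊥ E' ↔ T ∈ trees ⊥ E)

/-- The probability that the uniform tree of `trees r E` has the property `A`. -/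
noncomputable def pr {V : Type} (r : Setoid V) (E : Finset (Sym2 V)) (A : Finset (Sym2 V) → Prop) :
    ℝ := by
  classical exact (((trees r E).filter A).card : ℝ) / ((trees r E).card : ℝ)

/-- EVD. Events of several edges are controlled by the single edges: for `r' ≤ r`, `E' ⊆ E` and
finite sets `A, S ⊆ E'` the probabilities of `T ∩ S = A` differ by at most twice
`∑_{e ∈ S} (P'(e) - P(e))`. Proof: for an increasing `g` with values in `[0, 1]`, depending only on
`T ∩ S`, both `g` and `|T ∩ S| - g` are increasing, so by `Pool.Agent.TH830.J74.dom`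
`0 ≤ E' g - E g ≤ ∑_{e ∈ S} (P'(e) - P(e))`; the indicator of `T ∩ S = A` is the difference of the
indicators of `A ⊆ T ∩ S` and of `A ⊆ T ∩ S ≠ A`, both increasing. -/
def S_EVD : Prop := ∀ (V : Type) (r r' : Setoid V), r' ≤ r → ∀ (E E' S A : Finset (Sym2 V)),
  E' ⊆ E → S ⊆ E' → A ⊆ S →
  |pr r' E' (fun T => ∀ e ∈ S, (e ∈ T ↔ e ∈ A)) - pr r E (fun T => ∀ e ∈ S, (e ∈ T ↔ e ∈ A))| ≤
    2 * ∑ e ∈ S, (pr r' E' (fun T => e ∈ T) - pr r E (fun T => e ∈ T))

/-- NRG. Recurrence and energy: functions of finite support with small energy. Proof: take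
`χ v = (hit g x n v).toReal`, which vanishes outside the ball of radius `n` around `x` (finite, by
induction on `n`), and sum by parts: the energy is at most
`deg x * (1 - avg g (hit g x n) x)` because `hit g x (n + 1) v = avg g (hit g x n) v ≥ hit g x n v`
for `v ≠ x`; this tends to zero by `Recurrent`. (`energy E χ` for a finite set `E` of edges of `g` is at
most the energy over all edges of `g` meeting the support.) -/
def S_NRG : Prop := ∀ (V : Type) (g : SimpleGraph V), LF g → NI g → Recurrent g →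
  ∀ (x : V) (δ : ℝ), 0 < δ → ∃ χ : V → ℝ, {v | χ v ≠ 0}.Finite ∧ (∀ v, 0 ≤ χ v ∧ χ v ≤ 1) ∧
    χ x = 1 ∧ ∀ E : Finset (Sym2 V), (∀ e ∈ E, e ∈ g.edgeSet) → energy E χ ≤ δ

/-- EDD. Free and wired probabilities of one edge of a recurrent graph are close. Proof: let
`e = s(x, y)`, `d` the degree of `x`, `0 < δ ≤ 1`, `χ` from NRG for `x` and `δ`, `B₀` the support
of `χ`, `E₀` the finite set of the edges of `g` meeting `B₀` or `{x, y}`. For `E ⊇ E₀` take `φ` from
`K2` for `r = ⊥`, `E` (`φ x = 1`, `φ y = 0`, `0 ≤ φ ≤ 1`, `P_free * energy E φ = 1`; the case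
`χ y ≠ 0` does no harm since `φ y = 0`). `φ χ` is zero outside `B₀ ⊆ B`, so it is constant on the
classes of `wired B`, and it is `1` at `x` and `0` at `y`; by `K1` for `wired B`
`1 ≤ P_wired * energy E₁ (φ χ)`. As `φ a χ a - φ b χ b = χ a (φ a - φ b) + φ b (χ a - χ b)`,
Minkowski gives `√(energy E₁ (φ χ)) ≤ √(energy E φ) + √δ` (only edges meeting `B₀` contribute).
`1 ≤ energy E φ ≤ d` (the lower bound from the edge `e` itself, the upper bound from `K1` for the
function `1_x`: `1 ≤ P_free * d`). So `P_free - P_wired ≤ energy E₁ (φ χ) - energy E φ ≤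
2 √(d δ) + δ` (use `1/a - 1/b ≤ b - a` for `1 ≤ a ≤ b`). -/
def S_EDD : Prop := S_NRG → ∀ (V : Type) (g : SimpleGraph V), LF g → NI g → Recurrent g →
  ∀ x y : V, g.Adj x y → ∀ ε : ℝ, 0 < ε → ∃ (E₀ : Finset (Sym2 V)) (B₀ : Finset V),
    (∀ e ∈ E₀, e ∈ g.edgeSet) ∧
    ∀ (E E₁ : Finset (Sym2 V)) (B : Finset V), E₀ ⊆ E → (∀ e ∈ E, e ∈ g.edgeSet) → B₀ ⊆ B →
      (∀ e, e ∈ E₁ → e ∈ g.edgeSet) → (∀ e ∈ touch g B, e ∈ E₁) →
      pr ⊥ E (fun T => s(x, y) ∈ T) - pr (wired B) E₁ (fun T => s(x, y) ∈ T) ≤ ε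

/-- TCH. Edges between vertices outside `B` are loops after wiring, so they are never in a tree:
for a finite `E₁` with `touch g B ⊆ E₁ ⊆ g.edgeSet` the trees of `wired B` on `E₁` are those on
`touch g B`; translation of `ustProb` (sets) to `trees` (finsets). -/
def S_TCH : Prop := ∀ (V : Type) (g : SimpleGraph V) (B : Finset V) (E₁ : Finset (Sym2 V)),
  (∀ e ∈ E₁, e ∈ g.edgeSet) → (∀ e ∈ touch g B, e ∈ E₁) →
  ∀ S A : Finset (Sym2 V), ustProb (wired B) (touch g B) (S : Set (Sym2 V)) (A : Set (Sym2 V)) =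
    pr (wired B) E₁ (fun T => (T : Set (Sym2 V)) ∩ S = A)

/-- CONV. The free trees along finite subgraphs exhausting `g` and the wired trees along an
exhaustion have the same limit. Proof: for `e ∈ S` not in `g.edgeSet` both never contain `e`, so one
may replace `S` by `S ∩ g.edgeSet` (if `A` is not a subset of this both probabilities are zero).
Given `n, m` put `E₁ = E n ∪ touch g (B m)` (finite) and compare `(⊥, E n)` and `(wired (B m), E₁)`
by EVD (`touch` edges: use TCH), then EDD for each `e ∈ S`. -/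
def S_CONV : Prop := S_EVD → (S_NRG → S_EDD) → S_NRG → S_TCH → ∀ (V : Type) (g : SimpleGraph V),
  LF g → NI g → Recurrent g → ∀ (E : ℕ → Finset (Sym2 V)) (B : ℕ → Finset V),
  (∀ n, ∀ e ∈ E n, e ∈ g.edgeSet) → (∀ e ∈ g.edgeSet, ∃ n, ∀ m, n ≤ m → e ∈ E m) →
  Monotone B → (∀ v, ∃ n, v ∈ B n) → ∀ S A : Finset (Sym2 V),
  Tendsto (fun n => pr ⊥ (E n) (fun T => (T : Set (Sym2 V)) ∩ S = A) -
    ustProb (wired (B n)) (touch g (B n)) (S : Set (Sym2 V)) (A : Set (Sym2 V))) atTop (𝓝 0)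

/-! ### B. Random walk and the race -/

/-- RC0. `P(U w < U z ^ c w for all w ≠ z) = E[U z ^ ∑ c w] = 1 / (1 + ∑ c w)` (Fubini over the
coordinate `z`, `∫₀¹ u^a du = 1 / (a + 1)`). -/
def S_RC0 : Prop := ∀ (n : ℕ) (c : Fin n → ℝ), (∀ w, 0 ≤ c w) →
  (Measure.pi fun _ : Fin (n + 1) => (volume : Measure I))
    {U | ∀ w : Fin n, ((U w.succ : I) : ℝ) < ((U 0 : I) : ℝ) ^ c w} =
  ENNReal.ofReal (1 / (1 + ∑ w, c w))

/-- RC1. The same in an infinite product, for a finite set `S` of vertices other than `z`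
(`Measure.infinitePi_map_restrict'`, `infinitePi_cylinder` or `infinitePi_map_eval`, and `RC0` after
an enumeration of `insert z S`). -/
def S_RC1 : Prop := S_RC0 → ∀ (V : Type) (z : V) (S : Finset V) (c : V → ℝ), z ∉ S →
  (∀ w, 0 ≤ c w) →
  lu V {U | ∀ w ∈ S, ((U w : I) : ℝ) < ((U z : I) : ℝ) ^ c w} =
    ENNReal.ofReal (1 / (1 + ∑ w ∈ S, c w))

/-- RACE. Proof: let `m z = min (p z) (q z)`, `M w = max (p w) (q w)`, `S` the finite set where
`M ≠ 0`. For `m z ≠ 0` let `A z` be the event `U w < U z ^ (M w / m z)` for all `w ∈ S`, `w ≠ z`.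
On `A z` the vertex `z` wins both races (`U w ^ p z < U z ^ (M w p z / m z) ≤ U z ^ p w`, because
`M w p z / m z ≥ p w` and `0 < U z ≤ 1`; `U z > 0` if `S` has another element, and there is nothing
to prove otherwise). The `A z` are disjoint (the winner is unique: two winners `z ≠ z'` give
`U z' ^ p z < U z ^ p z' < U z' ^ p z`), and by RC1 `P (A z) = m z / (m z + ∑_{w ≠ z} M w) ≥
m z / ∑ M`. With `D = d1 p q`, `∑ m = 1 - D / 2`, `∑ M = 1 + D / 2`, so the complement of the union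
has probability at most `1 - (1 - D/2) / (1 + D/2) ≤ D`. -/
def S_RACE : Prop := S_RC1 → ∀ (V : Type) [Countable V] (p q : V → ℝ≥0∞),
  {z | p z ≠ 0}.Finite → {z | q z ≠ 0}.Finite → ∑' z, p z = 1 → ∑' z, q z = 1 →
  lu V {U | ¬ ∃ z, Win p U z ∧ Win q U z} ≤ d1 p q

/-- HIT. A recurrent walk started at a neighbour of `x` hits `x`: `avg g (hit g x n) x → 1` is the
average over the neighbours of `x` (finitely many) of numbers at most one. -/
def S_HIT : Prop := ∀ (V : Type) (g : SimpleGraph V), LF g → Recurrent g → ∀ x y, g.Adj x y →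
  Tendsto (fun n => hit g x n y) atTop (𝓝 1)

/-- GRN. Coupling inequality for the Green functions. Proof: induction on `N`. Put
`A N y z = ∑ n < N, pn g n y z`. For `y ≠ x`: `A (N+1) y = δ_y + avg_w A N w`, and
`A (N+1) x = A N x + pn g N x` where `∑ z, pn g N x z = 1`; so
`d1 (A (N+1) x) (A (N+1) y) ≤ 2 + avg_w d1 (A N x) (A N w)` (the average of the constant `A N x`
over the neighbours of `y` is `A N x`), while the right side satisfies the same recursion with
equality (`hit g x 0 y = 0`, `hit g x (n+1) y = avg_w hit g x n w`). For `y = x` both sides are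
zero. -/
def S_GRN : Prop := ∀ (V : Type) [Countable V] (g : SimpleGraph V), LF g → NI g → ∀ (x y : V) (N : ℕ),
  d1 (fun z => ∑ n ∈ Finset.range N, pn g n x z) (fun z => ∑ n ∈ Finset.range N, pn g n y z) ≤
    2 * ∑ n ∈ Finset.range N, (1 - hit g x n y)

/-- REI. From HIT and GRN: divide by `N`; the averages of a null sequence tend to zero. -/
def S_REI : Prop := S_HIT → S_GRN → ∀ (V : Type) [Countable V] (g : SimpleGraph V), LF g → NI g →
  Recurrent g → ∀ x y, g.Adj x y →
    Tendsto (fun N => d1 (nu g N x) (nu g N y)) atTop (𝓝 0)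

/-- NUP. `nu g N x` is a probability of finite support. -/
def S_NUP : Prop := ∀ (V : Type) [Countable V] (g : SimpleGraph V), LF g → NI g → ∀ (N : ℕ) (x : V),
  1 ≤ N → ∑' z, nu g N x z = 1 ∧ {z | nu g N x z ≠ 0}.Finite

/-- OPN. Neighbours have the same winner with probability tending to one. -/
def S_OPN : Prop := S_RACE → S_RC1 → S_REI → S_HIT → S_GRN → S_NUP →
  ∀ (V : Type) [Countable V] (g : SimpleGraph V), LF g → NI g → Recurrent g → ∀ x y, g.Adj x y →
    Tendsto (fun N => lu V {U | ¬ ∃ z, Win (nu g N x) U z ∧ Win (nu g N y) U z}) atTop (𝓝 0)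

/-- WUN. The winner is unique. -/
def S_WUN : Prop := ∀ (V : Type) (p : V → ℝ≥0∞) (U : V → I) (z z' : V), Win p U z → Win p U z' →
  z = z'

/-! ### C. Mass transport -/

/-- MTP. Mass transport with labels: integrate over the labels first;
`F g x y = ∫⁻ r, f g r x y ∂(lu (V × ℕ))` is measurable (`Measurable.lintegral_prod_right'`) and
invariant, since `lu (V × ℕ)` is invariant under `r ↦ r ∘ (s × id)`
(`Measure.infinitePi_map_piCongrLeft`). Then Tonelli. -/
def S_MTP : Prop := ∀ (V Ω : Type) [Countable V] [MeasurableSpace Ω] (P : Measure Ω)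
  (G : Ω → SimpleGraph V) (ρ : Ω → V), IsURG P G ρ →
  ∀ f : SimpleGraph V → (V × ℕ → I) → V → V → ℝ≥0∞,
    (∀ x y, Measurable fun q : SimpleGraph V × (V × ℕ → I) => f q.1 q.2 x y) →
    (∀ (s : Equiv.Perm V) (g : SimpleGraph V) (r : V × ℕ → I) (x y : V),
      f (g.comap s) (fun p => r (s p.1, p.2)) x y = f g r (s x) (s y)) →
    ∫⁻ q, ∑' y, f (G q.1) q.2 (ρ q.1) y ∂(P.prod (lu (V × ℕ))) =
      ∫⁻ q, ∑' x, f (G q.1) q.2 x (ρ q.1) ∂(P.prod (lu (V × ℕ)))

/-- EVE. What almost surely does not happen at the root does not happen anywhere: MTP for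
`f g r x y = 1` if `bad g r x`, `0` otherwise. The left side is `0`, so the sum over `x` of the
indicators of `bad (G q.1) q.2 x` has integral zero. -/
def S_EVE : Prop := S_MTP → ∀ (V Ω : Type) [Countable V] [MeasurableSpace Ω] (P : Measure Ω)
  (G : Ω → SimpleGraph V) (ρ : Ω → V), IsURG P G ρ →
  ∀ bad : SimpleGraph V → (V × ℕ → I) → V → Prop,
    (∀ v, MeasurableSet {q : SimpleGraph V × (V × ℕ → I) | bad q.1 q.2 v}) →
    (∀ (s : Equiv.Perm V) (g : SimpleGraph V) (r : V × ℕ → I) (v : V),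
      bad (g.comap s) (fun p => r (s p.1, p.2)) v ↔ bad g r (s v)) →
    (∀ᵐ q ∂(P.prod (lu (V × ℕ))), ¬ bad (G q.1) q.2 (ρ q.1)) →
    ∀ᵐ q ∂(P.prod (lu (V × ℕ))), ∀ v, ¬ bad (G q.1) q.2 v

/-- MNU. Measurability of `nu` in the graph (`Measurable.ennreal_tsum`, `measurableSet_adj`). -/
def S_MNU : Prop := ∀ (V : Type) [Countable V] (N : ℕ) (x z : V),
  Measurable fun g : SimpleGraph V => nu g N x z

/-- MW. Measurability of the winner. -/
def S_MW : Prop := S_MNU → ∀ (V : Type) [Countable V] (Ns : ℕ → ℕ) (j : ℕ) (x z : V),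
  MeasurableSet {q : SimpleGraph V × (V × ℕ → I) | WinJ Ns q.1 q.2 j x z}

/-- IW. Invariance of the winner (`tsum` over `V` is invariant under `s`,
`Equiv.tsum_eq`; `pn (g.comap s) n x z = pn g n (s x) (s z)` by induction). -/
def S_IW : Prop := ∀ (V : Type) (Ns : ℕ → ℕ) (s : Equiv.Perm V) (g : SimpleGraph V)
  (r : V × ℕ → I) (j : ℕ) (x z : V),
  WinJ Ns (g.comap s) (fun p => r (s p.1, p.2)) j x z ↔ WinJ Ns g r j (s x) (s z)

/-- FCL. Finite clusters: MTP for the indicator of `WinJ Ns g r j x z`: the left side is at most one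
because the winner is unique, so almost surely finitely many `x` have the root as winner; then EVE
for `bad g r z`: infinitely many `x` have the winner `z` (countably many `j`). -/
def S_FCL : Prop := S_MTP → S_EVE → S_WUN → S_MNU → S_MW → S_IW →
  ∀ (V Ω : Type) [Countable V] [MeasurableSpace Ω] (P : Measure Ω)
  (G : Ω → SimpleGraph V) (ρ : Ω → V), IsURG P G ρ → ∀ Ns : ℕ → ℕ,
  ∀ᵐ q ∂(P.prod (lu (V × ℕ))), ∀ j z, {x | WinJ Ns (G q.1) q.2 j x z}.Finite

/-- DCT. A choice of the numbers `Ns j`: the probability that the root has a neighbour with another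
winner, when the parameter is `N`, tends to zero by OPN (a finite union over the neighbours) and
dominated convergence (a Fubini argument; the event is measurable by MNU, `U : V → I` labels of one
stage). So `Ns j` can be chosen with probability at most `2 ^ (-j)`. -/
def S_DCT : Prop := S_OPN → S_RACE → S_RC1 → S_REI → S_HIT → S_GRN → S_NUP → S_MNU →
  ∀ (V Ω : Type) [Countable V] [MeasurableSpace Ω] (P : Measure Ω)
  (G : Ω → SimpleGraph V) (ρ : Ω → V), IsURG P G ρ →
  (∀ᵐ ω ∂P, LF (G ω) ∧ NI (G ω) ∧ Recurrent (G ω)) →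
  ∃ Ns : ℕ → ℕ, ∀ j, (P.prod (lu V)) {q | ∃ y, (G q.1).Adj (ρ q.1) y ∧
    ¬ ∃ z, Win (nu (G q.1) (Ns j) (ρ q.1)) q.2 z ∧ Win (nu (G q.1) (Ns j) y) q.2 z} ≤
      (2 : ℝ≥0∞)⁻¹ ^ j

/-- BC. Borel-Cantelli at the root, and EVE. The law of `v ↦ r (v, j)` under `lu (V × ℕ)` is `lu V`
(`Measure.infinitePi_map_restrict'` or `eq_infinitePi`). -/
def S_BC : Prop := S_EVE → S_MTP → S_MNU → S_MW → S_IW →
  ∀ (V Ω : Type) [Countable V] [MeasurableSpace Ω] (P : Measure Ω)
  (G : Ω → SimpleGraph V) (ρ : Ω → V), IsURG P G ρ → ∀ Ns : ℕ → ℕ,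
  (∀ j, (P.prod (lu V)) {q | ∃ y, (G q.1).Adj (ρ q.1) y ∧
    ¬ ∃ z, Win (nu (G q.1) (Ns j) (ρ q.1)) q.2 z ∧ Win (nu (G q.1) (Ns j) y) q.2 z} ≤
      (2 : ℝ≥0∞)⁻¹ ^ j) →
  ∀ᵐ q ∂(P.prod (lu (V × ℕ))), ∀ x y, (G q.1).Adj x y → ∃ n, ∀ j, n ≤ j →
    ∃ z, WinJ Ns (G q.1) q.2 j x z ∧ WinJ Ns (G q.1) q.2 j y z

/-- TOW. Deterministic: the tower `tw Ns g r` is increasing, below `g`, exhausts `g` and has finite
components (a vertex with an `Hg n`-neighbour has a stage-`n` winner, and this winner is the same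
along the component by WUN). -/
def S_TOW : Prop := S_WUN → ∀ (V : Type) (Ns : ℕ → ℕ) (g : SimpleGraph V) (r : V × ℕ → I),
  (∀ j z, {x | WinJ Ns g r j x z}.Finite) →
  (∀ x y, g.Adj x y → ∃ n, ∀ j, n ≤ j → ∃ z, WinJ Ns g r j x z ∧ WinJ Ns g r j y z) →
  IsTower (tw Ns g r) ∧ (∀ n, tw Ns g r n ≤ g) ∧ ∀ x y, g.Adj x y → ∃ n, (tw Ns g r n).Adj x y

/-- INJ. Almost surely the labels are different. -/
def S_INJ : Prop := ∀ (V : Type) [Countable V], ∀ᵐ a ∂(lu V), Function.Injective a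

/-! ### D. The tower of trees -/

/-- CMP. Components of a graph with finite components; two components are equal or disjoint; ranks. -/
def S_CMP : Prop := ∀ (V : Type) (K : SimpleGraph V), FinComp K →
  (∀ x, ∃ C, IsComp K C ∧ x ∈ C) ∧
  (∀ C C' x, IsComp K C → IsComp K C' → x ∈ C → x ∈ C' → C = C') ∧
  (∀ (C D : Finset V), IsComp K C → Cl K D → (∃ x ∈ C, x ∈ D) → C ⊆ D) ∧
  (∀ (a : V → I), Function.Injective a → ∀ C : Finset V, C.Nonempty →
    (∀ x ∈ C, ∀ y ∈ C, rk a C x = rk a C y → x = y) ∧ ∃! v, v ∈ C ∧ rk a C v = 0)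

/-- TRF. Deterministic properties of the trees: for a component `C` of `K (n + 1)` the set
`Tr (n + 1) ∩ ed (K (n + 1)) C` is given by the coupling function (other components do not
contribute, by CMP), `Tr n ⊆ K n`. -/
def S_TRF : Prop := S_CMP → ∀ (F : CF), IsCpl F → ∀ (V : Type) (K : ℕ → SimpleGraph V), IsTower K →
  ∀ a : V → I, Function.Injective a → ∀ t : V × ℕ → I, ∀ n,
  (∀ e ∈ Tr F K a t n, e ∈ (K n).edgeSet) ∧
  ∀ C v, IsComp (K (n + 1)) C → v ∈ C → rk a C v = 0 →
    ∀ e ∈ ed (K (n + 1)) C, (e ∈ Tr F K a t (n + 1) ↔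
      Sym2.map (rk a C) e ∈ F (code a C (ed (K (n + 1)) C)) (code a C (ed (K n) C))
        (code a C (rs (ed (K n) C) (Tr F K a t n))) (t (v, n)))

/-- TRT. For a finite union `C` of components of `K n` the set `Tr n ∩ ed (K n) C` is a tree of
`ed (K n) C`. Induction on `n`; for a component of `K (n + 1)` by TRF, `IsCpl.tree`, MAPT; for
several components by PRODT and induction on the number of elements of `C`. -/
def S_TRT : Prop := S_CMP → S_TRF → S_PRODT → S_MAPT → ∀ (F : CF), IsCpl F → ∀ (V : Type)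
  (K : ℕ → SimpleGraph V), IsTower K → ∀ a : V → I, Function.Injective a → ∀ t : V × ℕ → I,
  ∀ n (C : Finset V), Cl (K n) C → rs (ed (K n) C) (Tr F K a t n) ∈ trees ⊥ (ed (K n) C)

/-- DEC. The trees decrease: an edge of `K n` in `Tr (n + 1)` is in `Tr n` (`IsCpl.sub` for the
component of `K (n + 1)` containing the edge). -/
def S_DEC : Prop := S_CMP → S_TRF → S_TRT → S_PRODT → S_MAPT → ∀ (F : CF), IsCpl F → ∀ (V : Type)
  (K : ℕ → SimpleGraph V), IsTower K → ∀ a : V → I, Function.Injective a → ∀ t : V × ℕ → I,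
  ∀ n e, e ∈ (K n).edgeSet → e ∈ Tr F K a t (n + 1) → e ∈ Tr F K a t n

/-- DEP. `Tr n ∩ ed (K n) C` depends only on the labels `t (v, k)`, `v ∈ C`, `k < n`, for a finite
union `C` of components of `K n` (it is then a union of components of `K (n - 1)`). -/
def S_DEP : Prop := S_CMP → S_TRF → ∀ (F : CF), IsCpl F → ∀ (V : Type) (K : ℕ → SimpleGraph V),
  IsTower K → ∀ a : V → I, Function.Injective a → ∀ t t' : V × ℕ → I, ∀ n (C : Finset V),
  Cl (K n) C → (∀ v ∈ C, ∀ k < n, t (v, k) = t' (v, k)) →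
  rs (ed (K n) C) (Tr F K a t n) = rs (ed (K n) C) (Tr F K a t' n)

/-- MT. Measurability in the sampling labels (the order labels and the tower are fixed):
induction on `n`, countable union over `C` and `v`, and over the finite sets which are the value of
the third argument of `F` (`IsCpl.meas`). -/
def S_MT : Prop := ∀ (F : CF), IsCpl F → ∀ (V : Type) [Countable V] (K : ℕ → SimpleGraph V)
  (a : V → I) (n : ℕ) (e : Sym2 V), MeasurableSet {t : V × ℕ → I | e ∈ Tr F K a t n}

/-- STP. One step of the law: `C` a component of `K (n + 1)`. `T' = Tr n ∩ ed (K n) C` is uniform on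
`trees ⊥ (ed (K n) C)` and depends only on the labels of the stages `k < n` (DEP; `C` is a union of
components of `K n`), so it is independent of `t (v, n)`. Sum over the values of `T'` and use
`IsCpl.law` for the codes (MAPT gives the bijections between trees and coded trees). -/
def S_STP : Prop := S_CMP → S_TRF → S_TRT → S_PRODT → S_MAPT → S_DEP → S_MT → ∀ (F : CF), IsCpl F →
  ∀ (V : Type) [Countable V] (K : ℕ → SimpleGraph V), IsTower K → ∀ a : V → I,
  Function.Injective a → ∀ n (C : Finset V), IsComp (K (n + 1)) C →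
  (∀ S ∈ trees ⊥ (ed (K n) C), lu (V × ℕ) {t | rs (ed (K n) C) (Tr F K a t n) = S} =
    1 / ((trees ⊥ (ed (K n) C)).card : ℝ≥0∞)) →
  ∀ S ∈ trees ⊥ (ed (K (n + 1)) C),
    lu (V × ℕ) {t | rs (ed (K (n + 1)) C) (Tr F K a t (n + 1)) = S} =
      1 / ((trees ⊥ (ed (K (n + 1)) C)).card : ℝ≥0∞)

/-- TWO. Two disjoint unions of components: independence by DEP (the labels over `C₁` and over `C₂`
are independent) and PRODT (the number of trees is the product). -/
def S_TWO : Prop := S_CMP → S_PRODT → S_DEP → S_TRF → S_MT → ∀ (F : CF), IsCpl F →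
  ∀ (V : Type) [Countable V] (K : ℕ → SimpleGraph V), IsTower K → ∀ a : V → I,
  Function.Injective a → ∀ n (C₁ C₂ C : Finset V), Cl (K n) C₁ → Cl (K n) C₂ →
  (∀ v ∈ C₁, v ∉ C₂) → (∀ v, v ∈ C ↔ v ∈ C₁ ∨ v ∈ C₂) →
  (∀ S ∈ trees ⊥ (ed (K n) C₁), lu (V × ℕ) {t | rs (ed (K n) C₁) (Tr F K a t n) = S} =
    1 / ((trees ⊥ (ed (K n) C₁)).card : ℝ≥0∞)) →
  (∀ S ∈ trees ⊥ (ed (K n) C₂), lu (V × ℕ) {t | rs (ed (K n) C₂) (Tr F K a t n) = S} =
    1 / ((trees ⊥ (ed (K n) C₂)).card : ℝ≥0∞)) →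
  ∀ S ∈ trees ⊥ (ed (K n) C), lu (V × ℕ) {t | rs (ed (K n) C) (Tr F K a t n) = S} =
    1 / ((trees ⊥ (ed (K n) C)).card : ℝ≥0∞)

/-- UNI. The law is uniform for all finite unions of components: induction on `n` and on the number
of elements of `C`, by STP and TWO (`n = 0`: no edges, `trees ⊥ ∅ = {∅}`). -/
def S_UNI : Prop := S_CMP → S_STP → S_TWO → (S_TRF ∧ S_TRT ∧ S_PRODT ∧ S_MAPT ∧ S_DEP ∧ S_MT) →
  ∀ (F : CF), IsCpl F →
  ∀ (V : Type) [Countable V] (K : ℕ → SimpleGraph V), IsTower K → ∀ a : V → I,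
  Function.Injective a → ∀ n (C : Finset V), Cl (K n) C →
  ∀ S ∈ trees ⊥ (ed (K n) C), lu (V × ℕ) {t | rs (ed (K n) C) (Tr F K a t n) = S} =
    1 / ((trees ⊥ (ed (K n) C)).card : ℝ≥0∞)

/-- LIM. The law of the limit for a fixed recurrent connected graph. Proof: fix `o` and let `C n` be
the component of `o` in `K n`, `E n = ed (K n) (C n)`; every edge of `g` is in `E n` for large `n`
(connect it with `o` by a path in `g`). For large `n` all edges of `S` which are edges of `g` are in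
`E n`, the others are never in `Tr n`, so `{t | Tr n ∩ S = A}` has probability
`pr ⊥ (E n) (T ∩ S = A)` by UNI and TRT. As `n` grows the indicator of `Tr n ∩ S = A` is
eventually constant for every `t` (DEC) with limit the indicator of `Tinf ∩ S = A`, so the
probabilities converge to that of `Tinf ∩ S = A`. Compare with CONV. -/
def S_LIM : Prop := (S_CMP ∧ S_TRF ∧ S_TRT ∧ S_PRODT ∧ S_MAPT ∧ S_DEP ∧ S_MT ∧ S_DEC) →
  (∀ (F : CF), IsCpl F →
    ∀ (V : Type) [Countable V] (K : ℕ → SimpleGraph V), IsTower K → ∀ a : V → I,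
    Function.Injective a → ∀ n (C : Finset V), Cl (K n) C →
    ∀ S ∈ trees ⊥ (ed (K n) C), lu (V × ℕ) {t | rs (ed (K n) C) (Tr F K a t n) = S} =
      1 / ((trees ⊥ (ed (K n) C)).card : ℝ≥0∞)) →
  (∀ (V : Type) (g : SimpleGraph V),
    LF g → NI g → Recurrent g → ∀ (E : ℕ → Finset (Sym2 V)) (B : ℕ → Finset V),
    (∀ n, ∀ e ∈ E n, e ∈ g.edgeSet) → (∀ e ∈ g.edgeSet, ∃ n, ∀ m, n ≤ m → e ∈ E m) →
    Monotone B → (∀ v, ∃ n, v ∈ B n) → ∀ S A : Finset (Sym2 V),
    Tendsto (fun n => pr ⊥ (E n) (fun T => (T : Set (Sym2 V)) ∩ S = A) -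
      ustProb (wired (B n)) (touch g (B n)) (S : Set (Sym2 V)) (A : Set (Sym2 V))) atTop (𝓝 0)) →
  ∀ (F : CF), IsCpl F → ∀ (V : Type) [Countable V] (g : SimpleGraph V), g.Connected → LF g → NI g →
  Recurrent g → ∀ (K : ℕ → SimpleGraph V), IsTower K → (∀ n, K n ≤ g) →
  (∀ x y, g.Adj x y → ∃ n, (K n).Adj x y) → ∀ a : V → I, Function.Injective a →
  ∀ B : ℕ → Finset V, Monotone B → (∀ v, ∃ n, v ∈ B n) → ∀ S A : Finset (Sym2 V),
  Tendsto (fun n => ustProb (wired (B n)) (touch g (B n)) (S : Set (Sym2 V)) (A : Set (Sym2 V)))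
    atTop (𝓝 ((lu (V × ℕ)).real {t | Tinf F K a t ∩ S = A}))

/-- MPH. Measurability of the limit in all data. Induction on `n` for `Tr n`: countable unions over
`C`, `v`, over the values of the ranks (finitely many pairs) and of the three codes; `IsComp`,
reachability in `tw Ns g r n` are countable combinations of adjacency, which is measurable by MW. -/
def S_MPH : Prop := S_MNU → S_MW → ∀ (F : CF), IsCpl F → ∀ (V : Type) [Countable V] (Ns : ℕ → ℕ)
  (e : Sym2 V), MeasurableSet {q : SimpleGraph V × (V → I) × (V × ℕ → I) × (V × ℕ → I) |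
    e ∈ Tinf F (tw Ns q.1 q.2.2.1) q.2.1 q.2.2.2}

/-- EPH. Equivariance of the limit. All constructions are invariant: `rk (a ∘ s) C v =
rk a (C.image s) (s v)`, `IsComp (K.comap s) C ↔ IsComp K (C.map s)`, and so on; induction on
`n` for `Tr`. -/
def S_EPH : Prop := S_IW → ∀ (F : CF) (V : Type) (Ns : ℕ → ℕ) (s : Equiv.Perm V)
  (g : SimpleGraph V) (a : V → I) (r t : V × ℕ → I) (e : Sym2 V),
  (e ∈ Tinf F (tw Ns (g.comap s) (fun p => r (s p.1, p.2))) (fun v => a (s v))
      (fun p => t (s p.1, p.2)) ↔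
    Sym2.map s e ∈ Tinf F (tw Ns g r) a t)

/-- SPL. One uniform number contains three independent sets of labels. Proof: there is a measurable
`φ : I → I × (ℕ → I) × (ℕ → I)` with `map φ volume = volume.prod ((lu ℕ).prod (lu ℕ))`
(`MeasureTheory.Measure.exists_measurable_map_eq`, the target is standard Borel); then use
`Measure.infinitePi_map_pi`, `infinitePi_map_curry` and uniqueness `eq_infinitePi` (or a direct
check on measurable rectangles over finite sets). -/
def S_SPL : Prop := ∃ (φ₀ : I → I) (φ₁ φ₂ : I → ℕ → I), Measurable φ₀ ∧ Measurable φ₁ ∧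
  Measurable φ₂ ∧ ∀ (V : Type) [Countable V],
    Measure.map (fun u : V → I => ((fun v => φ₀ (u v) : V → I),
      (fun p => φ₁ (u p.1) p.2 : V × ℕ → I), (fun p => φ₂ (u p.1) p.2 : V × ℕ → I))) (lu V) =
    (lu V).prod ((lu (V × ℕ)).prod (lu (V × ℕ)))

end Pool.Agent.Q42.UT
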