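import Pool.Agent.Q42.UT.Stm

/-!
# Project UT (MP_688e31_pr): the clusters are finite by reversibility

(idea of helper171) The expected number of vertices `x` with stage-`j` winner `z` is
`∑ x, nu g (Ns j) x z ≤ deg z`, so that no mass transport is needed. These statements replace MTP,
EVE, FCL, DCT, BC of `Stm`.
-/

set_option autoImplicit false

namespace Pool.Agent.Q42.UT

open MeasureTheory Set Filter Topology
open scoped ENNReal unitInterval
open Pool.Agent.TH968.UST

/-- REV. Reversibility. Let `d x` be the number of neighbours. By induction on `n`,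
`d x * pn g n x z = d z * pn g n z x` together with the last-step formula
`pn g (n+1) x z = ∑_{w ~ z} pn g n x w / d w`. So `∑ x, pn g n x z = ∑ x, (d z / d x) * pn g n z x ≤
d z * ∑ x, pn g n z x ≤ d z`. (For `N = 0` everything is zero.) -/
def S_REV : Prop := ∀ (V : Type) [Countable V] (g : SimpleGraph V), LF g → NI g → ∀ (N : ℕ) (z : V),
  ∑' x, nu g N x z ≠ ∞

/-- WPR. The probability to win. If `p z ≠ 0` and `z` wins then `U w < U z ^ (p w / p z)` for all
`w ≠ z` in the finite support (take the power `1 / p z`), and by RC1 this has probability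
`1 / (1 + ∑_{w ≠ z} p w / p z) = p z`. -/
def S_WPR : Prop := S_RC1 → ∀ (V : Type) [Countable V] (p : V → ℝ≥0∞), {z | p z ≠ 0}.Finite →
  ∑' z, p z = 1 → ∀ z, lu V {U | Win p U z} ≤ p z

/-- FCX. Finite clusters for a fixed graph: for fixed `j`, `z` (countably many) the events
`WinJ Ns g r j x z`, `x : V`, have summable probabilities (WPR for `nu g (Ns j) x`, a probability of
finite support by NUP if `Ns j ≥ 1`, and REV; if `Ns j = 0` then `nu g 0 x = 0` and nobody wins), so
almost surely only finitely many of them happen (Borel-Cantelli, `ae_finite_setOf_mem` or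
`measure_limsup_cofinite_eq_zero`). The law of `v ↦ r (v, j)` under `lu (V × ℕ)` is `lu V`. -/
def S_FCX : Prop := S_WPR → S_RC1 → S_REV → S_NUP → ∀ (V : Type) [Countable V] (g : SimpleGraph V),
  LF g → NI g → ∀ Ns : ℕ → ℕ, ∀ᵐ r ∂(lu (V × ℕ)), ∀ j z, {x | WinJ Ns g r j x z}.Finite

/-- DCX. A choice of the numbers `Ns j`: for fixed `j` there are finitely many pairs `x, y` with
`c x ≤ j`, `c y ≤ j`; for each of them the probability of `Adj x y` and different winners, with the
parameter `N`, tends to zero as `N → ∞` by OPN and dominated convergence over `P` (the event is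
measurable by MNU; `Measure.prod_apply`). So `Ns j` can be chosen. -/
def S_DCX : Prop := S_OPN → S_RACE → S_RC1 → S_REI → S_HIT → S_GRN → S_NUP → S_MNU →
  ∀ (V Ω : Type) [Countable V] [MeasurableSpace Ω] (P : Measure Ω) [IsProbabilityMeasure P]
  (G : Ω → SimpleGraph V), Measurable G → (∀ᵐ ω ∂P, LF (G ω) ∧ NI (G ω) ∧ Recurrent (G ω)) →
  ∀ c : V → ℕ, Function.Injective c →
  ∃ Ns : ℕ → ℕ, ∀ j, (P.prod (lu V)) {q | ∃ x y, c x ≤ j ∧ c y ≤ j ∧ (G q.1).Adj x y ∧
    ¬ ∃ z, Win (nu (G q.1) (Ns j) x) q.2 z ∧ Win (nu (G q.1) (Ns j) y) q.2 z} ≤ (2 : ℝ≥0∞)⁻¹ ^ j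

/-- BCX. Borel-Cantelli: almost surely only finitely many of the events of DCX happen, with the
labels `v ↦ r (v, j)` in stage `j` (their law under `lu (V × ℕ)` is `lu V`;
`Measure.le_map_apply` if the sets are not known to be measurable); for a given pair `x, y` take
`j ≥ max (c x) (c y)`. -/
def S_BCX : Prop := ∀ (V Ω : Type) [Countable V] [MeasurableSpace Ω] (P : Measure Ω)
  [IsProbabilityMeasure P] (G : Ω → SimpleGraph V), ∀ c : V → ℕ, Function.Injective c →
  ∀ Ns : ℕ → ℕ, (∀ j, (P.prod (lu V)) {q | ∃ x y, c x ≤ j ∧ c y ≤ j ∧ (G q.1).Adj x y ∧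
    ¬ ∃ z, Win (nu (G q.1) (Ns j) x) q.2 z ∧ Win (nu (G q.1) (Ns j) y) q.2 z} ≤
      (2 : ℝ≥0∞)⁻¹ ^ j) →
  ∀ᵐ q ∂(P.prod (lu (V × ℕ))), ∀ x y, (G q.1).Adj x y → ∃ n, ∀ j, n ≤ j →
    ∃ z, WinJ Ns (G q.1) q.2 j x z ∧ WinJ Ns (G q.1) q.2 j y z

end Pool.Agent.Q42.UT
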