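import Pool.Agent.Q42.UT.Stm

/-!
# Project UT (MP_688e31_pr): TWO, two disjoint unions of components
-/

set_option autoImplicit false

namespace Pool.Agent.Q42.UT.TWO

open MeasureTheory Set Filter Topology ProbabilityTheory
open scoped ENNReal unitInterval
open Pool.Agent.TH968.UST

/-- Events which depend on disjoint finite sets of labels are independent. -/
theorem indep {ι : Type} (s₁ s₂ : Finset ι) (hd : Disjoint s₁ s₂) (A₁ A₂ : Set (ι → I))
    (m₁ : MeasurableSet A₁) (m₂ : MeasurableSet A₂)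
    (h₁ : ∀ t t' : ι → I, (∀ i ∈ s₁, t i = t' i) → (t ∈ A₁ ↔ t' ∈ A₁))
    (h₂ : ∀ t t' : ι → I, (∀ i ∈ s₂, t i = t' i) → (t ∈ A₂ ↔ t' ∈ A₂)) :
    lu ι (A₁ ∩ A₂) = lu ι A₁ * lu ι A₂ := by
  classical
  have hind := (iIndepFun_infinitePi (P := fun _ : ι => (volume : Measure I))
    (X := fun _ (x : I) => x) (fun _ => measurable_id)).indepFun_finset s₁ s₂ hd
    (fun i => measurable_pi_apply i)
  let ext : ∀ (s : Finset ι), (s → I) → (ι → I) := fun s u i => if h : i ∈ s then u ⟨i, h⟩ else 0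
  have hext : ∀ s, Measurable (ext s) := by
    intro s
    refine measurable_pi_iff.2 fun i => ?_
    by_cases h : i ∈ s
    · simp only [ext, h, dite_true]
      exact measurable_pi_apply _
    · simp only [ext, h, dite_false]
      exact measurable_const
  have hr : ∀ (s : Finset ι) (A : Set (ι → I)),
      (∀ t t' : ι → I, (∀ i ∈ s, t i = t' i) → (t ∈ A ↔ t' ∈ A)) →
      A = (fun (t : ι → I) (i : s) => t i) ⁻¹' (ext s ⁻¹' A) := by
    intro s A h
    ext t
    simp only [mem_preimage]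
    refine h _ _ fun i hi => ?_
    simp [ext, hi]
  have e₁ := hr s₁ A₁ h₁
  have e₂ := hr s₂ A₂ h₂
  have := hind.measure_inter_preimage_eq_mul _ _ (hext s₁ m₁) (hext s₂ m₂)
  rw [← e₁, ← e₂] at this
  exact this

theorem mem_ed {V : Type} (K : SimpleGraph V) (C : Finset V) (x y : V) :
    s(x, y) ∈ ed K C ↔ x ∈ C ∧ y ∈ C ∧ K.Adj x y := by
  classical
  simp only [ed, Finset.mem_filter, Finset.mk_mem_sym2_iff, SimpleGraph.mem_edgeSet]
  tauto

theorem ed_vert {V : Type} (K : SimpleGraph V) (C : Finset V) : ∀ e ∈ ed K C, ∀ v ∈ e, v ∈ C := by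
  intro e he v hv
  induction e using Sym2.ind with
  | _ x y =>
    rw [mem_ed] at he
    rcases Sym2.mem_iff.1 hv with rfl | rfl
    · exact he.1
    · exact he.2.1

theorem mem_rs {V : Type} (E : Finset (Sym2 V)) (X : Set (Sym2 V)) (e : Sym2 V) :
    e ∈ rs E X ↔ e ∈ E ∧ e ∈ X := by
  classical
  simp [rs]

theorem meas_rs {V : Type} [Countable V] (F : CF) (hF : IsCpl F) (hMT : S_MT)
    (K : ℕ → SimpleGraph V) (a : V → I) (n : ℕ) (E S : Finset (Sym2 V)) :
    MeasurableSet {t : V × ℕ → I | rs E (Tr F K a t n) = S} := by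
  classical
  by_cases hSE : S ⊆ E
  · have : {t : V × ℕ → I | rs E (Tr F K a t n) = S} =
        ⋂ e ∈ E, {t | e ∈ Tr F K a t n ↔ e ∈ S} := by
      ext t
      simp only [mem_ofPred_eq, mem_iInter]
      constructor
      · intro h e he
        rw [← h, mem_rs]
        exact ⟨fun h' => ⟨he, h'⟩, fun h' => h'.2⟩
      · intro h
        ext e
        rw [mem_rs]
        constructor
        · rintro ⟨h1, h2⟩
          exact (h e h1).1 h2
        · intro h1
          exact ⟨hSE h1, (h e (hSE h1)).2 h1⟩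
    rw [this]
    refine E.measurableSet_biInter fun e _ => ?_
    have hm := hMT F hF V K a n e
    by_cases he : e ∈ S
    · have h3 : {t : V × ℕ → I | e ∈ Tr F K a t n ↔ e ∈ S} = {t | e ∈ Tr F K a t n} := by
        ext t
        exact ⟨fun h => h.2 he, fun h => ⟨fun _ => he, fun _ => h⟩⟩
      rw [h3]
      exact hm
    · have h3 : {t : V × ℕ → I | e ∈ Tr F K a t n ↔ e ∈ S} = {t | e ∈ Tr F K a t n}ᶜ := by
        ext t
        exact ⟨fun h h' => he (h.1 h'), fun h => ⟨fun h' => absurd h' h, fun h' => absurd h' he⟩⟩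
      rw [h3]
      exact hm.compl
  · convert MeasurableSet.empty
    ext t
    simp only [mem_ofPred_eq, mem_empty_iff_false, iff_false]
    rintro rfl
    exact hSE fun e he => ((mem_rs _ _ _).1 he).1

end Pool.Agent.Q42.UT.TWO

namespace Pool.Agent.Q42.UT

open MeasureTheory Set Filter Topology
open scoped ENNReal unitInterval
open Pool.Agent.TH968.UST

theorem t_TWO : S_TWO := by
  classical
  intro hCMP hPRODT hDEP hTRF hMT F hF V _ K hK a ha n C₁ C₂ C hC₁ hC₂ hdis hC h1 h2 S hS
  have hE : ∀ e, e ∈ ed (K n) C ↔ e ∈ ed (K n) C₁ ∨ e ∈ ed (K n) C₂ := by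
    intro e
    induction e using Sym2.ind with
    | _ x y =>
      simp only [TWO.mem_ed, hC]
      constructor
      · rintro ⟨h3 | h3, -, h5⟩
        · exact Or.inl ⟨h3, hC₁ x h3 y h5, h5⟩
        · exact Or.inr ⟨h3, hC₂ x h3 y h5, h5⟩
      · rintro (⟨h3, h4, h5⟩ | ⟨h3, h4, h5⟩)
        · exact ⟨Or.inl h3, Or.inl h4, h5⟩
        · exact ⟨Or.inr h3, Or.inr h4, h5⟩
  have hdisE : ∀ e, e ∈ ed (K n) C₁ → e ∉ ed (K n) C₂ := by
    intro e h3 h4
    induction e using Sym2.ind with
    | _ x y =>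
      rw [TWO.mem_ed] at h3 h4
      exact hdis x h3.1 h4.1
  have P := fun T => hPRODT V C₁ C₂ (ed (K n) C₁) (ed (K n) C₂) T hdis (TWO.ed_vert _ _)
    (TWO.ed_vert _ _) (ed (K n) C) hE
  obtain ⟨hSE, hS₁, hS₂⟩ := (P S).1 hS
  have hrs : ∀ (X : Set (Sym2 V)) (S : Finset (Sym2 V)), (S : Set (Sym2 V)) ⊆ ed (K n) C →
      (rs (ed (K n) C) X = S ↔ rs (ed (K n) C₁) X = rs (ed (K n) C₁) (S : Set (Sym2 V)) ∧
      rs (ed (K n) C₂) X = rs (ed (K n) C₂) (S : Set (Sym2 V))) := by
    intro X S hSE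
    constructor
    · rintro rfl
      constructor
      · ext e
        simp only [TWO.mem_rs, Finset.mem_coe, hE]
        tauto
      · ext e
        simp only [TWO.mem_rs, Finset.mem_coe, hE]
        tauto
    · rintro ⟨h3, h4⟩
      ext e
      have h5 := Finset.ext_iff.1 h3 e
      have h6 := Finset.ext_iff.1 h4 e
      simp only [TWO.mem_rs, Finset.mem_coe] at h5 h6
      rw [TWO.mem_rs, hE]
      constructor
      · rintro ⟨h7 | h7, h8⟩
        · exact (h5.1 ⟨h7, h8⟩).2
        · exact (h6.1 ⟨h7, h8⟩).2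
      · intro h7
        have h8 := hSE (Finset.mem_coe.2 h7)
        rcases (hE e).1 (Finset.mem_coe.1 h8) with h9 | h9
        · exact ⟨Or.inl h9, (h5.2 ⟨h9, h7⟩).2⟩
        · exact ⟨Or.inr h9, (h6.2 ⟨h9, h7⟩).2⟩
  have hset : {t : V × ℕ → I | rs (ed (K n) C) (Tr F K a t n) = S} =
      {t | rs (ed (K n) C₁) (Tr F K a t n) = rs (ed (K n) C₁) (S : Set (Sym2 V))} ∩
      {t | rs (ed (K n) C₂) (Tr F K a t n) = rs (ed (K n) C₂) (S : Set (Sym2 V))} := by
    ext t
    exact hrs _ S hSE
  have hcard : ((trees ⊥ (ed (K n) C)).card : ℝ≥0∞) =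
      (trees ⊥ (ed (K n) C₁)).card * (trees ⊥ (ed (K n) C₂)).card := by
    have : (trees ⊥ (ed (K n) C)).card =
        (trees ⊥ (ed (K n) C₁) ×ˢ trees ⊥ (ed (K n) C₂)).card := by
      refine Finset.card_nbij' (fun T => (rs (ed (K n) C₁) (T : Set (Sym2 V)),
        rs (ed (K n) C₂) (T : Set (Sym2 V)))) (fun T => T.1 ∪ T.2) ?_ ?_ ?_ ?_
      · intro T hT
        have hT' := (P T).1 hT
        exact Finset.mem_coe.2 (Finset.mem_product.2 ⟨hT'.2.1, hT'.2.2⟩)
      · rintro ⟨T₁, T₂⟩ hT
        obtain ⟨hT₁, hT₂⟩ := Finset.mem_product.1 (Finset.mem_coe.1 hT)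
        have s₁ := (Pool.Agent.TH830.UST.mem_trees.1 hT₁).1
        have s₂ := (Pool.Agent.TH830.UST.mem_trees.1 hT₂).1
        refine Finset.mem_coe.2 ((P _).2 ⟨?_, ?_, ?_⟩)
        · intro e he
          rcases Finset.mem_union.1 (Finset.mem_coe.1 he) with h | h
          · exact Finset.mem_coe.2 ((hE e).2 (Or.inl (s₁ h)))
          · exact Finset.mem_coe.2 ((hE e).2 (Or.inr (s₂ h)))
        · have : rs (ed (K n) C₁) ((T₁ ∪ T₂ : Finset (Sym2 V)) : Set (Sym2 V)) = T₁ := by
            ext e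
            simp only [TWO.mem_rs, Finset.mem_coe, Finset.mem_union]
            constructor
            · rintro ⟨h3, h4 | h4⟩
              · exact h4
              · exact absurd (s₂ h4) (hdisE e h3)
            · intro h3
              exact ⟨s₁ h3, Or.inl h3⟩
          simpa only [this] using hT₁
        · have : rs (ed (K n) C₂) ((T₁ ∪ T₂ : Finset (Sym2 V)) : Set (Sym2 V)) = T₂ := by
            ext e
            simp only [TWO.mem_rs, Finset.mem_coe, Finset.mem_union]
            constructor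
            · rintro ⟨h3, h4 | h4⟩
              · exact absurd h3 (hdisE e (s₁ h4))
              · exact h4
            · intro h3
              exact ⟨s₂ h3, Or.inr h3⟩
          simpa only [this] using hT₂
      · intro T hT
        have hT' := ((P T).1 hT).1
        ext e
        simp only [Finset.mem_union, TWO.mem_rs, Finset.mem_coe]
        constructor
        · rintro (h | h)
          · exact h.2
          · exact h.2
        · intro h
          rcases (hE e).1 (Finset.mem_coe.1 (hT' (Finset.mem_coe.2 h))) with h9 | h9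
          · exact Or.inl ⟨h9, h⟩
          · exact Or.inr ⟨h9, h⟩
      · rintro ⟨T₁, T₂⟩ hT
        obtain ⟨hT₁, hT₂⟩ := Finset.mem_product.1 (Finset.mem_coe.1 hT)
        have s₁ := (Pool.Agent.TH830.UST.mem_trees.1 hT₁).1
        have s₂ := (Pool.Agent.TH830.UST.mem_trees.1 hT₂).1
        refine Prod.ext ?_ ?_
        · ext e
          simp only [TWO.mem_rs, Finset.mem_coe, Finset.mem_union]
          constructor
          · rintro ⟨h3, h4 | h4⟩
            · exact h4
            · exact absurd (s₂ h4) (hdisE e h3)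
          · intro h3
            exact ⟨s₁ h3, Or.inl h3⟩
        · ext e
          simp only [TWO.mem_rs, Finset.mem_coe, Finset.mem_union]
          constructor
          · rintro ⟨h3, h4 | h4⟩
            · exact absurd h3 (hdisE e (s₁ h4))
            · exact h4
          · intro h3
            exact ⟨s₂ h3, Or.inr h3⟩
    rw [this, Finset.card_product]
    push_cast
    rfl
  rw [hset, TWO.indep (C₁ ×ˢ Finset.range n) (C₂ ×ˢ Finset.range n) ?_ _ _
    (TWO.meas_rs F hF hMT K a n _ _) (TWO.meas_rs F hF hMT K a n _ _) ?_ ?_, h1 _ hS₁, h2 _ hS₂,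
    hcard]
  · rw [one_div, one_div, one_div, ENNReal.mul_inv]
    · left
      have := Finset.card_pos.2 (Pool.Agent.TH830.UST.trees_nonempty ⊥ (ed (K n) C₁))
      exact_mod_cast this.ne'
    · left
      exact ENNReal.natCast_ne_top _
  · rw [Finset.disjoint_left]
    rintro ⟨v, k⟩ h3 h4
    exact hdis v (Finset.mem_product.1 h3).1 (Finset.mem_product.1 h4).1
  · intro t t' ht
    have := hDEP hCMP hTRF F hF V K hK a ha t t' n C₁ hC₁
      (fun v hv k hk => ht (v, k) (Finset.mem_product.2 ⟨hv, Finset.mem_range.2 hk⟩))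
    simp only [mem_ofPred_eq, this]
  · intro t t' ht
    have := hDEP hCMP hTRF F hF V K hK a ha t t' n C₂ hC₂
      (fun v hv k hk => ht (v, k) (Finset.mem_product.2 ⟨hv, Finset.mem_range.2 hk⟩))
    simp only [mem_ofPred_eq, this]

end Pool.Agent.Q42.UT
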